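import Mathlib

namespace Pool.Agent.Lib.Helper10.UB

open Equiv

/-- number of classes of a setoid -/
noncomputable def nc {α : Type*} (r : Setoid α) : ℕ := Nat.card (Quotient r)

lemma nc_le_of_le {α : Type*} [Finite α] {r s : Setoid α} (h : ∀ a b, r a b → s a b) :
    nc s ≤ nc r := by
  classical
  have hf : Function.Surjective (Quotient.map (sa := r) (sb := s) id (fun a b hab => h a b hab)) := by
    intro q
    induction q using Quotient.inductionOn with
    | h a => exact ⟨Quotient.mk r a, rfl⟩
  exact Nat.card_le_card_of_surjective _ hf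

lemma nc_lt_of_lt {α : Type*} [Finite α] {r s : Setoid α} (h : ∀ a b, r a b → s a b)
    {x y : α} (hs : s x y) (hr : ¬ r x y) : nc s + 1 ≤ nc r := by
  classical
  set f := (Quotient.map (sa := r) (sb := s) id (fun a b hab => h a b hab)) with hfdef
  have hf : Function.Surjective f := by
    intro q
    induction q using Quotient.inductionOn with
    | h a => exact ⟨Quotient.mk r a, rfl⟩
  have hle : nc s ≤ nc r := Nat.card_le_card_of_surjective _ hf
  by_contra hcon
  have heq : Nat.card (Quotient r) = Nat.card (Quotient s) := by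
    unfold nc at *; omega
  have hbij : Function.Bijective f := by
    have := Fintype.ofFinite (Quotient r)
    have := Fintype.ofFinite (Quotient s)
    rw [Fintype.bijective_iff_surjective_and_card]
    refine ⟨hf, ?_⟩
    simpa [Nat.card_eq_fintype_card] using heq
  have : (Quotient.mk r x) = Quotient.mk r y := by
    apply hbij.1
    show Quotient.mk s x = Quotient.mk s y
    exact Quotient.sound hs
  exact hr (Quotient.exact this)

lemma nc_merge {α : Type*} [Finite α] {r s : Setoid α} {x y : α}
    (h : ∀ a b, s a b → r a b ∨ (r a x ∧ r b y) ∨ (r a y ∧ r b x)) :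
    nc r ≤ nc s + 1 := by
  classical
  let f : Quotient r → Option (Quotient s) := fun q =>
    if q = Quotient.mk r y then none else some (Quotient.mk s q.out)
  have hf : Function.Injective f := by
    intro q q' hqq
    simp only [f] at hqq
    by_cases h1 : q = Quotient.mk r y
    · by_cases h2 : q' = Quotient.mk r y
      · rw [h1, h2]
      · simp [h1, h2] at hqq
    · by_cases h2 : q' = Quotient.mk r y
      · simp [h1, h2] at hqq
      · simp only [h1, h2, if_false, Option.some.injEq] at hqq
        have h3 := Quotient.exact hqq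
        have e1 : ¬ r q.out y := fun h4 => h1 (by rw [← Quotient.out_eq q]; exact Quotient.sound h4)
        have e2 : ¬ r q'.out y := fun h4 => h2 (by rw [← Quotient.out_eq q']; exact Quotient.sound h4)
        rcases h _ _ h3 with h4 | h4 | h4
        · rw [← Quotient.out_eq q, ← Quotient.out_eq q']
          exact Quotient.sound h4
        · exact absurd h4.2 e2
        · exact absurd h4.1 e1
  have := Nat.card_le_card_of_injective f hf
  simpa [nc, Finite.card_option] using this

/-- The setoid generated by one more identification. -/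
lemma merge_of_gen {α : Type*} {r s : Setoid α} {x y : α} {R : α → α → Prop}
    (hs : ∀ a b, s a b → Relation.EqvGen R a b)
    (hR : ∀ a b, R a b → r a b ∨ (r a x ∧ r b y) ∨ (r a y ∧ r b x)) :
    ∀ a b, s a b → r a b ∨ (r a x ∧ r b y) ∨ (r a y ∧ r b x) := by
  intro a b hab
  have h := hs a b hab
  clear hab hs
  induction h with
  | rel a b h => exact hR a b h
  | refl a => exact Or.inl (r.refl a)
  | symm a b _ ih =>
    rcases ih with h | h | h
    · exact Or.inl (r.symm h)
    · exact Or.inr (Or.inr ⟨h.2, h.1⟩)
    · exact Or.inr (Or.inl ⟨h.2, h.1⟩)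
  | trans a b c _ _ ih1 ih2 =>
    rcases ih1 with h | h | h <;> rcases ih2 with h' | h' | h'
    · exact Or.inl (r.trans h h')
    · exact Or.inr (Or.inl ⟨r.trans h h'.1, h'.2⟩)
    · exact Or.inr (Or.inr ⟨r.trans h h'.1, h'.2⟩)
    · exact Or.inr (Or.inl ⟨h.1, r.trans (r.symm h') h.2⟩)
    · -- a x, b y, b x, c y
      exact Or.inl (r.trans h.1 (r.trans (r.symm h'.1) (r.trans h.2 (r.symm h'.2))))
    · -- a x, b y, b y, c x
      exact Or.inl (r.trans h.1 (r.symm h'.2))
    · exact Or.inr (Or.inr ⟨h.1, r.trans (r.symm h') h.2⟩)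
    · exact Or.inl (r.trans h.1 (r.symm h'.2))
    · exact Or.inl (r.trans h.1 (r.trans (r.symm h'.1) (r.trans h.2 (r.symm h'.2))))

/-- class count of the cycle partition of a permutation -/
noncomputable def cyc {D : Type*} (π : Perm D) : Setoid D := Perm.SameCycle.setoid π

lemma cyc_iff {D : Type*} (π : Perm D) (a b : D) : cyc π a b ↔ π.SameCycle a b := Iff.rfl

lemma not_sameCycle_mul_swap {D : Type*} [Finite D] [DecidableEq D] (π : Perm D) {x y : D}
    (hxy : x ≠ y) (h : π.SameCycle x y) : ¬ (π * swap x y).SameCycle x y := by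
  classical
  have hex : ∃ n : ℕ, (π ^ n) x = y := by
    obtain ⟨i, hi⟩ := h.exists_nat_pow_eq
    exact ⟨i, hi⟩
  set a := Nat.find hex with ha
  have ha1 : (π ^ a) x = y := Nat.find_spec hex
  have ha2 : ∀ j < a, (π ^ j) x ≠ y := fun j hj => Nat.find_min hex hj
  have ha0 : 0 < a := by
    rcases Nat.eq_zero_or_pos a with h0 | h0
    · rw [h0] at ha1
      simp at ha1
      exact absurd ha1 hxy
    · exact h0
  have ha3 : ∀ j, 0 < j → j < a → (π ^ j) x ≠ x := by
    intro j hj hja hjx
    have : (π ^ (a - j)) x = y := by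
      have : (π ^ (a - j + j)) x = y := by
        rw [Nat.sub_add_cancel hja.le]; exact ha1
      rw [pow_add, Perm.mul_apply, hjx] at this
      exact this
    exact ha2 (a - j) (by omega) this
  set ψ := π * swap x y with hψ
  have key : ∀ n : ℕ, ∃ j, 1 ≤ j ∧ j ≤ a ∧ (ψ ^ n) y = (π ^ j) x := by
    intro n
    induction n with
    | zero => exact ⟨a, ha0, le_refl _, by simp [ha1]⟩
    | succ n ih =>
      obtain ⟨j, hj1, hj2, hj3⟩ := ih
      rw [pow_succ', Perm.mul_apply, hj3]
      rcases Nat.lt_or_ge j a with hja | hja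
      · refine ⟨j + 1, by omega, by omega, ?_⟩
        rw [hψ, Perm.mul_apply, swap_apply_of_ne_of_ne (ha3 j hj1 hja) (ha2 j hja), pow_succ',
          Perm.mul_apply]
      · have : j = a := le_antisymm hj2 hja
        refine ⟨1, le_refl _, ha0, ?_⟩
        rw [this, ha1, hψ, Perm.mul_apply, swap_apply_right]
        simp
  intro hcon
  obtain ⟨n, hn⟩ := hcon.symm.exists_nat_pow_eq
  obtain ⟨j, hj1, hj2, hj3⟩ := key n
  rw [hn] at hj3
  rcases Nat.lt_or_ge j a with hja | hja
  · exact ha3 j hj1 hja hj3.symm
  · have : j = a := le_antisymm hj2 hja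
    rw [this, ha1] at hj3
    exact hxy hj3

/-- the cycle partition is generated by the steps of the permutation -/
lemma sameCycle_gen {D : Type*} [Finite D] (π : Perm D) (a b : D) (h : π.SameCycle a b) :
    Relation.EqvGen (fun a b => π a = b) a b := by
  obtain ⟨n, hn⟩ := h.exists_nat_pow_eq
  rw [← hn]
  clear hn h
  induction n with
  | zero => exact Relation.EqvGen.refl _
  | succ n ih =>
    refine Relation.EqvGen.trans _ _ _ ih (Relation.EqvGen.rel _ _ ?_)
    rw [pow_succ', Perm.mul_apply]

lemma sameCycle_of_step {D : Type*} {π ψ : Perm D} [Finite D] (h : ∀ a, π.SameCycle a (ψ a)) (a b : D)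
    (hab : ψ.SameCycle a b) : π.SameCycle a b := by
  obtain ⟨n, hn⟩ := hab.exists_nat_pow_eq
  rw [← hn]
  clear hn hab
  induction n with
  | zero => exact Perm.SameCycle.refl _ _
  | succ n ih =>
    rw [pow_succ', Perm.mul_apply]
    exact ih.trans (h _)

/-- splitting: the number of cycles goes up -/
lemma cyc_split {D : Type*} [Finite D] [DecidableEq D] (π : Perm D) {x y : D}
    (hxy : x ≠ y) (h : π.SameCycle x y) : nc (cyc π) + 1 ≤ nc (cyc (π * swap x y)) := by
  refine nc_lt_of_lt (x := x) (y := y) ?_ h (not_sameCycle_mul_swap π hxy h)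
  intro a b hab
  refine sameCycle_of_step (π := π) (ψ := π * swap x y) ?_ a b hab
  intro c
  rw [Perm.mul_apply]
  by_cases h1 : c = x
  · subst h1
    rw [swap_apply_left]
    exact h.trans (Perm.sameCycle_apply_right.2 (Perm.SameCycle.refl _ _))
  · by_cases h2 : c = y
    · subst h2
      rw [swap_apply_right]
      exact h.symm.trans (Perm.sameCycle_apply_right.2 (Perm.SameCycle.refl _ _))
    · rw [swap_apply_of_ne_of_ne h1 h2]
      exact (Perm.sameCycle_apply_right.2 (Perm.SameCycle.refl _ _))

/-- merging: the number of cycles goes down by at most one -/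
lemma cyc_merge {D : Type*} [Finite D] [DecidableEq D] (π : Perm D) (x y : D) :
    nc (cyc π) ≤ nc (cyc (π * swap x y)) + 1 := by
  refine nc_merge (x := x) (y := y) ?_
  refine merge_of_gen (R := fun a b => (π * swap x y) a = b) (fun a b hab => sameCycle_gen _ a b hab) ?_
  intro a b hab
  rw [Perm.mul_apply] at hab
  by_cases h1 : a = x
  · subst h1
    rw [swap_apply_left] at hab
    right; left
    refine ⟨Perm.SameCycle.refl _ _, ?_⟩
    rw [← hab]
    exact (Perm.sameCycle_apply_left.2 (Perm.SameCycle.refl _ _))
  · by_cases h2 : a = y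
    · subst h2
      rw [swap_apply_right] at hab
      right; right
      refine ⟨Perm.SameCycle.refl _ _, ?_⟩
      rw [← hab]
      exact (Perm.sameCycle_apply_left.2 (Perm.SameCycle.refl _ _))
    · rw [swap_apply_of_ne_of_ne h1 h2] at hab
      left
      rw [← hab]
      exact (Perm.sameCycle_apply_right.2 (Perm.SameCycle.refl _ _))

end Pool.Agent.Lib.Helper10.UB
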