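import Pool.Agent.Lib.Helper10.UB.A1

namespace Pool.Agent.Lib.Helper10.UB

open Equiv

section darts

variable {D V : Type*} [Finite D] [DecidableEq D] [Finite V]

/-- the involution restricted to an active set -/
def act (τ : D → D) (hτ : ∀ x, τ (τ x) = x) (S : Finset D) : Perm D :=
  Function.Involutive.toPerm (fun x => if x ∈ S ∧ τ x ∈ S then τ x else x) (by
    intro x
    by_cases h : x ∈ S ∧ τ x ∈ S
    · simp [h, hτ]
    · simp only [h, if_false])

lemma act_apply (τ : D → D) (hτ : ∀ x, τ (τ x) = x) (S : Finset D) (x : D) :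
    act τ hτ S x = if x ∈ S ∧ τ x ∈ S then τ x else x := rfl

lemma act_of_mem (τ : D → D) (hτ : ∀ x, τ (τ x) = x) {S : Finset D}
    (hS : ∀ x ∈ S, τ x ∈ S) {x : D} (hx : x ∈ S) : act τ hτ S x = τ x := by
  rw [act_apply, if_pos ⟨hx, hS x hx⟩]

lemma act_of_not_mem (τ : D → D) (hτ : ∀ x, τ (τ x) = x) {S : Finset D}
    {x : D} (hx : x ∉ S) : act τ hτ S x = x := by
  rw [act_apply, if_neg (fun h => hx h.1)]

/-- connectivity by active darts -/
def con (p : D → V) (τ : D → D) (S : Finset D) : Setoid V :=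
  Relation.EqvGen.setoid (fun u v => ∃ x ∈ S, p x = u ∧ p (τ x) = v)

lemma con_of_mem (p : D → V) (τ : D → D) {S : Finset D} {x : D} (hx : x ∈ S) :
    con p τ S (p x) (p (τ x)) :=
  Relation.EqvGen.rel _ _ ⟨x, hx, rfl, rfl⟩

variable (p : D → V) (τ : D → D) (hτ : ∀ x, τ (τ x) = x) (σ : Perm D)

/-- the potential -/
noncomputable def pot (S : Finset D) : ℤ :=
  2 * (Nat.card V : ℤ) - (S.card : ℤ) + 2 * (nc (cyc (σ * act τ hτ S)) : ℤ)
    - 4 * (nc (con p τ S) : ℤ)

variable {σ} in
lemma act_erase {S : Finset D} (hS : ∀ x ∈ S, τ x ∈ S) {d : D} (hd : d ∈ S) (hne : τ d ≠ d) :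
    σ * act τ hτ ((S.erase d).erase (τ d)) = (σ * act τ hτ S) * swap d (τ d) := by
  rw [mul_assoc]
  congr 1
  ext x
  rw [Perm.mul_apply]
  by_cases h1 : x = d
  · subst h1
    rw [swap_apply_left, act_of_mem τ hτ hS (hS _ hd), hτ, act_of_not_mem]
    simp
  · by_cases h2 : x = τ d
    · subst h2
      rw [swap_apply_right, act_of_mem τ hτ hS hd, act_of_not_mem]
      simp
    · rw [swap_apply_of_ne_of_ne h1 h2, act_apply, act_apply]
      have h3 : τ x ≠ d := fun h => h2 (by rw [← h, hτ])
      have h4 : τ x ≠ τ d := fun h => h1 (by rw [← hτ x, h, hτ])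
      simp [h1, h2, h3, h4]

include hτ in
lemma pot_step (hσ : ∀ x, p (σ x) = p x) {S : Finset D} (hS : ∀ x ∈ S, τ x ∈ S) {d : D}
    (hd : d ∈ S) (hne : τ d ≠ d) :
    pot p τ hτ σ S ≤ pot p τ hτ σ ((S.erase d).erase (τ d)) := by
  classical
  set T := (S.erase d).erase (τ d) with hT
  have hTcard : (T.card : ℤ) = S.card - 2 := by
    have h1 : τ d ∈ S.erase d := Finset.mem_erase.2 ⟨hne, hS d hd⟩
    have h2 : T.card = (S.erase d).card - 1 := by rw [hT, Finset.card_erase_of_mem h1]
    have h3 : (S.erase d).card = S.card - 1 := Finset.card_erase_of_mem hd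
    have h4 : 0 < (S.erase d).card := Finset.card_pos.2 ⟨_, h1⟩
    omega
  have hact := act_erase (σ := σ) τ hτ hS hd hne
  rw [← hT] at hact
  -- connectivity comparison
  have hcon1 : nc (con p τ T) ≤ nc (con p τ S) + 1 := by
    refine nc_merge (x := p d) (y := p (τ d)) ?_
    refine merge_of_gen (R := fun u v => ∃ x ∈ S, p x = u ∧ p (τ x) = v) (fun a b h => h) ?_
    rintro a b ⟨x, hx, rfl, rfl⟩
    by_cases h1 : x = d
    · subst h1
      right; left
      exact ⟨Relation.EqvGen.refl _, Relation.EqvGen.refl _⟩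
    · by_cases h2 : x = τ d
      · subst h2
        right; right
        refine ⟨Relation.EqvGen.refl _, ?_⟩
        rw [hτ]
      · left
        refine Relation.EqvGen.rel _ _ ⟨x, ?_, rfl, rfl⟩
        simp [hT, h1, h2, hx]
  by_cases hsame : (σ * act τ hτ S).SameCycle d (τ d)
  · have h1 := cyc_split (σ * act τ hτ S) hne.symm hsame
    rw [← hact] at h1
    unfold pot
    have h1' : (nc (cyc (σ * act τ hτ S)) : ℤ) + 1 ≤ nc (cyc (σ * act τ hτ T)) := by exact_mod_cast h1
    have h2' : (nc (con p τ T) : ℤ) ≤ nc (con p τ S) + 1 := by exact_mod_cast hcon1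
    linarith
  · have h1 := cyc_merge (σ * act τ hτ S) d (τ d)
    rw [← hact] at h1
    have hcc : con p τ T (p d) (p (τ d)) := by
      set φ := σ * act τ hτ S with hφ
      -- first return
      have hex : ∃ n : ℕ, 0 < n ∧ (φ ^ n) d = d :=
        ⟨orderOf φ, orderOf_pos φ, by rw [pow_orderOf_eq_one]; rfl⟩
      set N := Nat.find hex with hN
      obtain ⟨hN0, hN1⟩ : 0 < N ∧ (φ ^ N) d = d := Nat.find_spec hex
      have hN2 : ∀ m, m < N → 0 < m → (φ ^ m) d ≠ d := fun m hm h0 h => Nat.find_min hex hm ⟨h0, h⟩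
      have key : ∀ n, n + 1 ≤ N → con p τ T (p (τ d)) (p ((φ ^ (n + 1)) d)) := by
        intro n
        induction n with
        | zero =>
          intro _
          rw [zero_add, pow_one, hφ, Perm.mul_apply, hσ, act_of_mem τ hτ hS hd]
        | succ n ih =>
          intro hn
          have ih' := ih (by omega)
          set x := (φ ^ (n + 1)) d with hx
          have e1 : x ≠ d := hN2 (n + 1) (by omega) (by omega)
          have e2 : x ≠ τ d := by
            intro h
            apply hsame
            exact ⟨(n + 1 : ℕ), by rw [zpow_natCast, ← hx, h]⟩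
          have e3 : (φ ^ (n + 1 + 1)) d = φ x := by rw [pow_succ', Perm.mul_apply]
          rw [e3, hφ, Perm.mul_apply, hσ]
          by_cases hxS : x ∈ S
          · rw [act_of_mem τ hτ hS hxS]
            have hxT : x ∈ T := by simp [hT, e1, e2, hxS]
            exact Relation.EqvGen.trans _ _ _ ih' (con_of_mem p τ hxT)
          · rw [act_of_not_mem τ hτ hxS]
            exact ih'
      have := key (N - 1) (by omega)
      rw [Nat.sub_add_cancel hN0, hN1] at this
      exact Relation.EqvGen.symm _ _ this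
    have hcon2 : nc (con p τ T) ≤ nc (con p τ S) := by
      refine nc_le_of_le ?_
      intro a b hab
      have hab' : Relation.EqvGen (fun u v => ∃ x ∈ S, p x = u ∧ p (τ x) = v) a b := hab
      clear hab
      induction hab' with
      | refl a => exact Relation.EqvGen.refl _
      | symm a b _ ih => exact Relation.EqvGen.symm _ _ ih
      | trans a b c _ _ ih1 ih2 => exact Relation.EqvGen.trans _ _ _ ih1 ih2
      | rel a b h =>
        obtain ⟨x, hx, rfl, rfl⟩ := h
        by_cases h1 : x = d
        · subst h1; exact hcc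
        · by_cases h2 : x = τ d
          · subst h2
            rw [hτ]
            exact (con p τ T).symm hcc
          · refine Relation.EqvGen.rel _ _ ⟨x, ?_, rfl, rfl⟩
            simp [hT, h1, h2, hx]
    unfold pot
    have h1' : (nc (cyc (σ * act τ hτ S)) : ℤ) ≤ nc (cyc (σ * act τ hτ T)) + 1 := by exact_mod_cast h1
    have h2' : (nc (con p τ T) : ℤ) ≤ nc (con p τ S) := by exact_mod_cast hcon2
    linarith

include hτ in
/-- The potential is monotone under passing to a symmetric subset. -/
lemma pot_mono (hσ : ∀ x, p (σ x) = p x) (hne : ∀ x, τ x ≠ x) :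
    ∀ (n : ℕ) (S T : Finset D), (S \ T).card = n → T ⊆ S → (∀ x ∈ S, τ x ∈ S) →
      (∀ x ∈ T, τ x ∈ T) → pot p τ hτ σ S ≤ pot p τ hτ σ T := by
  classical
  intro n
  induction n using Nat.strong_induction_on with
  | _ n ih =>
    intro S T hn hTS hS hT
    by_cases h0 : S \ T = ∅
    · have : S = T := Finset.Subset.antisymm (Finset.sdiff_eq_empty_iff_subset.1 h0) hTS
      rw [this]
    · obtain ⟨d, hd⟩ := Finset.nonempty_iff_ne_empty.2 h0
      obtain ⟨hdS, hdT⟩ := Finset.mem_sdiff.1 hd
      have hdT' : τ d ∉ T := fun h => hdT (by rw [← hτ d]; exact hT _ h)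
      refine le_trans (pot_step p τ hτ σ hσ hS hdS (hne d)) ?_
      refine ih ((((S.erase d).erase (τ d)) \ T).card) ?_ _ T rfl ?_ ?_ hT
      · rw [← hn]
        apply Finset.card_lt_card
        refine ⟨?_, ?_⟩
        · intro x hx
          simp only [Finset.mem_sdiff, Finset.mem_erase] at hx ⊢
          exact ⟨hx.1.2.2, hx.2⟩
        · intro hsub
          have := hsub hd
          simp at this
      · intro x hx
        simp only [Finset.mem_erase]
        exact ⟨fun h => hdT' (h ▸ hx), fun h => hdT (h ▸ hx), hTS hx⟩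
      · intro x hx
        simp only [Finset.mem_erase] at hx ⊢
        refine ⟨fun h => hx.2.1 (by rw [← hτ x, h, hτ]), fun h => hx.1 (by rw [← h, hτ]), hS x hx.2.2⟩

end darts

end Pool.Agent.Lib.Helper10.UB
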