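import Pool.Agent.Lib.Helper10.UB.A2

namespace Pool.Agent.Lib.Helper10.UB

open Equiv

section girth

variable {V : Type*} {G : SimpleGraph V}

/-- walk along a sequence -/
def wk (f : ℕ → V) (h : ∀ i, G.Adj (f i) (f (i + 1))) : ∀ n, G.Walk (f 0) (f n)
  | 0 => SimpleGraph.Walk.nil
  | n + 1 => (wk f h n).concat (h n)

lemma wk_length (f : ℕ → V) (h : ∀ i, G.Adj (f i) (f (i + 1))) (n : ℕ) :
    (wk f h n).length = n := by
  induction n with
  | zero => rfl
  | succ n ih => rw [wk, SimpleGraph.Walk.length_concat, ih]

lemma wk_support (f : ℕ → V) (h : ∀ i, G.Adj (f i) (f (i + 1))) (n : ℕ) :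
    (wk f h n).support = (List.range (n + 1)).map f := by
  induction n with
  | zero => rfl
  | succ n ih =>
    rw [wk, SimpleGraph.Walk.support_concat, ih, List.range_succ (n := n + 1), List.map_append]
    simp

lemma wk_edges (f : ℕ → V) (h : ∀ i, G.Adj (f i) (f (i + 1))) (n : ℕ) :
    (wk f h n).edges = (List.range n).map (fun i => s(f i, f (i + 1))) := by
  induction n with
  | zero => rfl
  | succ n ih =>
    rw [wk, SimpleGraph.Walk.edges_concat, ih, List.range_succ (n := n), List.map_append]
    simp

lemma no_short (hg : 7 ≤ G.egirth) (v : ℕ → V) (hadj : ∀ i, G.Adj (v i) (v (i + 1)))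
    (hnb : ∀ i, v (i + 2) ≠ v i) : ∀ k, 0 < k → k ≤ 6 → ∀ i, v i ≠ v (i + k) := by
  intro k
  induction k using Nat.strong_induction_on with
  | _ k ih =>
    intro hk0 hk6 i heq
    have hk1 : k ≠ 1 := by
      rintro rfl
      exact (hadj i).ne heq
    have hk2 : k ≠ 2 := by
      rintro rfl
      exact hnb i heq.symm
    have hk3 : 3 ≤ k := by omega
    -- injectivity
    have hinj : ∀ a b, a < b → b < a + k → v a ≠ v b := by
      intro a b hab hb
      have := ih (b - a) (by omega) (by omega) (by omega) a
      rwa [Nat.add_sub_cancel' hab.le] at this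
    let g : ℕ → V := fun j => v (i + 1 + j)
    have hgadj : ∀ j, G.Adj (g j) (g (j + 1)) := fun j => hadj (i + 1 + j)
    have hgend : g (k - 1) = v i := by
      show v (i + 1 + (k - 1)) = v i
      rw [heq]
      congr 1
      omega
    let q := (wk g hgadj (k - 1)).copy rfl hgend
    have hqpath : q.IsPath := by
      rw [SimpleGraph.Walk.isPath_def]
      simp only [q, SimpleGraph.Walk.support_copy, wk_support]
      rw [List.nodup_map_iff_inj_on List.nodup_range]
      intro a ha b hb hab
      rw [List.mem_range] at ha hb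
      by_contra hne
      rcases Nat.lt_or_gt_of_ne hne with h | h
      · exact hinj (i + 1 + a) (i + 1 + b) (by omega) (by omega) hab
      · exact hinj (i + 1 + b) (i + 1 + a) (by omega) (by omega) hab.symm
    have hcyc : (SimpleGraph.Walk.cons (hadj i) q).IsCycle := by
      rw [SimpleGraph.Walk.cons_isCycle_iff]
      refine ⟨hqpath, ?_⟩
      simp only [q, SimpleGraph.Walk.edges_copy, wk_edges, List.mem_map, List.mem_range, not_exists,
        not_and]
      intro j hj hs
      rw [Sym2.eq_iff] at hs
      rcases hs with ⟨h1, h2⟩ | ⟨h1, h2⟩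
      · -- g j = v i = v (i+k)
        have : v (i + 1 + j) = v (i + k) := by rw [← heq]; exact h1
        exact hinj (i + 1 + j) (i + k) (by omega) (by omega) this
      · have h3 : v (i + 1 + j) = v (i + 1) := h1
        rcases Nat.eq_zero_or_pos j with h0 | h0
        · subst h0
          have h4 : v (i + 1 + 1) = v (i + k) := by rw [← heq]; exact h2
          exact hinj (i + 1 + 1) (i + k) (by omega) (by omega) h4
        · exact hinj (i + 1) (i + 1 + j) (by omega) (by omega) h3.symm
    have h7 := (SimpleGraph.le_egirth.1 hg) _ _ hcyc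
    have hlen : (SimpleGraph.Walk.cons (hadj i) q).length = k := by
      rw [SimpleGraph.Walk.length_cons]
      simp only [q, SimpleGraph.Walk.length_copy, wk_length]
      omega
    rw [hlen] at h7
    have : (7 : ℕ) ≤ k := by exact_mod_cast h7
    omega

end girth

end Pool.Agent.Lib.Helper10.UB
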