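import Mathlib

/-!
Definitions for the unit bar visibility number of planar graphs.

A bar is a horizontal segment of length one in the plane `ℝ × ℝ`; it is recorded by its left
endpoint `b = (b.1, b.2)`.
-/

namespace Pool.Agent.Lib.Helper10.UB

/-- The bar with left endpoint `b`: the horizontal unit segment `[b.1, b.1 + 1] × {b.2}`. -/
def barSet (b : ℝ × ℝ) : Set (ℝ × ℝ) := {p | b.1 ≤ p.1 ∧ p.1 ≤ b.1 + 1 ∧ p.2 = b.2}

/-- There is a channel from the bar `b` up to the bar `c` among the bars of `A`: a rectangle
`[s, s'] × [b.2, c.2]` with `s < s'` and `b.2 < c.2`, whose bottom side lies on the bar `b`, whose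
top side lies on the bar `c`, and which meets no other bar of `A`. -/
def Channel (A : Set (ℝ × ℝ)) (b c : ℝ × ℝ) : Prop :=
  ∃ s s' : ℝ, s < s' ∧ b.2 < c.2 ∧
    (∀ x, s ≤ x → x ≤ s' → (x, b.2) ∈ barSet b ∧ (x, c.2) ∈ barSet c) ∧
    ∀ a ∈ A, a ≠ b → a ≠ c → ∀ x y, s ≤ x → x ≤ s' → b.2 ≤ y → y ≤ c.2 → (x, y) ∉ barSet a

/-- The bars `b` and `c` see each other, where `A` is the set of all bars used. -/
def Sees (A : Set (ℝ × ℝ)) (b c : ℝ × ℝ) : Prop := Channel A b c ∨ Channel A c b

/-- `B` is a `t`-unit-bar visibility representation of `G`, where `B v` is the set of the bars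
(recorded by left endpoints) of the vertex `v`: every vertex has at most `t` bars, all bars used
are pairwise disjoint, and distinct vertices are adjacent exactly when some bar of one of them
sees some bar of the other. -/
structure IsUnitBarRep {V : Type*} (G : SimpleGraph V) (t : ℕ) (B : V → Finset (ℝ × ℝ)) : Prop where
  /-- at most `t` bars for each vertex -/
  card_le : ∀ v, (B v).card ≤ t
  /-- all bars used are pairwise disjoint -/
  disj : ∀ u v, ∀ b ∈ B u, ∀ c ∈ B v, (u ≠ v ∨ b ≠ c) → Disjoint (barSet b) (barSet c)
  /-- adjacency is visibility -/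
  adj_iff : ∀ u v, u ≠ v → (G.Adj u v ↔ ∃ b ∈ B u, ∃ c ∈ B v, Sees {a | ∃ w, a ∈ B w} b c)

/-- The unit bar visibility number: the least positive `t` such that `G` has a `t`-unit-bar
visibility representation. -/
noncomputable def ubNumber {V : Type*} (G : SimpleGraph V) : ℕ :=
  sInf {t : ℕ | 0 < t ∧ ∃ B : V → Finset (ℝ × ℝ), IsUnitBarRep G t B}

/-- The face permutation of a rotation `σ`: a dart `d` is sent to `σ` of the reversed dart. Its
cycles (fixed points included) are the faces. -/
def facePerm {V : Type*} {H : SimpleGraph V} (σ : Equiv.Perm H.Dart) : Equiv.Perm H.Dart :=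
  (Function.Involutive.toPerm SimpleGraph.Dart.symm SimpleGraph.Dart.symm_involutive).trans σ

/-- Planarity of a finite graph, by rotation systems: either there is at most one vertex, or `G` is
a spanning subgraph of a connected graph `H` that has a rotation system `σ` (a permutation of the
darts whose cycles are exactly the sets of darts with a given first vertex) of genus zero, that is,
one that satisfies Euler's formula `V + F = E + 2`, with `F` the number of cycles of the face
permutation. -/
def IsPlanar {V : Type*} (G : SimpleGraph V) : Prop :=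
  Nat.card V ≤ 1 ∨
  ∃ H : SimpleGraph V, G ≤ H ∧ H.Connected ∧
    ∃ σ : Equiv.Perm H.Dart,
      (∀ d : H.Dart, (σ d).fst = d.fst) ∧
      (∀ d d' : H.Dart, d.fst = d'.fst → σ.SameCycle d d') ∧
      Nat.card V + Nat.card (Quotient (Equiv.Perm.SameCycle.setoid (facePerm σ))) =
        Nat.card H.edgeSet + 2

end Pool.Agent.Lib.Helper10.UB
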