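import Pool.Agent.Lib.Helper10.UB.A3
import Pool.Agent.Lib.Helper10.UB.Defs

namespace Pool.Agent.Lib.Helper10.UB

open Equiv

section

variable {V : Type*} [Fintype V] [DecidableEq V]

open Classical in
/-- degree inside a set -/
noncomputable def dg (G : SimpleGraph V) (X : Finset V) (v : V) : ℕ := (X.filter (G.Adj v)).card

open Classical in
lemma planar_core (G : SimpleGraph V) (H : SimpleGraph V) (hGH : G ≤ H) (hconn : H.Connected)
    (σ : Equiv.Perm H.Dart) (hσ1 : ∀ d : H.Dart, (σ d).fst = d.fst)
    (hσ2 : ∀ d d' : H.Dart, d.fst = d'.fst → σ.SameCycle d d')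
    (heul : Nat.card V + Nat.card (Quotient (Equiv.Perm.SameCycle.setoid (facePerm σ))) =
        Nat.card H.edgeSet + 2) (hg : 7 ≤ G.egirth) (X : Finset V) (hX : X.Nonempty)
    (hdeg : ∀ v ∈ X, 2 ≤ dg G X v) :
    5 * ∑ v ∈ X, dg G X v + 28 ≤ 14 * X.card := by
  let τ : H.Dart → H.Dart := SimpleGraph.Dart.symm
  have hτ : ∀ x : H.Dart, τ (τ x) = x := SimpleGraph.Dart.symm_symm
  have hτne : ∀ x : H.Dart, τ x ≠ x := fun x => SimpleGraph.Dart.symm_ne x
  let p : H.Dart → V := fun d => d.fst
  let S : Finset H.Dart := Finset.univ.filter (fun d => G.Adj d.fst d.snd ∧ d.fst ∈ X ∧ d.snd ∈ X)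
  have hmemS : ∀ d : H.Dart, d ∈ S ↔ (G.Adj d.fst d.snd ∧ d.fst ∈ X ∧ d.snd ∈ X) := by
    intro d; simp [S]
  have hS : ∀ x ∈ S, τ x ∈ S := by
    intro x hx
    rw [hmemS] at hx ⊢
    exact ⟨hx.1.symm, hx.2.2, hx.2.1⟩
  have hpot := pot_mono p τ hτ σ hσ1 hτne _ Finset.univ S rfl (Finset.subset_univ _)
    (fun _ _ => Finset.mem_univ _) hS
  -- the potential of the full set is at least 0
  have hfull : 0 ≤ pot p τ hτ σ Finset.univ := by
    have h1 : σ * act τ hτ Finset.univ = facePerm σ := by
      refine Equiv.ext fun x => ?_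
      rw [Perm.mul_apply, act_of_mem τ hτ (fun _ _ => Finset.mem_univ _) (Finset.mem_univ _)]
      rfl
    have h2 : nc (con p τ (Finset.univ : Finset H.Dart)) ≤ 1 := by
      have hall : ∀ a b : V, con p τ (Finset.univ : Finset H.Dart) a b := by
        intro a b
        obtain ⟨w⟩ := hconn.preconnected a b
        induction w with
        | nil => exact Relation.EqvGen.refl _
        | cons h _ ih =>
          refine Relation.EqvGen.trans _ _ _ ?_ ih
          exact Relation.EqvGen.rel _ _ ⟨⟨(_, _), h⟩, Finset.mem_univ _, rfl, rfl⟩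
      have : Subsingleton (Quotient (con p τ (Finset.univ : Finset H.Dart))) := by
        refine ⟨fun q q' => ?_⟩
        induction q using Quotient.inductionOn with
        | h a =>
          induction q' using Quotient.inductionOn with
          | h b => exact Quotient.sound (hall a b)
      exact Finite.card_le_one_iff_subsingleton.2 this
    have h3 : (Finset.univ : Finset H.Dart).card = 2 * Nat.card H.edgeSet := by
      have h6 : Nat.card H.Dart = 2 * H.edgeFinset.card :=
        Nat.card_eq_fintype_card.trans (SimpleGraph.dart_card_eq_twice_card_edges (G := H))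
      have h7 : H.edgeFinset.card = Nat.card H.edgeSet := by
        rw [SimpleGraph.edgeFinset_card, Nat.card_eq_fintype_card]
      rw [Finset.card_univ, ← Nat.card_eq_fintype_card, h6, h7]
    unfold pot
    rw [h1, h3]
    have h4 : (nc (con p τ (Finset.univ : Finset H.Dart)) : ℤ) ≤ 1 := by exact_mod_cast h2
    have h5 : (Nat.card V : ℤ) + (nc (cyc (facePerm σ)) : ℤ) = Nat.card H.edgeSet + 2 := by
      exact_mod_cast heul
    push_cast
    linarith
  have hSpot : 0 ≤ pot p τ hτ σ S := le_trans hfull hpot
  set φ := σ * act τ hτ S with hφ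
  have hφin : ∀ x, x ∉ S → φ x = σ x := by
    intro x hx
    rw [hφ, Perm.mul_apply, act_of_not_mem τ hτ hx]
  have hφact : ∀ x ∈ S, φ x = σ (τ x) := by
    intro x hx
    rw [hφ, Perm.mul_apply, act_of_mem τ hτ hS hx]
  -- every vertex of X has an active dart different from a given one
  have hdart : ∀ v ∈ X, ∀ d : H.Dart, ∃ e ∈ S, e.fst = v ∧ e ≠ d := by
    intro v hv d
    have h2 := hdeg v hv
    unfold dg at h2
    obtain ⟨a, ha, b, hb, hab⟩ := Finset.one_lt_card.1 h2
    rw [Finset.mem_filter] at ha hb
    by_cases hda : (⟨(v, a), hGH ha.2⟩ : H.Dart) = d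
    · refine ⟨⟨(v, b), hGH hb.2⟩, ?_, rfl, ?_⟩
      · rw [hmemS]; exact ⟨hb.2, hv, hb.1⟩
      · intro h
        rw [← hda] at h
        have := congrArg (fun e : H.Dart => e.snd) h
        exact hab this.symm
    · exact ⟨⟨(v, a), hGH ha.2⟩, by rw [hmemS]; exact ⟨ha.2, hv, ha.1⟩, rfl, hda⟩
  -- next active dart
  have hnext : ∀ x ∈ S, ∃ y ∈ S, φ.SameCycle x y ∧ y.fst = x.snd ∧ y ≠ τ x := by
    intro x hx
    have hxS := (hmemS x).1 hx
    obtain ⟨y', hy'S, hy'1, hy'2⟩ := hdart x.snd hxS.2.2 (τ x)
    have hsc : σ.SameCycle (τ x) y' := hσ2 _ _ hy'1.symm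
    obtain ⟨n', hn'⟩ := hsc.exists_nat_pow_eq
    have hn'0 : n' ≠ 0 := by
      rintro rfl
      exact hy'2 (by rw [← hn']; simp)
    have hex : ∃ n : ℕ, 0 < n ∧ (σ ^ n) (τ x) ∈ S := ⟨n', Nat.pos_of_ne_zero hn'0, by rw [hn']; exact hy'S⟩
    set n := Nat.find hex with hn
    obtain ⟨hn0, hnS⟩ : 0 < n ∧ (σ ^ n) (τ x) ∈ S := Nat.find_spec hex
    have hmin : ∀ m, m < n → 0 < m → (σ ^ m) (τ x) ∉ S := fun m hm h0 h => Nat.find_min hex hm ⟨h0, h⟩
    have hreach : ∀ m, m + 1 ≤ n → φ.SameCycle x ((σ ^ (m + 1)) (τ x)) := by
      intro m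
      induction m with
      | zero =>
        intro _
        refine ⟨1, ?_⟩
        rw [zpow_one, hφact x hx]
        simp
      | succ m ih =>
        intro hm
        have h1 := ih (by omega)
        have h2 := hmin (m + 1) (by omega) (by omega)
        refine h1.trans ⟨1, ?_⟩
        rw [zpow_one, hφin _ h2, pow_succ' σ (m + 1), Perm.mul_apply]
    refine ⟨(σ ^ n) (τ x), hnS, ?_, ?_, ?_⟩
    · have := hreach (n - 1) (by omega)
      rwa [Nat.sub_add_cancel hn0] at this
    · have : ∀ m : ℕ, ((σ ^ m) (τ x)).fst = (τ x).fst := by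
        intro m
        induction m with
        | zero => rfl
        | succ m ih => rw [pow_succ', Perm.mul_apply, hσ1, ih]
      rw [this]
      rfl
    · intro hret
      -- σ^n (τ x) = τ x, reduce n' modulo n
      have hper : ∀ q : ℕ, (σ ^ (n * q)) (τ x) = τ x := by
        intro q
        induction q with
        | zero => simp
        | succ q ih => rw [Nat.mul_succ, pow_add, Perm.mul_apply, hret, ih]
      have hmod : (σ ^ (n' % n)) (τ x) = y' := by
        rw [← hn']
        conv_rhs => rw [← Nat.mod_add_div n' n]
        rw [pow_add, Perm.mul_apply, hper]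
      rcases Nat.eq_zero_or_pos (n' % n) with h0 | h0
      · rw [h0] at hmod
        exact hy'2 (by rw [← hmod]; simp)
      · exact hmin (n' % n) (Nat.mod_lt _ hn0) h0 (by rw [hmod]; exact hy'S)
  -- seven active darts on each active orbit
  have hseven : ∀ x ∈ S, 7 ≤ (S.filter (fun y => Quotient.mk (cyc φ) y = Quotient.mk (cyc φ) x)).card := by
    intro x hx
    choose! nx hnxS hnxC hnxF hnxN using hnext
    let f : ℕ → H.Dart := fun i => nx^[i] x
    have hf0 : f 0 = x := rfl
    have hfs : ∀ i, f (i + 1) = nx (f i) := fun i => Function.iterate_succ_apply' nx i x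
    have hfS : ∀ i, f i ∈ S := by
      intro i
      induction i with
      | zero => exact hx
      | succ i ih => rw [hfs]; exact hnxS _ ih
    have hfC : ∀ i, φ.SameCycle x (f i) := by
      intro i
      induction i with
      | zero => exact Perm.SameCycle.refl _ _
      | succ i ih => rw [hfs]; exact ih.trans (hnxC _ (hfS i))
    have hadj : ∀ i, G.Adj (f i).fst (f (i + 1)).fst := by
      intro i
      rw [hfs, hnxF _ (hfS i)]
      exact ((hmemS _).1 (hfS i)).1
    have hnb : ∀ i, (f (i + 2)).fst ≠ (f i).fst := by
      intro i h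
      have h1 : (f (i + 2)).fst = (f (i + 1)).snd := by
        rw [hfs (i + 1), hnxF _ (hfS (i + 1))]
      have h2 : f (i + 1) ≠ τ (f i) := by
        rw [hfs]; exact hnxN _ (hfS i)
      apply h2
      apply SimpleGraph.Dart.ext
      apply Prod.ext
      · show (f (i + 1)).fst = (f i).snd
        rw [hfs, hnxF _ (hfS i)]
      · show (f (i + 1)).snd = (f i).fst
        rw [← h1, h]
    have hshort := no_short hg (fun i => (f i).fst) hadj hnb
    have hinj : Set.InjOn f (Finset.range 7 : Set ℕ) := by
      intro a ha b hb hab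
      simp only [Finset.coe_range, Set.mem_Iio] at ha hb
      by_contra hne
      rcases Nat.lt_or_gt_of_ne hne with h | h
      · refine hshort (b - a) (by omega) (by omega) a ?_
        show (f a).fst = (f (a + (b - a))).fst
        rw [Nat.add_sub_cancel' h.le, hab]
      · refine hshort (a - b) (by omega) (by omega) b ?_
        show (f b).fst = (f (b + (a - b))).fst
        rw [Nat.add_sub_cancel' h.le, hab]
    have hcard : ((Finset.range 7).image f).card = 7 := by
      rw [Finset.card_image_of_injOn hinj, Finset.card_range]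
    rw [← hcard]
    apply Finset.card_le_card
    intro y hy
    obtain ⟨i, _, rfl⟩ := Finset.mem_image.1 hy
    rw [Finset.mem_filter]
    exact ⟨hfS i, Quotient.sound (hfC i).symm⟩
  have hFact : 7 * (S.image (Quotient.mk (cyc φ))).card ≤ S.card := by
    apply Finset.mul_card_image_le_card
    intro q hq
    obtain ⟨x, hx, rfl⟩ := Finset.mem_image.1 hq
    exact hseven x hx
  -- orbits without active darts
  have hFin : nc (cyc φ) ≤ (S.image (Quotient.mk (cyc φ))).card + (Finset.univ \ X).card := by
    have : Fintype (Quotient (cyc φ)) := Fintype.ofFinite _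
    have h1 : nc (cyc φ) = (Finset.univ : Finset (Quotient (cyc φ))).card := by
      rw [Finset.card_univ]; exact Nat.card_eq_fintype_card
    rw [h1]
    have h2 : (Finset.univ : Finset (Quotient (cyc φ))) =
      (S.image (Quotient.mk (cyc φ))) ∪ (Finset.univ \ (S.image (Quotient.mk (cyc φ)))) := by
      simp
    rw [h2]
    refine le_trans (Finset.card_union_le _ _) ?_
    apply Nat.add_le_add_left
    apply Finset.card_le_card_of_injOn (fun q => q.out.fst)
    · intro q hq
      simp only [Finset.coe_sdiff, Finset.coe_univ, Set.mem_sdiff, Set.mem_univ, true_and,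
        SetLike.mem_coe] at hq ⊢
      intro hqX
      obtain ⟨e, heS, he1, -⟩ := hdart _ hqX q.out
      have hsc : σ.SameCycle q.out e := hσ2 _ _ he1.symm
      obtain ⟨n, hn⟩ := hsc.exists_nat_pow_eq
      have hreach : ∀ m : ℕ, φ.SameCycle q.out ((σ ^ m) q.out) ∧ (σ ^ m) q.out ∉ S := by
        intro m
        induction m with
        | zero =>
          refine ⟨Perm.SameCycle.refl _ _, ?_⟩
          intro h
          apply hq
          rw [Finset.mem_image]
          exact ⟨q.out, h, Quotient.out_eq q⟩
        | succ m ih =>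
          have h3 : φ.SameCycle q.out ((σ ^ (m + 1)) q.out) := by
            refine ih.1.trans ⟨1, ?_⟩
            rw [zpow_one, hφin _ ih.2, pow_succ' σ m, Perm.mul_apply]
          refine ⟨h3, ?_⟩
          intro h
          apply hq
          rw [Finset.mem_image]
          refine ⟨_, h, ?_⟩
          exact (Quotient.sound h3.symm).trans (Quotient.out_eq q)
      exact (hreach n).2 (by rw [hn]; exact heS)
    · intro q hq q' hq' hqq
      simp only [Finset.coe_sdiff, Finset.coe_univ, Set.mem_sdiff, Set.mem_univ, true_and,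
        SetLike.mem_coe] at hq hq'
      have hsc : σ.SameCycle q.out q'.out := hσ2 _ _ hqq
      obtain ⟨n, hn⟩ := hsc.exists_nat_pow_eq
      have hreach : ∀ m : ℕ, φ.SameCycle q.out ((σ ^ m) q.out) ∧ (σ ^ m) q.out ∉ S := by
        intro m
        induction m with
        | zero =>
          refine ⟨Perm.SameCycle.refl _ _, ?_⟩
          intro h
          apply hq
          rw [Finset.mem_image]
          exact ⟨q.out, h, Quotient.out_eq q⟩
        | succ m ih =>
          have h3 : φ.SameCycle q.out ((σ ^ (m + 1)) q.out) := by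
            refine ih.1.trans ⟨1, ?_⟩
            rw [zpow_one, hφin _ ih.2, pow_succ' σ m, Perm.mul_apply]
          refine ⟨h3, ?_⟩
          intro h
          apply hq
          rw [Finset.mem_image]
          refine ⟨_, h, ?_⟩
          exact (Quotient.sound h3.symm).trans (Quotient.out_eq q)
      rw [← Quotient.out_eq q, ← Quotient.out_eq q']
      apply Quotient.sound
      have := (hreach n).1
      rw [hn] at this
      exact this
  -- components
  have hC : (Finset.univ \ X).card + 1 ≤ nc (con p τ S) := by
    obtain ⟨x0, hx0⟩ := hX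
    have hrel : ∀ a b, con p τ S a b → a = b ∨ (a ∈ X ∧ b ∈ X) := by
      intro a b hab
      have hab' : Relation.EqvGen (fun u v => ∃ x ∈ S, p x = u ∧ p (τ x) = v) a b := hab
      clear hab
      induction hab' with
      | refl a => exact Or.inl rfl
      | symm a b _ ih =>
        rcases ih with h | h
        · exact Or.inl h.symm
        · exact Or.inr ⟨h.2, h.1⟩
      | trans a b c _ _ ih1 ih2 =>
        rcases ih1 with h | h
        · subst h; exact ih2
        · rcases ih2 with h' | h'
          · subst h'; exact Or.inr h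
          · exact Or.inr ⟨h.1, h'.2⟩
      | rel a b h =>
        obtain ⟨x, hx, rfl, rfl⟩ := h
        have := (hmemS x).1 hx
        exact Or.inr ⟨this.2.1, this.2.2⟩
    let f : Option {v : V // v ∈ (Finset.univ \ X)} → Quotient (con p τ S) := fun o =>
      match o with
      | none => Quotient.mk _ x0
      | some v => Quotient.mk _ v.1
    have hf : Function.Injective f := by
      intro o o' hoo
      match o, o' with
      | none, none => rfl
      | none, some v =>
        have := hrel _ _ (Quotient.exact hoo)
        have hv := v.2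
        rw [Finset.mem_sdiff] at hv
        rcases this with h | h
        · exact absurd (h ▸ hx0) hv.2
        · exact absurd h.2 hv.2
      | some v, none =>
        have := hrel _ _ (Quotient.exact hoo)
        have hv := v.2
        rw [Finset.mem_sdiff] at hv
        rcases this with h | h
        · exact absurd (h ▸ hx0) hv.2
        · exact absurd h.1 hv.2
      | some v, some v' =>
        have := hrel _ _ (Quotient.exact hoo)
        have hv := v.2
        rw [Finset.mem_sdiff] at hv
        rcases this with h | h
        · congr 1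
          exact Subtype.ext h
        · exact absurd h.1 hv.2
    have := Nat.card_le_card_of_injective f hf
    rw [Finite.card_option, Nat.card_eq_fintype_card, Fintype.card_coe] at this
    exact this
  -- number of active darts
  have hScard : S.card = ∑ v ∈ X, dg G X v := by
    have h1 : S.card = ∑ v ∈ X, (S.filter (fun d => d.fst = v)).card := by
      apply Finset.card_eq_sum_card_fiberwise
      intro d hd
      exact ((hmemS d).1 hd).2.1
    rw [h1]
    apply Finset.sum_congr rfl
    intro v hv
    unfold dg
    apply Finset.card_bij (fun (d : H.Dart) _ => d.snd)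
    · intro d hd
      rw [Finset.mem_filter] at hd ⊢
      have h2 := (hmemS d).1 hd.1
      refine ⟨h2.2.2, ?_⟩
      rw [← hd.2]
      exact h2.1
    · intro d hd d' hd' h
      rw [Finset.mem_filter] at hd hd'
      apply SimpleGraph.Dart.ext
      apply Prod.ext
      · show d.fst = d'.fst
        rw [hd.2, hd'.2]
      · exact h
    · intro u hu
      rw [Finset.mem_filter] at hu
      refine ⟨⟨(v, u), hGH hu.2⟩, ?_, rfl⟩
      rw [Finset.mem_filter]
      refine ⟨(hmemS _).2 ⟨hu.2, hv, hu.1⟩, rfl⟩
  have hcompl : (Finset.univ \ X).card + X.card = Nat.card V := by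
    rw [Finset.card_sdiff_of_subset (Finset.subset_univ _), Finset.card_univ, Nat.card_eq_fintype_card]
    have := Finset.card_le_univ X
    omega
  unfold pot at hSpot
  rw [← hScard]
  rw [← hφ] at hSpot
  omega

end

end Pool.Agent.Lib.Helper10.UB
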