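import Pool.Agent.Lib.Helper10.UB.A4

namespace Pool.Agent.Lib.Helper10.UB

section

variable {V : Type*} [Fintype V] [DecidableEq V] (G : SimpleGraph V)

/-- hereditary sparsity -/
def Sparse (X : Finset V) : Prop :=
  ∀ Y ⊆ X, Y.Nonempty → 5 * ∑ v ∈ Y, dg G Y v < 14 * Y.card

open Classical in
lemma dg_eq_sum (X : Finset V) (v : V) : dg G X v = ∑ u ∈ X, if G.Adj v u then 1 else 0 := by
  unfold dg
  rw [Finset.card_filter]

open Classical in
lemma sum_dg_erase {X : Finset V} {v : V} (hv : v ∈ X) :
    ∑ u ∈ X, dg G X u = ∑ u ∈ X.erase v, dg G (X.erase v) u + 2 * dg G X v := by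
  have h1 : ∀ u, dg G X u = dg G (X.erase v) u + (if G.Adj u v then 1 else 0) := by
    intro u
    rw [dg_eq_sum, dg_eq_sum, ← Finset.sum_erase_add _ _ hv]
  have h2 : dg G X v = dg G (X.erase v) v := by
    rw [h1]; simp
  rw [← Finset.sum_erase_add _ _ hv]
  have h3 : ∑ u ∈ X.erase v, dg G X u =
      ∑ u ∈ X.erase v, dg G (X.erase v) u + ∑ u ∈ X.erase v, (if G.Adj u v then 1 else 0) := by
    rw [← Finset.sum_add_distrib]
    exact Finset.sum_congr rfl (fun u _ => h1 u)
  have h4 : ∑ u ∈ X.erase v, (if G.Adj u v then 1 else 0) = dg G (X.erase v) v := by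
    rw [dg_eq_sum]
    apply Finset.sum_congr rfl
    intro u _
    simp [G.adj_comm]
  rw [h3, h4, h2]
  ring

open Classical in
lemma dg_self_singleton (v : V) : dg G {v} v = 0 := by
  unfold dg
  rw [Finset.card_eq_zero, Finset.filter_eq_empty_iff]
  intro x hx
  rw [Finset.mem_singleton] at hx
  subst hx
  exact G.irrefl

lemma sparse_of_planar (hp : IsPlanar G) (hg : 7 ≤ G.egirth) :
    ∀ (n : ℕ) (X : Finset V), X.card = n → X.Nonempty → 5 * ∑ v ∈ X, dg G X v < 14 * X.card := by
  classical
  intro n
  induction n with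
  | zero =>
    intro X hX hne
    exact absurd (Finset.card_pos.2 hne) (by omega)
  | succ n ih =>
    intro X hX hne
    by_cases h1 : ∃ v ∈ X, dg G X v ≤ 1
    · obtain ⟨v, hv, hd⟩ := h1
      rw [sum_dg_erase G hv]
      by_cases h2 : (X.erase v).Nonempty
      · have h3 := ih (X.erase v) (by rw [Finset.card_erase_of_mem hv, hX]; rfl) h2
        have h4 : (X.erase v).card + 1 = X.card := Finset.card_erase_add_one hv
        omega
      · rw [Finset.not_nonempty_iff_eq_empty] at h2
        have hXv : X = {v} := by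
          rw [← Finset.insert_erase hv, h2]
          rfl
        rw [h2, hXv, dg_self_singleton]
        simp
    · push Not at h1
      rcases hp with hp | ⟨H, hGH, hconn, σ, hσ1, hσ2, heul⟩
      · obtain ⟨v, hv⟩ := hne
        have h2 := h1 v hv
        exfalso
        unfold dg at h2
        have h3 := Finset.card_le_univ (X.filter (G.Adj v))
        rw [Nat.card_eq_fintype_card] at hp
        omega
      · have := planar_core G H hGH hconn σ hσ1 hσ2 heul hg X hne (fun v hv => h1 v hv)
        omega

end

end Pool.Agent.Lib.Helper10.UB
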