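import Pool.Agent.Lib.Helper10.UB.A5

namespace Pool.Agent.Lib.Helper10.UB

section

variable {V : Type*} [Fintype V] [DecidableEq V] (G : SimpleGraph V)

/-- decomposition of the graph induced on `X` into a linear forest `nxt` and a partial
orientation `par` with out-degree at most one. -/
structure Dec (X : Finset V) (par nxt : V → Option V) (ρ : V → ℤ) : Prop where
  par_mem : ∀ v u, par v = some u → v ∈ X ∧ u ∈ X ∧ G.Adj v u
  nxt_mem : ∀ v u, nxt v = some u → v ∈ X ∧ u ∈ X ∧ G.Adj v u ∧ ρ v < ρ u
  nxt_inj : ∀ v v' u, nxt v = some u → nxt v' = some u → v = v'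
  cover : ∀ u v, u ∈ X → v ∈ X → G.Adj u v →
    nxt u = some v ∨ nxt v = some u ∨ par u = some v ∨ par v = some u
  excl1 : ∀ u v, nxt u = some v → par u ≠ some v ∧ par v ≠ some u
  excl2 : ∀ u v, par u = some v → par v ≠ some u

variable {G}

/-- generic extension lemma -/
lemma Dec.extend {X' : Finset V} {par nxt : V → Option V} {ρ : V → ℤ}
    (h : Dec G X' par nxt ρ) (Z : Finset V) (hZ : Disjoint X' Z) (pn nn : V → Option V) (rn : V → ℤ)
    (h1 : ∀ a ∈ Z, ∀ b, pn a = some b → b ∈ X' ∪ Z ∧ G.Adj a b)
    (h2 : ∀ a ∈ Z, ∀ b, nn a = some b → b ∈ Z ∧ G.Adj a b ∧ rn a < rn b)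
    (h3 : ∀ a ∈ Z, ∀ a' ∈ Z, ∀ b, nn a = some b → nn a' = some b → a = a')
    (h4 : ∀ a ∈ Z, ∀ b ∈ Z, G.Adj a b →
      nn a = some b ∨ nn b = some a ∨ pn a = some b ∨ pn b = some a)
    (h4' : ∀ a ∈ Z, ∀ b ∈ X', G.Adj a b → pn a = some b)
    (h5 : ∀ a ∈ Z, ∀ b, nn a = some b → pn a ≠ some b ∧ pn b ≠ some a)
    (h6 : ∀ a ∈ Z, ∀ b ∈ Z, pn a = some b → pn b ≠ some a) :
    Dec G (X' ∪ Z) (fun a => if a ∈ Z then pn a else par a) (fun a => if a ∈ Z then nn a else nxt a)
      (fun a => if a ∈ Z then rn a else ρ a) := by
  have hnot : ∀ a ∈ X', a ∉ Z := fun a ha haZ => Finset.disjoint_left.1 hZ ha haZ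
  refine ⟨?_, ?_, ?_, ?_, ?_, ?_⟩
  · intro v u hvu
    by_cases hv : v ∈ Z
    · simp only [hv, if_true] at hvu
      have := h1 v hv u hvu
      exact ⟨Finset.mem_union_right _ hv, this.1, this.2⟩
    · simp only [hv, if_false] at hvu
      have := h.par_mem v u hvu
      exact ⟨Finset.mem_union_left _ this.1, Finset.mem_union_left _ this.2.1, this.2.2⟩
  · intro v u hvu
    by_cases hv : v ∈ Z
    · simp only [hv, if_true] at hvu
      have := h2 v hv u hvu
      refine ⟨Finset.mem_union_right _ hv, Finset.mem_union_right _ this.1, this.2.1, ?_⟩
      simp only [hv, this.1, if_true]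
      exact this.2.2
    · simp only [hv, if_false] at hvu
      have := h.nxt_mem v u hvu
      refine ⟨Finset.mem_union_left _ this.1, Finset.mem_union_left _ this.2.1, this.2.2.1, ?_⟩
      simp only [hv, hnot u this.2.1, if_false]
      exact this.2.2.2
  · intro v v' u hvu hvu'
    by_cases hv : v ∈ Z <;> by_cases hv' : v' ∈ Z
    · simp only [hv, hv', if_true] at hvu hvu'
      exact h3 v hv v' hv' u hvu hvu'
    · simp only [hv, hv', if_true, if_false] at hvu hvu'
      have e1 := h2 v hv u hvu
      have e2 := h.nxt_mem v' u hvu'
      exact absurd e1.1 (hnot u e2.2.1)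
    · simp only [hv, hv', if_true, if_false] at hvu hvu'
      have e1 := h2 v' hv' u hvu'
      have e2 := h.nxt_mem v u hvu
      exact absurd e1.1 (hnot u e2.2.1)
    · simp only [hv, hv', if_false] at hvu hvu'
      exact h.nxt_inj v v' u hvu hvu'
  · intro u v hu hv huv
    rw [Finset.mem_union] at hu hv
    by_cases huZ : u ∈ Z <;> by_cases hvZ : v ∈ Z
    · simp only [huZ, hvZ, if_true]
      exact h4 u huZ v hvZ huv
    · have hvX : v ∈ X' := hv.resolve_right hvZ
      simp only [huZ, hvZ, if_true, if_false]
      exact Or.inr (Or.inr (Or.inl (h4' u huZ v hvX huv)))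
    · have huX : u ∈ X' := hu.resolve_right huZ
      simp only [huZ, hvZ, if_true, if_false]
      exact Or.inr (Or.inr (Or.inr (h4' v hvZ u huX huv.symm)))
    · simp only [huZ, hvZ, if_false]
      exact h.cover u v (hu.resolve_right huZ) (hv.resolve_right hvZ) huv
  · intro u v huv
    by_cases huZ : u ∈ Z
    · simp only [huZ, if_true] at huv ⊢
      have e1 := h2 u huZ v huv
      simp only [e1.1, if_true]
      exact h5 u huZ v huv
    · simp only [huZ, if_false] at huv ⊢
      have e1 := h.nxt_mem u v huv
      simp only [hnot v e1.2.1, if_false]
      exact h.excl1 u v huv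
  · intro u v huv
    by_cases huZ : u ∈ Z <;> by_cases hvZ : v ∈ Z
    · simp only [huZ, hvZ, if_true] at huv ⊢
      exact h6 u huZ v hvZ huv
    · simp only [huZ, hvZ, if_true, if_false] at huv ⊢
      intro hcon
      have := h.par_mem v u hcon
      exact hnot u this.2.1 huZ
    · simp only [huZ, hvZ, if_true, if_false] at huv ⊢
      have := h.par_mem u v huv
      exact absurd hvZ (hnot v this.2.1)
    · simp only [huZ, hvZ, if_false] at huv ⊢
      exact h.excl2 u v huv

/-- add a vertex with at most one neighbour -/
lemma Dec.add_leaf {X' : Finset V} {par nxt : V → Option V} {ρ : V → ℤ}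
    (h : Dec G X' par nxt ρ) (v : V) (hv : v ∉ X')
    (hd : ∀ a ∈ X', ∀ b ∈ X', G.Adj v a → G.Adj v b → a = b) :
    ∃ par' nxt' ρ', Dec G (X' ∪ {v}) par' nxt' ρ' := by
  classical
  by_cases hex : ∃ u ∈ X', G.Adj v u
  · obtain ⟨u, hu, huv⟩ := hex
    refine ⟨_, _, _, h.extend {v} (by simpa using hv) (fun _ => some u) (fun _ => none) (fun _ => 0)
      ?_ ?_ ?_ ?_ ?_ ?_ ?_⟩
    · intro a ha b hb
      rw [Finset.mem_singleton] at ha
      subst ha
      rw [Option.some.injEq] at hb
      subst hb
      exact ⟨Finset.mem_union_left _ hu, huv⟩
    · intro a _ b hb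
      simp at hb
    · intro a _ a' _ b hb
      simp at hb
    · intro a ha b hb hab
      rw [Finset.mem_singleton] at ha hb
      subst ha; subst hb
      exact absurd hab G.irrefl
    · intro a ha b hb hab
      rw [Finset.mem_singleton] at ha
      subst ha
      rw [hd u hu b hb huv hab]
    · intro a _ b hb
      simp at hb
    · intro a ha b hb hab
      rw [Finset.mem_singleton] at ha hb
      subst ha; subst hb
      rw [Option.some.injEq] at hab
      subst hab
      exact absurd hu hv
  · push Not at hex
    refine ⟨_, _, _, h.extend {v} (by simpa using hv) (fun _ => none) (fun _ => none) (fun _ => 0)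
      ?_ ?_ ?_ ?_ ?_ ?_ ?_⟩
    · intro a _ b hb
      simp at hb
    · intro a _ b hb
      simp at hb
    · intro a _ a' _ b hb
      simp at hb
    · intro a ha b hb hab
      rw [Finset.mem_singleton] at ha hb
      subst ha; subst hb
      exact absurd hab G.irrefl
    · intro a ha b hb hab
      rw [Finset.mem_singleton] at ha
      subst ha
      exact absurd hab (hex b hb)
    · intro a _ b hb
      simp at hb
    · intro a _ b _ hab
      simp at hab

/-- turn a path edge into a parent edge -/
lemma Dec.cut {X : Finset V} {par nxt : V → Option V} {ρ : V → ℤ}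
    (h : Dec G X par nxt ρ) {u y : V} (hn : nxt u = some y) (hp : par u = none) :
    Dec G X (fun a => if a = u then some y else par a) (fun a => if a = u then none else nxt a) ρ := by
  have huy := h.nxt_mem u y hn
  have hne : y ≠ u := fun he => by
    subst he
    exact G.irrefl huy.2.2.1
  have hex := h.excl1 u y hn
  refine ⟨?_, ?_, ?_, ?_, ?_, ?_⟩
  · intro a b hab
    by_cases ha : a = u
    · subst ha
      simp only [if_true, Option.some.injEq] at hab
      subst hab
      exact ⟨huy.1, huy.2.1, huy.2.2.1⟩
    · simp only [ha, if_false] at hab
      exact h.par_mem a b hab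
  · intro a b hab
    by_cases ha : a = u
    · simp [ha] at hab
    · simp only [ha, if_false] at hab
      exact h.nxt_mem a b hab
  · intro a a' b hab hab'
    by_cases ha : a = u
    · simp [ha] at hab
    · by_cases ha' : a' = u
      · simp [ha'] at hab'
      · simp only [ha, ha', if_false] at hab hab'
        exact h.nxt_inj a a' b hab hab'
  · intro a b ha hb hab
    have hc := h.cover a b ha hb hab
    by_cases h1 : a = u
    · subst h1
      have h2 : b ≠ a := fun he => by subst he; exact G.irrefl hab
      simp only [if_true, h2, if_false]
      rcases hc with hc | hc | hc | hc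
      · rw [hn] at hc
        right; right; left; exact hc
      · right; left; exact hc
      · rw [hp] at hc; simp at hc
      · right; right; right; exact hc
    · by_cases h2 : b = u
      · subst h2
        simp only [h1, if_false, if_true]
        rcases hc with hc | hc | hc | hc
        · left; exact hc
        · rw [hn] at hc
          right; right; right; exact hc
        · right; right; left; exact hc
        · rw [hp] at hc; simp at hc
      · simp only [h1, h2, if_false]
        exact hc
  · intro a b hab
    by_cases h1 : a = u
    · simp [h1] at hab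
    · simp only [h1, if_false] at hab ⊢
      refine ⟨(h.excl1 a b hab).1, ?_⟩
      by_cases h2 : b = u
      · subst h2
        simp only [if_true]
        intro hcon
        rw [Option.some.injEq] at hcon
        subst hcon
        -- nxt y = u and nxt u = y
        have e1 := (h.nxt_mem _ _ hab).2.2.2
        have e2 := huy.2.2.2
        omega
      · simp only [h2, if_false]
        exact (h.excl1 a b hab).2
  · intro a b hab
    by_cases h1 : a = u
    · subst h1
      simp only [if_true, Option.some.injEq] at hab
      subst hab
      simp only [hne, if_false]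
      exact hex.2
    · simp only [h1, if_false] at hab
      by_cases h2 : b = u
      · subst h2
        simp only [if_true]
        intro hcon
        rw [Option.some.injEq] at hcon
        subst hcon
        exact hex.2 hab
      · simp only [h2, if_false]
        exact h.excl2 a b hab

/-- attach a vertex of degree two, forward version -/
lemma Dec.add_two {X' : Finset V} {par nxt : V → Option V} {ρ : V → ℤ}
    (h : Dec G X' par nxt ρ) {v u w : V} (hv : v ∉ X') (hu : u ∈ X') (hw : w ∈ X') (huw : u ≠ w)
    (hvu : G.Adj v u) (hvw : G.Adj v w) (hd : ∀ a ∈ X', G.Adj v a → a = u ∨ a = w)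
    (hn : nxt u = none ∨ ∀ z, nxt z ≠ some u) :
    ∃ par' nxt' ρ', Dec G (X' ∪ {v}) par' nxt' ρ' := by
  classical
  have hvu' : v ≠ u := hvu.ne
  have hvw' : v ≠ w := hvw.ne
  have hpv : ∀ a, par a ≠ some v := fun a ha => hv (h.par_mem a v ha).2.1
  have hnv : ∀ a, nxt a ≠ some v := fun a ha => hv (h.nxt_mem a v ha).2.1
  have hpv0 : ∀ a, par v ≠ some a := fun a ha => hv (h.par_mem v a ha).1
  have hnv0 : ∀ a, nxt v ≠ some a := fun a ha => hv (h.nxt_mem v a ha).1
  rcases hn with hn | hn
  · refine ⟨fun a => if a = v then some w else par a, fun a => if a = u then some v else nxt a,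
      fun a => if a = v then ρ u + 1 else ρ a, ?_, ?_, ?_, ?_, ?_, ?_⟩
    · intro a b hab
      by_cases ha : a = v
      · subst ha
        simp only [if_true, Option.some.injEq] at hab
        subst hab
        exact ⟨Finset.mem_union_right _ (Finset.mem_singleton_self _), Finset.mem_union_left _ hw, hvw⟩
      · simp only [ha, if_false] at hab
        have := h.par_mem a b hab
        exact ⟨Finset.mem_union_left _ this.1, Finset.mem_union_left _ this.2.1, this.2.2⟩
    · intro a b hab
      by_cases ha : a = u
      · subst ha
        simp only [if_true, Option.some.injEq] at hab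
        subst hab
        refine ⟨Finset.mem_union_left _ hu, Finset.mem_union_right _ (Finset.mem_singleton_self _),
          hvu.symm, ?_⟩
        simp [hvu'.symm]
      · simp only [ha, if_false] at hab
        have := h.nxt_mem a b hab
        refine ⟨Finset.mem_union_left _ this.1, Finset.mem_union_left _ this.2.1, this.2.2.1, ?_⟩
        have e1 : a ≠ v := fun he => hv (he ▸ this.1)
        have e2 : b ≠ v := fun he => hv (he ▸ this.2.1)
        simp only [e1, e2, if_false]
        exact this.2.2.2
    · intro a a' b hab hab'
      by_cases ha : a = u <;> by_cases ha' : a' = u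
      · rw [ha, ha']
      · simp only [ha, ha', if_true, if_false, Option.some.injEq] at hab hab'
        subst hab
        exact absurd hab' (hnv _)
      · simp only [ha, ha', if_true, if_false, Option.some.injEq] at hab hab'
        subst hab'
        exact absurd hab (hnv _)
      · simp only [ha, ha', if_false] at hab hab'
        exact h.nxt_inj a a' b hab hab'
    · intro a b ha hb hab
      rw [Finset.mem_union, Finset.mem_singleton] at ha hb
      rcases ha with ha | ha <;> rcases hb with hb | hb
      · have e1 : a ≠ v := fun he => hv (he ▸ ha)
        have e2 : b ≠ v := fun he => hv (he ▸ hb)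
        have hc := h.cover a b ha hb hab
        by_cases h1 : a = u
        · subst h1
          have h2 : b ≠ a := fun he => by subst he; exact G.irrefl hab
          simp only [if_true, h2, if_false, e1, e2]
          rcases hc with hc | hc | hc | hc
          · rw [hn] at hc; simp at hc
          · right; left; exact hc
          · right; right; left; exact hc
          · right; right; right; exact hc
        · by_cases h2 : b = u
          · subst h2
            simp only [if_true, h1, if_false, e1, e2]
            rcases hc with hc | hc | hc | hc
            · left; exact hc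
            · rw [hn] at hc; simp at hc
            · right; right; left; exact hc
            · right; right; right; exact hc
          · simp only [h1, h2, e1, e2, if_false]
            exact hc
      · subst hb
        rcases hd a ha hab.symm with rfl | rfl
        · left; simp
        · right; right; right; simp
      · subst ha
        rcases hd b hb hab with rfl | rfl
        · right; left; simp
        · right; right; left; simp
      · subst ha; subst hb
        exact absurd hab G.irrefl
    · intro a b hab
      by_cases ha : a = u
      · subst ha
        simp only [if_true, Option.some.injEq] at hab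
        subst hab
        simp only [hvu'.symm, if_false, if_true]
        refine ⟨hpv _, ?_⟩
        rw [ne_eq, Option.some.injEq]
        exact fun he => huw he.symm
      · simp only [ha, if_false] at hab
        have := h.nxt_mem a b hab
        have e1 : a ≠ v := fun he => hv (he ▸ this.1)
        have e2 : b ≠ v := fun he => hv (he ▸ this.2.1)
        simp only [e1, e2, if_false]
        exact h.excl1 a b hab
    · intro a b hab
      by_cases ha : a = v
      · subst ha
        simp only [if_true, Option.some.injEq] at hab
        subst hab
        simp only [hvw'.symm, if_false]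
        exact hpv _
      · simp only [ha, if_false] at hab
        have := h.par_mem a b hab
        have e2 : b ≠ v := fun he => hv (he ▸ this.2.1)
        simp only [e2, if_false]
        exact h.excl2 a b hab
  · refine ⟨fun a => if a = v then some w else par a, fun a => if a = v then some u else nxt a,
      fun a => if a = v then ρ u - 1 else ρ a, ?_, ?_, ?_, ?_, ?_, ?_⟩
    · intro a b hab
      by_cases ha : a = v
      · subst ha
        simp only [if_true, Option.some.injEq] at hab
        subst hab
        exact ⟨Finset.mem_union_right _ (Finset.mem_singleton_self _), Finset.mem_union_left _ hw, hvw⟩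
      · simp only [ha, if_false] at hab
        have := h.par_mem a b hab
        exact ⟨Finset.mem_union_left _ this.1, Finset.mem_union_left _ this.2.1, this.2.2⟩
    · intro a b hab
      by_cases ha : a = v
      · subst ha
        simp only [if_true, Option.some.injEq] at hab
        subst hab
        refine ⟨Finset.mem_union_right _ (Finset.mem_singleton_self _), Finset.mem_union_left _ hu,
          hvu, ?_⟩
        simp [hvu'.symm]
      · simp only [ha, if_false] at hab
        have := h.nxt_mem a b hab
        refine ⟨Finset.mem_union_left _ this.1, Finset.mem_union_left _ this.2.1, this.2.2.1, ?_⟩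
        have e2 : b ≠ v := fun he => hv (he ▸ this.2.1)
        simp only [ha, e2, if_false]
        exact this.2.2.2
    · intro a a' b hab hab'
      by_cases ha : a = v <;> by_cases ha' : a' = v
      · rw [ha, ha']
      · simp only [ha, ha', if_true, if_false, Option.some.injEq] at hab hab'
        subst hab
        exact absurd hab' (hn _)
      · simp only [ha, ha', if_true, if_false, Option.some.injEq] at hab hab'
        subst hab'
        exact absurd hab (hn _)
      · simp only [ha, ha', if_false] at hab hab'
        exact h.nxt_inj a a' b hab hab'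
    · intro a b ha hb hab
      rw [Finset.mem_union, Finset.mem_singleton] at ha hb
      rcases ha with ha | ha <;> rcases hb with hb | hb
      · have e1 : a ≠ v := fun he => hv (he ▸ ha)
        have e2 : b ≠ v := fun he => hv (he ▸ hb)
        have hc := h.cover a b ha hb hab
        simp only [e1, e2, if_false]
        exact hc
      · subst hb
        rcases hd a ha hab.symm with rfl | rfl
        · right; left; simp
        · right; right; right; simp
      · subst ha
        rcases hd b hb hab with rfl | rfl
        · left; simp
        · right; right; left; simp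
      · subst ha; subst hb
        exact absurd hab G.irrefl
    · intro a b hab
      by_cases ha : a = v
      · subst ha
        simp only [if_true, Option.some.injEq] at hab
        subst hab
        simp only [hvu'.symm, if_false, if_true]
        refine ⟨?_, hpv _⟩
        rw [ne_eq, Option.some.injEq]
        exact fun he => huw he.symm
      · simp only [ha, if_false] at hab
        have := h.nxt_mem a b hab
        have e2 : b ≠ v := fun he => hv (he ▸ this.2.1)
        simp only [ha, e2, if_false]
        exact h.excl1 a b hab
    · intro a b hab
      by_cases ha : a = v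
      · subst ha
        simp only [if_true, Option.some.injEq] at hab
        subst hab
        simp only [hvw'.symm, if_false]
        exact hpv _
      · simp only [ha, if_false] at hab
        have := h.par_mem a b hab
        have e2 : b ≠ v := fun he => hv (he ▸ this.2.1)
        simp only [e2, if_false]
        exact h.excl2 a b hab

open Classical in
/-- attach a vertex of degree two next to a vertex of degree at most two -/
lemma Dec.add_two' {X' : Finset V} {par nxt : V → Option V} {ρ : V → ℤ}
    (h : Dec G X' par nxt ρ) {v u w : V} (hv : v ∉ X') (hu : u ∈ X') (hw : w ∈ X') (huw : u ≠ w)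
    (hvu : G.Adj v u) (hvw : G.Adj v w) (hd : ∀ a ∈ X', G.Adj v a → a = u ∨ a = w)
    (hdu : (X'.filter (G.Adj u)).card ≤ 2) :
    ∃ par' nxt' ρ', Dec G (X' ∪ {v}) par' nxt' ρ' := by
  by_cases h1 : nxt u = none
  · exact h.add_two hv hu hw huw hvu hvw hd (Or.inl h1)
  by_cases h2 : ∀ z, nxt z ≠ some u
  · exact h.add_two hv hu hw huw hvu hvw hd (Or.inr h2)
  push Not at h2
  obtain ⟨z, hz⟩ := h2
  obtain ⟨y, hy⟩ := Option.ne_none_iff_exists'.1 h1
  have hzu := h.nxt_mem z u hz
  have huy := h.nxt_mem u y hy
  have hyz : y ≠ z := by
    rintro rfl
    have := hzu.2.2.2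
    have := huy.2.2.2
    omega
  have hp : par u = none := by
    by_contra hne
    obtain ⟨c, hc⟩ := Option.ne_none_iff_exists'.1 hne
    have huc := h.par_mem u c hc
    have hcy : c ≠ y := fun he => (h.excl1 u y hy).1 (he ▸ hc)
    have hcz : c ≠ z := fun he => (h.excl1 z u hz).2 (he ▸ hc)
    have hsub : ({c, y, z} : Finset V) ⊆ X'.filter (G.Adj u) := by
      intro a ha
      simp only [Finset.mem_insert, Finset.mem_singleton] at ha
      rw [Finset.mem_filter]
      rcases ha with rfl | rfl | rfl
      · exact ⟨huc.2.1, huc.2.2⟩
      · exact ⟨huy.2.1, huy.2.2.1⟩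
      · exact ⟨hzu.1, hzu.2.2.1.symm⟩
    have := Finset.card_le_card hsub
    rw [Finset.card_eq_three.2 ⟨c, y, z, hcy, hcz, hyz, rfl⟩] at this
    omega
  exact (h.cut hy hp).add_two hv hu hw huw hvu hvw hd (Or.inl (by simp))

end

end Pool.Agent.Lib.Helper10.UB
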