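import Pool.Agent.Lib.Helper10.UB.B1

namespace Pool.Agent.Lib.Helper10.UB

section

variable {V : Type*} [DecidableEq V]

lemma choice_two (R : Finset V) (hR : R.card ≤ 2) : ∃ lo ro : Option V,
    (∀ b, lo = some b → b ∈ R) ∧ (∀ b, ro = some b → b ∈ R) ∧
    (∀ b ∈ R, lo = some b ∨ ro = some b) ∧ (∀ b, lo = some b → ro ≠ some b) := by
  rcases Nat.lt_or_ge R.card 1 with h | h
  · have : R = ∅ := Finset.card_eq_zero.1 (by omega)
    subst this
    exact ⟨none, none, by simp, by simp, by simp, by simp⟩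
  rcases Nat.lt_or_ge R.card 2 with h' | h'
  · obtain ⟨a, rfl⟩ := Finset.card_eq_one.1 (show R.card = 1 by omega)
    refine ⟨some a, none, ?_, by simp, ?_, by simp⟩
    · intro b hb; rw [Option.some.injEq] at hb; simp [hb]
    · intro b hb; rw [Finset.mem_singleton] at hb; simp [hb]
  · obtain ⟨a, c, hac, rfl⟩ := Finset.card_eq_two.1 (show R.card = 2 by omega)
    refine ⟨some a, some c, ?_, ?_, ?_, ?_⟩
    · intro b hb; rw [Option.some.injEq] at hb; simp [hb]
    · intro b hb; rw [Option.some.injEq] at hb; simp [hb]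
    · intro b hb
      rw [Finset.mem_insert, Finset.mem_singleton] at hb
      rcases hb with rfl | rfl
      · left; rfl
      · right; rfl
    · intro b hb
      rw [Option.some.injEq] at hb
      subst hb
      rw [ne_eq, Option.some.injEq]
      exact fun h => hac h.symm

lemma local_choice (R Q : Finset V) (hd : Disjoint R Q) (bl : V → Prop) (hQ : Q.card ≤ 1)
    (hRQ : R.card + Q.card ≤ 3) : ∃ po lo ro : Option V,
    (∀ b, po = some b → (b ∈ Q ∧ ¬ bl b) ∨ b ∈ R) ∧ (∀ b ∈ Q, ¬ bl b → po = some b) ∧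
    (∀ b, lo = some b → b ∈ R) ∧ (∀ b, ro = some b → b ∈ R) ∧
    (∀ b ∈ R, po = some b ∨ lo = some b ∨ ro = some b) ∧ (∀ b, lo = some b → ro ≠ some b) ∧
    (∀ b, po = some b → lo ≠ some b ∧ ro ≠ some b) := by
  classical
  rcases Nat.lt_or_ge Q.card 1 with h | h
  · have hQ0 : Q = ∅ := Finset.card_eq_zero.1 (by omega)
    subst hQ0
    rcases Nat.lt_or_ge R.card 3 with h' | h'
    · obtain ⟨lo, ro, e1, e2, e3, e4⟩ := choice_two R (by omega)
      refine ⟨none, lo, ro, by simp, by simp, e1, e2, ?_, e4, by simp⟩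
      intro b hb
      right; exact e3 b hb
    · obtain ⟨r, hr⟩ := Finset.card_pos.1 (show 0 < R.card by omega)
      obtain ⟨lo, ro, e1, e2, e3, e4⟩ := choice_two (R.erase r)
        (by rw [Finset.card_erase_of_mem hr]; simp at hRQ; omega)
      refine ⟨some r, lo, ro, ?_, by simp, ?_, ?_, ?_, e4, ?_⟩
      · intro b hb
        rw [Option.some.injEq] at hb
        subst hb
        right; exact hr
      · intro b hb
        exact Finset.mem_of_mem_erase (e1 b hb)
      · intro b hb
        exact Finset.mem_of_mem_erase (e2 b hb)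
      · intro b hb
        by_cases hbr : b = r
        · left; rw [hbr]
        · right; exact e3 b (Finset.mem_erase.2 ⟨hbr, hb⟩)
      · intro b hb
        rw [Option.some.injEq] at hb
        subst hb
        refine ⟨fun h1 => ?_, fun h1 => ?_⟩
        · have := e1 _ h1
          simp at this
        · have := e2 _ h1
          simp at this
  · obtain ⟨z, rfl⟩ := Finset.card_eq_one.1 (show Q.card = 1 by omega)
    rw [Finset.card_singleton] at hRQ
    have hzR : z ∉ R := fun hz => Finset.disjoint_left.1 hd hz (Finset.mem_singleton_self z)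
    obtain ⟨lo, ro, e1, e2, e3, e4⟩ := choice_two R (by omega)
    by_cases hbl : bl z
    · refine ⟨none, lo, ro, by simp, ?_, e1, e2, ?_, e4, by simp⟩
      · intro b hb hnb
        rw [Finset.mem_singleton] at hb
        subst hb
        exact absurd hbl hnb
      · intro b hb
        right; exact e3 b hb
    · refine ⟨some z, lo, ro, ?_, ?_, e1, e2, ?_, e4, ?_⟩
      · intro b hb
        rw [Option.some.injEq] at hb
        subst hb
        left; exact ⟨Finset.mem_singleton_self _, hbl⟩
      · intro b hb _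
        rw [Finset.mem_singleton] at hb
        rw [hb]
      · intro b hb
        right; exact e3 b hb
      · intro b hb
        rw [Option.some.injEq] at hb
        subst hb
        exact ⟨fun h1 => hzR (e1 _ h1), fun h1 => hzR (e2 _ h1)⟩

end

section

variable {V : Type*} [Fintype V] [DecidableEq V] (G : SimpleGraph V)

open Classical in
lemma double_count (A B : Finset V) :
    ∑ w ∈ A, (B.filter (G.Adj w)).card = ∑ x ∈ B, (A.filter (G.Adj x)).card := by
  have h1 : ∀ w, (B.filter (G.Adj w)).card = ∑ x ∈ B, if G.Adj w x then 1 else 0 := by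
    intro w; rw [Finset.card_filter]
  have h2 : ∀ x, (A.filter (G.Adj x)).card = ∑ w ∈ A, if G.Adj w x then 1 else 0 := by
    intro x
    rw [Finset.card_filter]
    apply Finset.sum_congr rfl
    intro w _
    simp [G.adj_comm]
  simp only [h1, h2]
  rw [Finset.sum_comm]

/-- two-vertices -/
noncomputable def TT (X : Finset V) : Finset V := X.filter (fun v => dg G X v = 2)

open Classical in
/-- number of two-neighbours -/
noncomputable def aa (X : Finset V) (w : V) : ℕ := ((TT G X).filter (G.Adj w)).card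

/-- heavy light vertices -/
noncomputable def WW (X : Finset V) : Finset V :=
  X.filter (fun w => 4 ≤ dg G X w ∧ 5 * dg G X w < 14 + 3 * aa G X w)

open Classical in
/-- internal two-vertices -/
noncomputable def II (X Y : Finset V) : Finset V :=
  (TT G X).filter (fun x => (Y.filter (G.Adj x)).card = 2)

lemma mem_TT {X : Finset V} {x : V} : x ∈ TT G X ↔ x ∈ X ∧ dg G X x = 2 := by
  unfold TT; rw [Finset.mem_filter]

lemma mem_WW {X : Finset V} {x : V} :
    x ∈ WW G X ↔ x ∈ X ∧ 4 ≤ dg G X x ∧ 5 * dg G X x < 14 + 3 * aa G X x := by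
  unfold WW; rw [Finset.mem_filter]

open Classical in
lemma mem_II {X Y : Finset V} {x : V} :
    x ∈ II G X Y ↔ (x ∈ X ∧ dg G X x = 2) ∧ (Y.filter (G.Adj x)).card = 2 := by
  unfold II; rw [Finset.mem_filter, mem_TT]

lemma aa_le (X : Finset V) (w : V) : aa G X w ≤ dg G X w := by
  classical
  unfold aa dg
  apply Finset.card_le_card
  intro x hx
  rw [Finset.mem_filter, mem_TT] at hx
  rw [Finset.mem_filter]
  exact ⟨hx.1.1, hx.2⟩

open Classical in
lemma charge {X : Finset V} (hs : 5 * ∑ v ∈ X, dg G X v < 14 * X.card)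
    (h2 : ∀ v ∈ X, 2 ≤ dg G X v)
    (h4 : ∀ v ∈ X, dg G X v = 2 → ∀ u ∈ X, G.Adj v u → 4 ≤ dg G X u) :
    ∑ w ∈ WW G X, ((dg G X w : ℤ) - 3) < (II G X (WW G X)).card := by
  have hWX : WW G X ⊆ X := Finset.filter_subset _ _
  -- first sum
  have e1 : ∑ v ∈ X, (5 * (dg G X v : ℤ) - 14) < 0 := by
    rw [Finset.sum_sub_distrib, Finset.sum_const, nsmul_eq_mul, ← Finset.mul_sum]
    have : (5 : ℤ) * ∑ v ∈ X, (dg G X v : ℤ) < 14 * X.card := by exact_mod_cast hs
    linarith
  -- pointwise lower bound
  have e2 : ∀ v ∈ X, (if v ∈ TT G X then (-4 : ℤ) else 0) +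
      (if v ∈ WW G X then 5 * (dg G X v : ℤ) - 14 - 3 * aa G X v else 0) +
      (if 4 ≤ dg G X v then 3 * (aa G X v : ℤ) else 0) ≤ 5 * (dg G X v : ℤ) - 14 := by
    intro v hv
    have hv2 := h2 v hv
    by_cases hT : v ∈ TT G X
    · have hd := ((mem_TT G).1 hT).2
      have hW : v ∉ WW G X := fun h => by
        have := ((mem_WW G).1 h).2.1
        omega
      have h44 : ¬ 4 ≤ dg G X v := by omega
      simp only [hT, hW, h44, if_true, if_false, hd]
      norm_num
    · have hd : dg G X v ≠ 2 := fun h => hT ((mem_TT G).2 ⟨hv, h⟩)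
      by_cases h44 : 4 ≤ dg G X v
      · by_cases hW : v ∈ WW G X
        · simp only [hT, hW, h44, if_true, if_false]
          linarith
        · simp only [hT, hW, h44, if_true, if_false]
          have : ¬ (5 * dg G X v < 14 + 3 * aa G X v) := fun h => hW ((mem_WW G).2 ⟨hv, h44, h⟩)
          push_cast
          omega
      · have hW : v ∉ WW G X := fun h => h44 ((mem_WW G).1 h).2.1
        simp only [hT, hW, h44, if_false]
        omega
  have e3 := lt_of_le_of_lt (Finset.sum_le_sum e2) e1
  rw [Finset.sum_add_distrib, Finset.sum_add_distrib] at e3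
  have e4 : ∑ v ∈ X, (if v ∈ TT G X then (-4 : ℤ) else 0) = -4 * (TT G X).card := by
    rw [← Finset.sum_filter, Finset.sum_const]
    have : X.filter (fun v => v ∈ TT G X) = TT G X := by
      ext v; rw [Finset.mem_filter, mem_TT]; tauto
    rw [this, nsmul_eq_mul]
    ring
  have e5 : ∑ v ∈ X, (if v ∈ WW G X then 5 * (dg G X v : ℤ) - 14 - 3 * aa G X v else 0) =
      ∑ v ∈ WW G X, (5 * (dg G X v : ℤ) - 14 - 3 * aa G X v) := by
    rw [← Finset.sum_filter]
    apply Finset.sum_congr _ (fun _ _ => rfl)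
    ext v; rw [Finset.mem_filter, mem_WW]; tauto
  have e6 : ∑ v ∈ X, (if 4 ≤ dg G X v then 3 * (aa G X v : ℤ) else 0) = 6 * (TT G X).card := by
    rw [← Finset.sum_filter, ← Finset.mul_sum]
    have := double_count G (X.filter (fun v => 4 ≤ dg G X v)) (TT G X)
    have h7 : ∀ x ∈ TT G X, ((X.filter (fun v => 4 ≤ dg G X v)).filter (G.Adj x)).card = 2 := by
      intro x hx
      have hx' := (mem_TT G).1 hx
      have : (X.filter (fun v => 4 ≤ dg G X v)).filter (G.Adj x) = X.filter (G.Adj x) := by
        ext u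
        simp only [Finset.mem_filter]
        constructor
        · rintro ⟨⟨a, b⟩, c⟩; exact ⟨a, c⟩
        · rintro ⟨a, c⟩; exact ⟨⟨a, h4 x hx'.1 hx'.2 u a c⟩, c⟩
      rw [this]
      exact hx'.2
    rw [Finset.sum_congr rfl h7, Finset.sum_const, smul_eq_mul] at this
    have h8 : (∑ w ∈ X.filter (fun v => 4 ≤ dg G X v), (aa G X w : ℤ)) = (TT G X).card * 2 := by
      exact_mod_cast this
    rw [h8]
    ring
  rw [e4, e5, e6] at e3
  -- double counting over W
  have e7 : ∑ w ∈ WW G X, (aa G X w : ℤ) = ∑ x ∈ TT G X, (((WW G X).filter (G.Adj x)).card : ℤ) := by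
    have := double_count G (WW G X) (TT G X)
    exact_mod_cast this
  have e8 : ∀ x ∈ TT G X, ((WW G X).filter (G.Adj x)).card ≤ 2 := by
    intro x hx
    rw [← ((mem_TT G).1 hx).2]
    apply Finset.card_le_card
    exact Finset.filter_subset_filter _ hWX
  have e9 : ∑ x ∈ TT G X, (2 - 2 * (((WW G X).filter (G.Adj x)).card : ℤ)) ≥
      -2 * ((II G X (WW G X)).card : ℤ) := by
    have h9 : ((II G X (WW G X)).card : ℤ) =
        ∑ x ∈ TT G X, if ((WW G X).filter (G.Adj x)).card = 2 then (1 : ℤ) else 0 := by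
      unfold II
      rw [Finset.card_filter]
      push_cast
      rfl
    rw [h9, Finset.mul_sum]
    apply Finset.sum_le_sum
    intro x hx
    have := e8 x hx
    split_ifs with h
    · rw [h]; norm_num
    · have : ((WW G X).filter (G.Adj x)).card ≤ 1 := by omega
      have : (((WW G X).filter (G.Adj x)).card : ℤ) ≤ 1 := by exact_mod_cast this
      linarith
  have e10 : ∑ w ∈ WW G X, 2 * ((dg G X w : ℤ) - 3) ≤
      ∑ w ∈ WW G X, (5 * (dg G X w : ℤ) - 14 - aa G X w) := by
    apply Finset.sum_le_sum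
    intro w hw
    have h10 := ((mem_WW G).1 hw).2.1
    have h11 := aa_le G X w
    omega
  have e11 : ∑ w ∈ WW G X, (5 * (dg G X w : ℤ) - 14 - 3 * aa G X w) =
      ∑ w ∈ WW G X, (5 * (dg G X w : ℤ) - 14 - aa G X w) - 2 * ∑ w ∈ WW G X, (aa G X w : ℤ) := by
    rw [Finset.mul_sum, ← Finset.sum_sub_distrib]
    apply Finset.sum_congr rfl
    intro w _
    ring
  have e12 : ∑ x ∈ TT G X, (2 - 2 * (((WW G X).filter (G.Adj x)).card : ℤ)) =
      2 * (TT G X).card - 2 * ∑ x ∈ TT G X, (((WW G X).filter (G.Adj x)).card : ℤ) := by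
    rw [Finset.sum_sub_distrib, Finset.sum_const, nsmul_eq_mul, Finset.mul_sum]
    ring
  rw [← Finset.mul_sum] at e10
  rw [e12] at e9
  rw [e11, e7] at e3
  linarith

end

end Pool.Agent.Lib.Helper10.UB
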