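import Pool.Agent.Lib.Helper10.UB.B2

namespace Pool.Agent.Lib.Helper10.UB

section

variable {V : Type*} [Fintype V] [DecidableEq V] (G : SimpleGraph V)

open Classical in
/-- the key selection: a nonempty set `Y` of heavy-light vertices, and an assignment `P` -/
lemma select {X : Finset V} (hs : 5 * ∑ v ∈ X, dg G X v < 14 * X.card)
    (h2 : ∀ v ∈ X, 2 ≤ dg G X v)
    (h4 : ∀ v ∈ X, dg G X v = 2 → ∀ u ∈ X, G.Adj v u → 4 ≤ dg G X u) :
    ∃ (Y : Finset V) (P : V → V), Y.Nonempty ∧ Y ⊆ WW G X ∧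
      (∀ x ∈ TT G X, (∃ w ∈ Y, G.Adj w x) → P x ∈ X ∧ G.Adj x (P x) ∧
        ((∀ y ∈ X, G.Adj x y → y ∈ Y) ∨ P x ∉ Y)) ∧
      (∀ w ∈ Y, dg G X w - 3 ≤ ((TT G X).filter (fun x => G.Adj w x ∧ P x = w)).card) := by
  have hch := charge G hs h2 h4
  obtain ⟨Y, hYW, hmax⟩ := Finset.exists_max_image (WW G X).powerset
    (fun Y => ((II G X Y).card : ℤ) - ∑ w ∈ Y, ((dg G X w : ℤ) - 3)) ⟨∅, by simp⟩
  rw [Finset.mem_powerset] at hYW
  have hWX : WW G X ⊆ X := Finset.filter_subset _ _
  have hYX : Y ⊆ X := hYW.trans hWX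
  have hY4 : ∀ w ∈ Y, 4 ≤ dg G X w := fun w hw => ((mem_WW G).1 (hYW hw)).2.1
  have hYne : Y.Nonempty := by
    rw [Finset.nonempty_iff_ne_empty]
    rintro rfl
    have h5 := hmax (WW G X) (Finset.mem_powerset_self _)
    have h6 : II G X (∅ : Finset V) = ∅ := by
      unfold II
      rw [Finset.filter_eq_empty_iff]
      intro x _
      simp
    simp only [h6, Finset.card_empty, Finset.sum_empty] at h5
    push_cast at h5
    linarith
  -- internal vertices: all neighbours in Y
  have hII : ∀ x, x ∈ II G X Y ↔ x ∈ TT G X ∧ ∀ y ∈ X, G.Adj x y → y ∈ Y := by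
    intro x
    rw [mem_II, mem_TT]
    constructor
    · rintro ⟨⟨hx, hd⟩, hc⟩
      refine ⟨⟨hx, hd⟩, ?_⟩
      intro y hy hxy
      have hsub : Y.filter (G.Adj x) ⊆ X.filter (G.Adj x) := Finset.filter_subset_filter _ hYX
      have heq : Y.filter (G.Adj x) = X.filter (G.Adj x) := by
        apply Finset.eq_of_subset_of_card_le hsub
        rw [hc]
        exact hd.le
      have : y ∈ Y.filter (G.Adj x) := by
        rw [heq, Finset.mem_filter]; exact ⟨hy, hxy⟩
      exact (Finset.mem_filter.1 this).1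
    · rintro ⟨⟨hx, hd⟩, hc⟩
      refine ⟨⟨hx, hd⟩, ?_⟩
      have heq : Y.filter (G.Adj x) = X.filter (G.Adj x) := by
        ext y
        simp only [Finset.mem_filter]
        constructor
        · rintro ⟨a, b⟩; exact ⟨hYX a, b⟩
        · rintro ⟨a, b⟩; exact ⟨hc y a b, b⟩
      rw [heq]
      exact hd
  -- Hall
  let ι := {q : V × ℕ // q.1 ∈ Y ∧ q.2 < dg G X q.1 - 3}
  let t : ι → Finset V := fun q => (II G X Y).filter (fun x => G.Adj q.1.1 x)
  have hall : ∀ s : Finset ι, s.card ≤ (s.biUnion t).card := by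
    intro s
    let Z : Finset V := s.image (fun q => q.1.1)
    have hZY : Z ⊆ Y := by
      intro z hz
      obtain ⟨q, _, rfl⟩ := Finset.mem_image.1 hz
      exact q.2.1
    have hs1 : s.card ≤ ∑ w ∈ Z, (dg G X w - 3) := by
      rw [Finset.card_eq_sum_card_image (fun q : ι => q.1.1) s]
      apply Finset.sum_le_sum
      intro w _
      rw [← Finset.card_range (dg G X w - 3)]
      apply Finset.card_le_card_of_injOn (fun q : ι => q.1.2)
      · intro q hq
        have hq' := (Finset.mem_filter.1 (Finset.mem_coe.1 hq)).2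
        have h7 := q.2.2
        rw [Finset.coe_range, Set.mem_Iio, ← hq']
        exact h7
      · intro q hq q' hq' hqq
        have e1 := (Finset.mem_filter.1 (Finset.mem_coe.1 hq)).2
        have e2 := (Finset.mem_filter.1 (Finset.mem_coe.1 hq')).2
        apply Subtype.ext
        apply Prod.ext
        · rw [e1, e2]
        · exact hqq
    have hsub : II G X Y \ II G X (Y \ Z) ⊆ s.biUnion t := by
      intro x hx
      rw [Finset.mem_sdiff] at hx
      have hxI := (mem_II G).1 hx.1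
      have hnot : ¬ (((Y \ Z).filter (G.Adj x)).card = 2) := fun h =>
        hx.2 ((mem_II G).2 ⟨hxI.1, h⟩)
      have hex : ∃ z ∈ Z, G.Adj x z := by
        by_contra hcon
        push Not at hcon
        apply hnot
        have : (Y \ Z).filter (G.Adj x) = Y.filter (G.Adj x) := by
          ext y
          simp only [Finset.mem_filter, Finset.mem_sdiff]
          constructor
          · rintro ⟨⟨a, _⟩, c⟩; exact ⟨a, c⟩
          · rintro ⟨a, c⟩; exact ⟨⟨a, fun hz => hcon y hz c⟩, c⟩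
        rw [this]
        exact hxI.2
      obtain ⟨z, hz, hxz⟩ := hex
      obtain ⟨q, hq, rfl⟩ := Finset.mem_image.1 hz
      rw [Finset.mem_biUnion]
      exact ⟨q, hq, Finset.mem_filter.2 ⟨hx.1, hxz.symm⟩⟩
    have hI2 : II G X (Y \ Z) ⊆ II G X Y := by
      intro x hx
      have hxI := (mem_II G).1 hx
      rw [mem_II]
      refine ⟨hxI.1, ?_⟩
      apply le_antisymm
      · rw [← hxI.1.2]
        exact Finset.card_le_card (Finset.filter_subset_filter _ hYX)
      · have h8 : ((Y \ Z).filter (G.Adj x)).card ≤ (Y.filter (G.Adj x)).card :=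
          Finset.card_le_card (Finset.filter_subset_filter _ Finset.sdiff_subset)
        rwa [hxI.2] at h8
    have hc1 : (II G X Y \ II G X (Y \ Z)).card + (II G X (Y \ Z)).card = (II G X Y).card :=
      Finset.card_sdiff_add_card_eq_card hI2
    have hm := hmax (Y \ Z) (Finset.mem_powerset.2 (Finset.sdiff_subset.trans hYW))
    have hsum : ∑ w ∈ Y \ Z, ((dg G X w : ℤ) - 3) + ∑ w ∈ Z, ((dg G X w : ℤ) - 3) =
        ∑ w ∈ Y, ((dg G X w : ℤ) - 3) := Finset.sum_sdiff hZY
    have hcast : ((∑ w ∈ Z, (dg G X w - 3) : ℕ) : ℤ) = ∑ w ∈ Z, ((dg G X w : ℤ) - 3) := by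
      push_cast
      apply Finset.sum_congr rfl
      intro w hw
      have := hY4 w (hZY hw)
      omega
    have hc2 := Finset.card_le_card hsub
    have : (s.card : ℤ) ≤ ((s.biUnion t).card : ℤ) := by
      have a1 : (s.card : ℤ) ≤ ((∑ w ∈ Z, (dg G X w - 3) : ℕ) : ℤ) := by exact_mod_cast hs1
      have a2 : ((II G X Y \ II G X (Y \ Z)).card : ℤ) ≤ ((s.biUnion t).card : ℤ) := by
        exact_mod_cast hc2
      have a3 : ((II G X Y \ II G X (Y \ Z)).card : ℤ) + ((II G X (Y \ Z)).card : ℤ) =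
        ((II G X Y).card : ℤ) := by exact_mod_cast hc1
      rw [hcast] at a1
      linarith
    exact_mod_cast this
  obtain ⟨f, hfinj, hft⟩ := (Finset.all_card_le_biUnion_card_iff_exists_injective t).1 hall
  -- choose P
  have hP : ∀ x, ∃ y, (x ∈ TT G X → (∃ w ∈ Y, G.Adj w x) → y ∈ X ∧ G.Adj x y ∧
        ((∀ y ∈ X, G.Adj x y → y ∈ Y) ∨ y ∉ Y)) ∧ (∀ q : ι, f q = x → q.1.1 = y) := by
    intro x
    by_cases hq : ∃ q : ι, f q = x
    · obtain ⟨q, rfl⟩ := hq
      have hfq := hft q
      rw [Finset.mem_filter] at hfq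
      refine ⟨q.1.1, ?_, ?_⟩
      · intro _ _
        exact ⟨hYX q.2.1, hfq.2.symm, Or.inl ((hII _).1 hfq.1).2⟩
      · intro q' hq'
        rw [hfinj hq']
    · by_cases hx : x ∈ TT G X
      · by_cases hall' : ∀ y ∈ X, G.Adj x y → y ∈ Y
        · by_cases hw : ∃ w ∈ Y, G.Adj w x
          · obtain ⟨w, hw, hwx⟩ := hw
            refine ⟨w, fun _ _ => ⟨hYX hw, hwx.symm, Or.inl hall'⟩, ?_⟩
            intro q hq'
            exact absurd ⟨q, hq'⟩ hq
          · refine ⟨x, fun _ h => absurd h hw, ?_⟩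
            intro q hq'
            exact absurd ⟨q, hq'⟩ hq
        · push Not at hall'
          obtain ⟨y, hy, hxy, hyY⟩ := hall'
          refine ⟨y, fun _ _ => ⟨hy, hxy, Or.inr hyY⟩, ?_⟩
          intro q hq'
          exact absurd ⟨q, hq'⟩ hq
      · refine ⟨x, fun h => absurd h hx, ?_⟩
        intro q hq'
        exact absurd ⟨q, hq'⟩ hq
  choose P hP1 hP2 using hP
  refine ⟨Y, P, hYne, hYW, fun x hx hw => hP1 x hx hw, ?_⟩
  intro w hw
  conv_lhs => rw [← Finset.card_range (dg G X w - 3)]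
  apply Finset.card_le_card_of_injOn
    (fun k => if h : k < dg G X w - 3 then f ⟨(w, k), hw, h⟩ else w)
  · intro k hk
    rw [Finset.coe_range, Set.mem_Iio] at hk
    simp only [hk, dif_pos]
    rw [Finset.mem_coe, Finset.mem_filter]
    have h9 := hft ⟨(w, k), hw, hk⟩
    rw [Finset.mem_filter] at h9
    refine ⟨((hII _).1 h9.1).1, h9.2, ?_⟩
    exact (hP2 _ ⟨(w, k), hw, hk⟩ rfl).symm
  · intro k hk k' hk' hkk
    rw [Finset.coe_range, Set.mem_Iio] at hk hk'
    simp only [hk, hk', dif_pos] at hkk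
    have := hfinj hkk
    have := congrArg (fun q : ι => q.1.2) this
    exact this

end

end Pool.Agent.Lib.Helper10.UB
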