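import Pool.Agent.Lib.Helper10.UB.B3

namespace Pool.Agent.Lib.Helper10.UB

section

variable {V : Type*} [Fintype V] [DecidableEq V] (G : SimpleGraph V)

lemma Sparse.mono {X Y : Finset V} (h : Sparse G X) (hYX : Y ⊆ X) : Sparse G Y :=
  fun Z hZ hne => h Z (hZ.trans hYX) hne

open Classical in
/-- two neighbours only -/
lemma two_nbrs {X : Finset V} {x : V} (hd : dg G X x = 2) {a b c : V} (ha : a ∈ X) (hb : b ∈ X)
    (hc : c ∈ X) (hxa : G.Adj x a) (hxb : G.Adj x b) (hxc : G.Adj x c) (hac : a ≠ c) (hbc : b ≠ c) :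
    a = b := by
  by_contra hab
  have hsub : ({a, b, c} : Finset V) ⊆ X.filter (G.Adj x) := by
    intro y hy
    simp only [Finset.mem_insert, Finset.mem_singleton] at hy
    rw [Finset.mem_filter]
    rcases hy with rfl | rfl | rfl
    · exact ⟨ha, hxa⟩
    · exact ⟨hb, hxb⟩
    · exact ⟨hc, hxc⟩
  have := Finset.card_le_card hsub
  rw [Finset.card_eq_three.2 ⟨a, b, c, hab, hac, hbc, rfl⟩] at this
  unfold dg at hd
  omega

open Classical in
lemma step3 {X : Finset V} (hsp : Sparse G X) (hX : X.Nonempty)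
    (h2 : ∀ v ∈ X, 2 ≤ dg G X v)
    (h4 : ∀ v ∈ X, dg G X v = 2 → ∀ u ∈ X, G.Adj v u → 4 ≤ dg G X u)
    (ih : ∀ X' ⊂ X, ∃ par nxt ρ, Dec G X' par nxt ρ) :
    ∃ par nxt ρ, Dec G X par nxt ρ := by
  obtain ⟨Y, P, hYne, hYW, hP, hcount⟩ := select G (hsp X (Finset.Subset.refl _) hX) h2 h4
  have hWX : WW G X ⊆ X := Finset.filter_subset _ _
  have hYX : Y ⊆ X := hYW.trans hWX
  have hY4 : ∀ w ∈ Y, 4 ≤ dg G X w := fun w hw => ((mem_WW G).1 (hYW hw)).2.1
  let N : Finset V := (TT G X).filter (fun x => ∃ w ∈ Y, G.Adj w x)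
  have hN : ∀ x, x ∈ N ↔ x ∈ TT G X ∧ ∃ w ∈ Y, G.Adj w x := by
    intro x; simp [N]
  have hNX : N ⊆ X := fun x hx => ((mem_TT G).1 ((hN x).1 hx).1).1
  have hN2 : ∀ x ∈ N, dg G X x = 2 := fun x hx => ((mem_TT G).1 ((hN x).1 hx).1).2
  have hYN : ∀ w ∈ Y, w ∉ N := fun w hw hwN => by
    have h5 := hY4 w hw
    have h6 := hN2 w hwN
    omega
  have hPX : ∀ x ∈ N, P x ∈ X := fun x hx => (hP x ((hN x).1 hx).1 ((hN x).1 hx).2).1
  have hPadj : ∀ x ∈ N, G.Adj x (P x) := fun x hx => (hP x ((hN x).1 hx).1 ((hN x).1 hx).2).2.1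
  have hnbr4 : ∀ x ∈ N, ∀ y ∈ X, G.Adj x y → 4 ≤ dg G X y := fun x hx y hy hxy =>
    h4 x (hNX hx) (hN2 x hx) y hy hxy
  -- the other neighbour lies in Y
  have hother : ∀ x ∈ N, ∀ y ∈ X, G.Adj x y → y ≠ P x → y ∈ Y := by
    intro x hx y hy hxy hyP
    rcases (hP x ((hN x).1 hx).1 ((hN x).1 hx).2).2.2 with h5 | h5
    · exact h5 y hy hxy
    · obtain ⟨w, hw, hwx⟩ := ((hN x).1 hx).2
      have hwP : w ≠ P x := fun h => h5 (h ▸ hw)
      have := two_nbrs G (hN2 x hx) hy (hYX hw) (hPX x hx) hxy hwx.symm (hPadj x hx) hyP hwP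
      rw [this]; exact hw
  -- remaining 2-neighbours
  let R : V → Finset V := fun w => N.filter (fun x => G.Adj w x ∧ P x ≠ w)
  let Q : V → Finset V := fun w => X.filter (fun z => G.Adj w z ∧ z ∉ TT G X)
  have hR : ∀ w x, x ∈ R w ↔ x ∈ N ∧ G.Adj w x ∧ P x ≠ w := by
    intro w x; simp [R]
  have hQ : ∀ w z, z ∈ Q w ↔ z ∈ X ∧ G.Adj w z ∧ z ∉ TT G X := by
    intro w z; simp [Q]
  have hRT : ∀ w x, x ∈ R w → x ∈ TT G X := fun w x hx => ((hN x).1 ((hR w x).1 hx).1).1
  have hdisj : ∀ w, Disjoint (R w) (Q w) := by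
    intro w
    rw [Finset.disjoint_left]
    intro x hx hxQ
    exact ((hQ w x).1 hxQ).2.2 (hRT w x hx)
  have hcardQ : ∀ w ∈ Y, (Q w).card + aa G X w = dg G X w := by
    intro w _
    unfold aa dg
    rw [← Finset.card_union_of_disjoint]
    · congr 1
      ext z
      simp only [Finset.mem_union, hQ, Finset.mem_filter, mem_TT]
      constructor
      · rintro (⟨a, b, _⟩ | ⟨⟨a, _⟩, b⟩)
        · exact ⟨a, b⟩
        · exact ⟨a, b⟩
      · rintro ⟨a, b⟩
        by_cases hz : dg G X z = 2
        · right; exact ⟨⟨a, hz⟩, b⟩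
        · left; exact ⟨a, b, fun h => hz h.2⟩
    · rw [Finset.disjoint_left]
      intro z hz hz'
      exact ((hQ w z).1 hz).2.2 (Finset.mem_filter.1 hz').1
  have hcardR : ∀ w ∈ Y, (R w).card + (dg G X w - 3) ≤ aa G X w := by
    intro w hw
    refine le_trans (Nat.add_le_add_left (hcount w hw) _) ?_
    unfold aa
    rw [← Finset.card_union_of_disjoint]
    · apply Finset.card_le_card
      intro x hx
      rw [Finset.mem_filter]
      rcases Finset.mem_union.1 hx with hx | hx
      · have hx' := (hR w x).1 hx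
        exact ⟨((hN x).1 hx'.1).1, hx'.2.1⟩
      · have hx' := Finset.mem_filter.1 hx
        exact ⟨hx'.1, hx'.2.1⟩
    · rw [Finset.disjoint_left]
      intro x hx hx'
      exact ((hR w x).1 hx).2.2 (Finset.mem_filter.1 hx').2.2
  have hQ1 : ∀ w ∈ Y, (Q w).card ≤ 1 := by
    intro w hw
    have e1 := hcardQ w hw
    have e2 := ((mem_WW G).1 (hYW hw)).2
    have e3 := aa_le G X w
    omega
  have hRQ : ∀ w ∈ Y, (R w).card + (Q w).card ≤ 3 := by
    intro w hw
    have e1 := hcardQ w hw
    have e2 := hcardR w hw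
    have e3 := hY4 w hw
    omega
  let e := Fintype.equivFin V
  have hloc : ∀ w, ∃ po lo ro : Option V, w ∈ Y →
    ((∀ b, po = some b → (b ∈ Q w ∧ ¬ (b ∈ Y ∧ e b < e w)) ∨ b ∈ R w) ∧
    (∀ b ∈ Q w, ¬ (b ∈ Y ∧ e b < e w) → po = some b) ∧
    (∀ b, lo = some b → b ∈ R w) ∧ (∀ b, ro = some b → b ∈ R w) ∧
    (∀ b ∈ R w, po = some b ∨ lo = some b ∨ ro = some b) ∧ (∀ b, lo = some b → ro ≠ some b) ∧
    (∀ b, po = some b → lo ≠ some b ∧ ro ≠ some b)) := by
    intro w
    by_cases hw : w ∈ Y
    · obtain ⟨po, lo, ro, h⟩ := local_choice (R w) (Q w) (hdisj w) (fun b => b ∈ Y ∧ e b < e w)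
        (hQ1 w hw) (hRQ w hw)
      exact ⟨po, lo, ro, fun _ => h⟩
    · exact ⟨none, none, none, fun h => absurd h hw⟩
  choose po lo ro hloc using hloc
  -- R sets of different w are disjoint
  have hRuniq : ∀ w ∈ Y, ∀ w' ∈ Y, ∀ x, x ∈ R w → x ∈ R w' → w = w' := by
    intro w hw w' hw' x hx hx'
    have a := (hR w x).1 hx
    have a' := (hR w' x).1 hx'
    exact two_nbrs G (hN2 x a.1) (hYX hw) (hYX hw') (hPX x a.1) a.2.1.symm a'.2.1.symm
      (hPadj x a.1) (fun h => a.2.2 h.symm) (fun h => a'.2.2 h.symm)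
  let Z : Finset V := Y ∪ N
  have hZX : Z ⊆ X := Finset.union_subset hYX hNX
  obtain ⟨par, nxt, ρ, hdec⟩ := ih (X \ Z) (by
    rw [Finset.ssubset_iff_subset_ne]
    refine ⟨Finset.sdiff_subset, ?_⟩
    intro h
    obtain ⟨y, hy⟩ := hYne
    have : y ∈ X \ Z := by rw [h]; exact hYX hy
    rw [Finset.mem_sdiff] at this
    exact this.2 (Finset.mem_union_left _ hy))
  let pn : V → Option V := fun a => if a ∈ Y then po a else some (P a)
  let nn : V → Option V := fun a => if a ∈ Y then ro a else
    if h : ∃ w ∈ Y, lo w = some a then some h.choose else none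
  let rn : V → ℤ := fun a => if a ∈ Y then 0 else if ∃ w ∈ Y, lo w = some a then -1 else 1
  have hZmem : ∀ a, a ∈ Z ↔ a ∈ Y ∨ a ∈ N := fun a => Finset.mem_union
  -- basic facts on pn, nn
  have hpnY : ∀ a ∈ Y, pn a = po a := fun a ha => by simp [pn, ha]
  have hpnN : ∀ a ∈ N, pn a = some (P a) := fun a ha => by
    have : a ∉ Y := fun h => hYN a h ha
    simp [pn, this]
  have hnnY : ∀ a ∈ Y, nn a = ro a := fun a ha => by simp [nn, ha]
  have hnnN : ∀ a ∈ N, ∀ b, nn a = some b ↔ (b ∈ Y ∧ lo b = some a) := by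
    intro a ha b
    have haY : a ∉ Y := fun h => hYN a h ha
    simp only [nn, haY, if_false]
    constructor
    · intro h
      split_ifs at h with hex
      rw [Option.some.injEq] at h
      rw [← h]
      exact hex.choose_spec
    · rintro ⟨hb, hlo⟩
      have hex : ∃ w ∈ Y, lo w = some a := ⟨b, hb, hlo⟩
      rw [dif_pos hex, Option.some.injEq]
      have hsp := hex.choose_spec
      exact hRuniq _ hsp.1 _ hb a ((hloc _ hsp.1).2.2.1 a hsp.2) ((hloc b hb).2.2.1 a hlo)
  have hext := hdec.extend Z Finset.sdiff_disjoint pn nn rn ?_ ?_ ?_ ?_ ?_ ?_ ?_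
  · rw [Finset.sdiff_union_of_subset hZX] at hext
    exact ⟨_, _, _, hext⟩
  · -- h1
    intro a ha b hb
    rw [Finset.sdiff_union_of_subset hZX]
    rcases (hZmem a).1 ha with ha | ha
    · rw [hpnY a ha] at hb
      rcases (hloc a ha).1 b hb with h5 | h5
      · have := (hQ a b).1 h5.1
        exact ⟨this.1, this.2.1⟩
      · have := (hR a b).1 h5
        exact ⟨hNX this.1, this.2.1⟩
    · rw [hpnN a ha, Option.some.injEq] at hb
      subst hb
      exact ⟨hPX a ha, hPadj a ha⟩
  · -- h2
    intro a ha b hb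
    rcases (hZmem a).1 ha with ha | ha
    · rw [hnnY a ha] at hb
      have hbR := (hloc a ha).2.2.2.1 b hb
      have hbR' := (hR a b).1 hbR
      refine ⟨(hZmem b).2 (Or.inr hbR'.1), hbR'.2.1, ?_⟩
      have hbY : b ∉ Y := fun h => hYN b h hbR'.1
      have hnex : ¬ ∃ w ∈ Y, lo w = some b := by
        rintro ⟨w, hw, hlo⟩
        have : w = a := hRuniq w hw a ha b ((hloc w hw).2.2.1 b hlo) hbR
        subst this
        exact (hloc w hw).2.2.2.2.2.1 b hlo hb
      simp only [rn, ha, hbY, hnex, if_true, if_false]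
      norm_num
    · have hb' := (hnnN a ha b).1 hb
      have haR := (hR b a).1 ((hloc b hb'.1).2.2.1 a hb'.2)
      refine ⟨(hZmem b).2 (Or.inl hb'.1), haR.2.1.symm, ?_⟩
      have haY : a ∉ Y := fun h => hYN a h ha
      have hex : ∃ w ∈ Y, lo w = some a := ⟨b, hb'.1, hb'.2⟩
      simp only [rn, haY, hb'.1, hex, if_true, if_false]
      norm_num
  · -- h3
    intro a ha a' ha' b hb hb'
    rcases (hZmem a).1 ha with ha | ha <;> rcases (hZmem a').1 ha' with ha' | ha'
    · rw [hnnY a ha] at hb
      rw [hnnY a' ha'] at hb'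
      exact hRuniq a ha a' ha' b ((hloc a ha).2.2.2.1 b hb) ((hloc a' ha').2.2.2.1 b hb')
    · rw [hnnY a ha] at hb
      have e1 := (hR a b).1 ((hloc a ha).2.2.2.1 b hb)
      have e2 := (hnnN a' ha' b).1 hb'
      exact absurd e1.1 (hYN b e2.1)
    · rw [hnnY a' ha'] at hb'
      have e1 := (hR a' b).1 ((hloc a' ha').2.2.2.1 b hb')
      have e2 := (hnnN a ha b).1 hb
      exact absurd e1.1 (hYN b e2.1)
    · have e1 := (hnnN a ha b).1 hb
      have e2 := (hnnN a' ha' b).1 hb'
      rw [e1.2] at e2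
      exact Option.some.inj e2.2
  · -- h4
    -- key claim for N-vertices
    have key : ∀ a ∈ N, ∀ b ∈ X, G.Adj a b →
        nn a = some b ∨ (b ∈ Y ∧ nn b = some a) ∨ pn a = some b ∨ (b ∈ Y ∧ pn b = some a) := by
      intro a ha b hb hab
      by_cases hbP : b = P a
      · right; right; left; rw [hpnN a ha, hbP]
      · have hbY := hother a ha b hb hab hbP
        have haR : a ∈ R b := (hR b a).2 ⟨ha, hab.symm, fun h => hbP h.symm⟩
        rcases (hloc b hbY).2.2.2.2.1 a haR with h5 | h5 | h5
        · right; right; right; exact ⟨hbY, by rw [hpnY b hbY, h5]⟩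
        · left; exact (hnnN a ha b).2 ⟨hbY, h5⟩
        · right; left; exact ⟨hbY, by rw [hnnY b hbY, h5]⟩
    intro a ha b hb hab
    by_cases haN : a ∈ N
    · rcases key a haN b (hZX hb) hab with h5 | h5 | h5 | h5
      · exact Or.inl h5
      · exact Or.inr (Or.inl h5.2)
      · exact Or.inr (Or.inr (Or.inl h5))
      · exact Or.inr (Or.inr (Or.inr h5.2))
    · by_cases hbN : b ∈ N
      · rcases key b hbN a (hZX ha) hab.symm with h5 | h5 | h5 | h5
        · exact Or.inr (Or.inl h5)
        · exact Or.inl h5.2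
        · exact Or.inr (Or.inr (Or.inr h5))
        · exact Or.inr (Or.inr (Or.inl h5.2))
      · have haY : a ∈ Y := ((hZmem a).1 ha).resolve_right haN
        have hbY : b ∈ Y := ((hZmem b).1 hb).resolve_right hbN
        have haT : a ∉ TT G X := fun h => by
          have h5 := ((mem_TT G).1 h).2
          have h6 := hY4 a haY
          omega
        have hbT : b ∉ TT G X := fun h => by
          have h5 := ((mem_TT G).1 h).2
          have h6 := hY4 b hbY
          omega
        have hbQ : b ∈ Q a := (hQ a b).2 ⟨hYX hbY, hab, hbT⟩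
        have haQ : a ∈ Q b := (hQ b a).2 ⟨hYX haY, hab.symm, haT⟩
        rcases lt_or_ge (e b) (e a) with h5 | h5
        · right; right; right
          rw [hpnY b hbY]
          exact (hloc b hbY).2.1 a haQ (fun h => absurd h.2 (not_lt.2 h5.le))
        · right; right; left
          rw [hpnY a haY]
          exact (hloc a haY).2.1 b hbQ (fun h => absurd h.2 (not_lt.2 h5))
  · -- h4'
    intro a ha b hb hab
    rw [Finset.mem_sdiff] at hb
    have hbY : b ∉ Y := fun h => hb.2 ((hZmem b).2 (Or.inl h))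
    have hbN : b ∉ N := fun h => hb.2 ((hZmem b).2 (Or.inr h))
    rcases (hZmem a).1 ha with ha | ha
    · have hbT : b ∉ TT G X := fun h => hbN ((hN b).2 ⟨h, a, ha, hab⟩)
      rw [hpnY a ha]
      exact (hloc a ha).2.1 b ((hQ a b).2 ⟨hb.1, hab, hbT⟩) (fun h => hbY h.1)
    · by_contra hne
      have : b ≠ P a := by
        rintro rfl
        exact hne (hpnN a ha)
      exact hbY (hother a ha b hb.1 hab this)
  · -- h5
    intro a ha b hb
    rcases (hZmem a).1 ha with ha | ha
    · rw [hnnY a ha] at hb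
      have hbR := (hR a b).1 ((hloc a ha).2.2.2.1 b hb)
      refine ⟨?_, ?_⟩
      · rw [hpnY a ha]
        intro h5
        exact ((hloc a ha).2.2.2.2.2.2 b h5).2 hb
      · rw [hpnN b hbR.1, ne_eq, Option.some.injEq]
        exact hbR.2.2
    · have hb' := (hnnN a ha b).1 hb
      have haR := (hR b a).1 ((hloc b hb'.1).2.2.1 a hb'.2)
      refine ⟨?_, ?_⟩
      · rw [hpnN a ha, ne_eq, Option.some.injEq]
        exact haR.2.2
      · rw [hpnY b hb'.1]
        intro h5
        exact ((hloc b hb'.1).2.2.2.2.2.2 a h5).1 hb'.2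
  · -- h6
    intro a ha b hb hab hba
    rcases (hZmem a).1 ha with ha | ha <;> rcases (hZmem b).1 hb with hb | hb
    · rw [hpnY a ha] at hab
      rw [hpnY b hb] at hba
      have haT : a ∉ TT G X := fun h => by
        have h5 := ((mem_TT G).1 h).2
        have h6 := hY4 a ha
        omega
      have hbT : b ∉ TT G X := fun h => by
        have h5 := ((mem_TT G).1 h).2
        have h6 := hY4 b hb
        omega
      rcases (hloc a ha).1 b hab with h5 | h5
      · rcases (hloc b hb).1 a hba with h6 | h6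
        · have h7 : e a ≤ e b := by
            by_contra hlt
            exact h5.2 ⟨hb, not_le.1 hlt⟩
          have h8 : e b ≤ e a := by
            by_contra hlt
            exact h6.2 ⟨ha, not_le.1 hlt⟩
          have h9 : a = b := e.injective (le_antisymm h7 h8)
          subst h9
          exact G.irrefl ((hQ a a).1 h5.1).2.1
        · exact haT (hRT b a h6)
      · exact hbT (hRT a b h5)
    · rw [hpnY a ha] at hab
      rw [hpnN b hb, Option.some.injEq] at hba
      rcases (hloc a ha).1 b hab with h5 | h5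
      · exact ((hQ a b).1 h5.1).2.2 ((hN b).1 hb).1
      · exact ((hR a b).1 h5).2.2 hba
    · rw [hpnY b hb] at hba
      rw [hpnN a ha, Option.some.injEq] at hab
      rcases (hloc b hb).1 a hba with h5 | h5
      · exact ((hQ b a).1 h5.1).2.2 ((hN a).1 ha).1
      · exact ((hR b a).1 h5).2.2 hab
    · rw [hpnN a ha, Option.some.injEq] at hab
      have h5 := hnbr4 a ha b (hNX hb) (hab ▸ hPadj a ha)
      have h6 := hN2 b hb
      omega

open Classical in
theorem exists_dec (X : Finset V) (hs : Sparse G X) : ∃ par nxt ρ, Dec G X par nxt ρ := by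
  induction X using Finset.strongInduction with
  | H X ih =>
    by_cases hX : X.Nonempty
    · by_cases h1 : ∃ v ∈ X, dg G X v ≤ 1
      · obtain ⟨v, hv, hd⟩ := h1
        obtain ⟨par, nxt, ρ, hdec⟩ := ih (X.erase v) (Finset.erase_ssubset hv)
          (hs.mono G (Finset.erase_subset _ _))
        obtain ⟨par', nxt', ρ', h'⟩ := hdec.add_leaf v (Finset.notMem_erase v X) (by
          intro a ha b hb hva hvb
          unfold dg at hd
          rw [Finset.card_le_one] at hd
          exact hd a (Finset.mem_filter.2 ⟨Finset.mem_of_mem_erase ha, hva⟩) b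
            (Finset.mem_filter.2 ⟨Finset.mem_of_mem_erase hb, hvb⟩))
        have : X.erase v ∪ {v} = X := by
          rw [Finset.union_comm, ← Finset.insert_eq, Finset.insert_erase hv]
        rw [this] at h'
        exact ⟨_, _, _, h'⟩
      · push Not at h1
        by_cases h2 : ∃ v ∈ X, dg G X v = 2 ∧ ∃ u ∈ X, G.Adj v u ∧ dg G X u ≤ 3
        · obtain ⟨v, hv, hd, u, hu, hvu, hdu⟩ := h2
          obtain ⟨par, nxt, ρ, hdec⟩ := ih (X.erase v) (Finset.erase_ssubset hv)
            (hs.mono G (Finset.erase_subset _ _))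
          have hcard2 : (X.filter (G.Adj v)).card = 2 := hd
          have huF : u ∈ X.filter (G.Adj v) := Finset.mem_filter.2 ⟨hu, hvu⟩
          have hc1 : ((X.filter (G.Adj v)).erase u).card = 1 := by
            rw [Finset.card_erase_of_mem huF, hcard2]
          obtain ⟨w, hw⟩ := Finset.card_eq_one.1 hc1
          have hwmem : w ∈ (X.filter (G.Adj v)).erase u := by rw [hw]; exact Finset.mem_singleton_self w
          rw [Finset.mem_erase, Finset.mem_filter] at hwmem
          have hne : ∀ a, G.Adj v a → a ∈ X → a ∈ X.erase v := fun a ha haX =>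
            Finset.mem_erase.2 ⟨ha.ne', haX⟩
          obtain ⟨par', nxt', ρ', h'⟩ := hdec.add_two' (u := u) (w := w) (Finset.notMem_erase v X)
            (hne u hvu hu) (hne w hwmem.2.2 hwmem.2.1) (fun h => hwmem.1 h.symm) hvu hwmem.2.2 (by
              intro a ha hva
              by_cases hau : a = u
              · left; exact hau
              · right
                have : a ∈ (X.filter (G.Adj v)).erase u := by
                  rw [Finset.mem_erase, Finset.mem_filter]
                  exact ⟨hau, Finset.mem_of_mem_erase ha, hva⟩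
                rw [hw, Finset.mem_singleton] at this
                exact this) (by
              have h3 : (X.erase v).filter (G.Adj u) = (X.filter (G.Adj u)).erase v := by
                ext a
                simp only [Finset.mem_filter, Finset.mem_erase]
                tauto
              rw [h3, Finset.card_erase_of_mem (Finset.mem_filter.2 ⟨hv, hvu.symm⟩)]
              unfold dg at hdu
              omega)
          have : X.erase v ∪ {v} = X := by
            rw [Finset.union_comm, ← Finset.insert_eq, Finset.insert_erase hv]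
          rw [this] at h'
          exact ⟨_, _, _, h'⟩
        · push Not at h2
          refine step3 G hs hX (fun v hv => h1 v hv) ?_ ?_
          · intro v hv hd u hu hvu
            exact h2 v hv hd u hu hvu
          · intro X' hX'
            exact ih X' hX' (hs.mono G hX'.1)
    · rw [Finset.not_nonempty_iff_eq_empty] at hX
      subst hX
      refine ⟨fun _ => none, fun _ => none, fun _ => 0, ?_, ?_, ?_, ?_, ?_, ?_⟩
      · intro v u h; simp at h
      · intro v u h; simp at h
      · intro v v' u h; simp at h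
      · intro u v hu; simp at hu
      · intro u v h; simp at h
      · intro u v h; simp at h

end

end Pool.Agent.Lib.Helper10.UB
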