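import Pool.Agent.Lib.Helper10.UB.Defs

namespace Pool.Agent.Lib.Helper10.UB

/-- integer height of slot `(i,j)` -/
def hz (N : ℕ) (p : ℕ × ℕ) : ℤ :=
  if p.1 % 2 = 0 then -((p.2 * N + p.1 + 1 : ℕ) : ℤ) else ((p.2 * N + p.1 + 1 : ℕ) : ℤ)

/-- position of the bar at slot `(i,j)` -/
noncomputable def pos (N : ℕ) (p : ℕ × ℕ) : ℝ × ℝ := ((p.1 : ℝ) / 2, (hz N p : ℝ))

lemma slot_lt {N : ℕ} {p q : ℕ × ℕ} (hp : p.1 < N) (h : p.2 < q.2) :
    p.2 * N + p.1 + 1 < q.2 * N + q.1 + 1 := by
  have : (p.2 + 1) * N ≤ q.2 * N := Nat.mul_le_mul_right _ h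
  have h2 : (p.2 + 1) * N = p.2 * N + N := by ring
  omega

lemma slot_eq {N : ℕ} {p q : ℕ × ℕ} (hp : p.1 < N) (hq : q.1 < N)
    (h : p.2 * N + p.1 + 1 = q.2 * N + q.1 + 1) : p = q := by
  rcases lt_trichotomy p.2 q.2 with h1 | h1 | h1
  · have := slot_lt hp h1; omega
  · rw [h1] at h
    exact Prod.ext (by omega) h1
  · have := slot_lt hq h1; omega

lemma hz_inj {N : ℕ} {p q : ℕ × ℕ} (hp : p.1 < N) (hq : q.1 < N) (h : hz N p = hz N q) : p = q := by
  unfold hz at h
  split_ifs at h
  · exact slot_eq hp hq (by omega)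
  · omega
  · omega
  · exact slot_eq hp hq (by omega)

lemma pos_inj {N : ℕ} {p q : ℕ × ℕ} (hp : p.1 < N) (hq : q.1 < N) (h : pos N p = pos N q) :
    p = q := by
  have := congrArg Prod.snd h
  simp only [pos, Int.cast_inj] at this
  exact hz_inj hp hq this

lemma bar_disj {N : ℕ} {p q : ℕ × ℕ} (hp : p.1 < N) (hq : q.1 < N) (h : p ≠ q) :
    Disjoint (barSet (pos N p)) (barSet (pos N q)) := by
  rw [Set.disjoint_left]
  rintro ⟨x, y⟩ h1 h2
  have e1 : y = (hz N p : ℝ) := h1.2.2
  have e2 : y = (hz N q : ℝ) := h2.2.2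
  have : hz N p = hz N q := by
    rw [e1] at e2; exact_mod_cast e2
  exact h (hz_inj hp hq this)

/-- neighbouring slots -/
def Nb (p q : ℕ × ℕ) : Prop :=
  (p.1 = q.1 ∧ (p.2 = q.2 + 1 ∨ q.2 = p.2 + 1)) ∨
    (p.2 = 0 ∧ q.2 = 0 ∧ (p.1 = q.1 + 1 ∨ q.1 = p.1 + 1))

lemma Nb.symm {p q : ℕ × ℕ} (h : Nb p q) : Nb q p := by
  unfold Nb at *
  omega

section geo

variable (N : ℕ) (D : Set (ℕ × ℕ))

lemma channel_nb (hD : ∀ p ∈ D, p.1 < N) (hdown : ∀ i j, (i, j + 1) ∈ D → (i, j) ∈ D)
    {p q : ℕ × ℕ} (hp : p ∈ D) (hq : q ∈ D) (h : Channel (pos N '' D) (pos N p) (pos N q)) :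
    Nb p q := by
  obtain ⟨s, s', hss, hlt, hx, hno⟩ := h
  have hy : hz N p < hz N q := by
    have : (hz N p : ℝ) < (hz N q : ℝ) := hlt
    exact_mod_cast this
  have h1 := hx s le_rfl hss.le
  have h2 := hx s' hss.le le_rfl
  have a1 : (p.1 : ℝ) / 2 ≤ s := h1.1.1
  have a2 : (q.1 : ℝ) / 2 ≤ s := h1.2.1
  have a3 : s' ≤ (p.1 : ℝ) / 2 + 1 := h2.1.2.1
  have a4 : s' ≤ (q.1 : ℝ) / 2 + 1 := h2.2.2.1
  have b1 : (p.1 : ℝ) < q.1 + 2 := by linarith
  have b2 : (q.1 : ℝ) < p.1 + 2 := by linarith
  have c1 : p.1 < q.1 + 2 := by exact_mod_cast b1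
  have c2 : q.1 < p.1 + 2 := by exact_mod_cast b2
  have hpN := hD p hp
  have hqN := hD q hq
  have hdown' : ∀ i j k, k ≤ j → (i, j) ∈ D → (i, k) ∈ D := by
    intro i j k hk
    induction j with
    | zero =>
      intro h
      have : k = 0 := by omega
      rw [this]; exact h
    | succ j ih =>
      intro h
      rcases Nat.lt_or_ge k (j + 1) with h3 | h3
      · exact ih (by omega) (hdown i j h)
      · have : k = j + 1 := by omega
        rw [this]; exact h
  -- no other bar strictly between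
  have hbet : ∀ r ∈ D, (r.1 = p.1 ∨ r.1 = q.1) → hz N p < hz N r → hz N r < hz N q → False := by
    intro r hr hr1 h3 h4
    have hrp : pos N r ≠ pos N p := fun h => by
      have := pos_inj (hD r hr) hpN h
      subst this
      omega
    have hrq : pos N r ≠ pos N q := fun h => by
      have := pos_inj (hD r hr) hqN h
      subst this
      omega
    refine hno (pos N r) ⟨r, hr, rfl⟩ hrp hrq s (hz N r : ℝ) le_rfl hss.le ?_ ?_ ?_
    · show (hz N p : ℝ) ≤ (hz N r : ℝ)
      exact_mod_cast h3.le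
    · show (hz N r : ℝ) ≤ (hz N q : ℝ)
      exact_mod_cast h4.le
    · refine ⟨?_, ?_, rfl⟩
      · show (r.1 : ℝ) / 2 ≤ s
        rcases hr1 with h5 | h5 <;> rw [h5] <;> assumption
      · show s ≤ (r.1 : ℝ) / 2 + 1
        rcases hr1 with h5 | h5 <;> rw [h5] <;> linarith
  by_cases heq : p.1 = q.1
  · left
    refine ⟨heq, ?_⟩
    have hne : p.2 ≠ q.2 := by
      intro h
      have : p = q := Prod.ext heq h
      subst this
      omega
    rcases Nat.lt_or_gt_of_ne hne with h3 | h3
    · -- p.2 < q.2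
      by_contra hcon
      push Not at hcon
      have h4 : p.2 + 1 < q.2 := by omega
      have hr : (p.1, p.2 + 1) ∈ D := hdown' p.1 q.2 (p.2 + 1) h4.le (by rw [heq]; exact hq)
      have e1 := slot_lt (N := N) (p := p) (q := (p.1, p.2 + 1)) hpN (by simp)
      have e2 := slot_lt (N := N) (p := (p.1, p.2 + 1)) (q := q) hpN h4
      have e3 := slot_lt (N := N) (p := p) (q := q) hpN h3
      by_cases hpar : p.1 % 2 = 0
      · have hpar' : q.1 % 2 = 0 := heq ▸ hpar
        unfold hz at hy
        simp only [hpar, hpar', if_true] at hy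
        omega
      · have hpar' : ¬ q.1 % 2 = 0 := heq ▸ hpar
        refine hbet _ hr (Or.inl rfl) ?_ ?_
        · unfold hz
          simp only [hpar, if_false]
          exact_mod_cast e1
        · unfold hz
          simp only [hpar, hpar', if_false]
          exact_mod_cast e2
    · by_contra hcon
      push Not at hcon
      have h4 : q.2 + 1 < p.2 := by omega
      have hr : (p.1, q.2 + 1) ∈ D := hdown' p.1 p.2 (q.2 + 1) h4.le hp
      have e1 := slot_lt (N := N) (p := q) (q := (p.1, q.2 + 1)) hqN (by simp)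
      have e2 := slot_lt (N := N) (p := (p.1, q.2 + 1)) (q := p) hpN h4
      have e3 := slot_lt (N := N) (p := q) (q := p) hqN h3
      by_cases hpar : p.1 % 2 = 0
      · have hpar' : q.1 % 2 = 0 := heq ▸ hpar
        dsimp only at e1 e2
        refine hbet _ hr (Or.inl rfl) ?_ ?_
        · unfold hz
          simp only [hpar, if_true]
          omega
        · unfold hz
          simp only [hpar, hpar', if_true]
          omega
      · have hpar' : ¬ q.1 % 2 = 0 := heq ▸ hpar
        unfold hz at hy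
        simp only [hpar, hpar', if_false] at hy
        omega
  · right
    -- parities differ
    have hpar : p.1 % 2 = 0 ∧ q.1 % 2 = 1 := by
      rcases Nat.mod_two_eq_zero_or_one p.1 with h3 | h3
      · refine ⟨h3, ?_⟩; omega
      · exfalso
        have h4 : q.1 % 2 = 0 := by omega
        unfold hz at hy
        rw [if_neg (by omega), if_pos h4] at hy
        omega
    have hp2 : p.2 = 0 := by
      by_contra hcon
      have hr : (p.1, 0) ∈ D := hdown' p.1 p.2 0 (Nat.zero_le _) hp
      have e1 := slot_lt (N := N) (p := (p.1, 0)) (q := p) hpN (by simp; omega)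
      refine hbet _ hr (Or.inl rfl) ?_ ?_
      · unfold hz
        simp only [hpar.1, if_true]
        omega
      · unfold hz
        rw [if_pos hpar.1, if_neg (by omega)]
        omega
    have hq2 : q.2 = 0 := by
      by_contra hcon
      have hr : (q.1, 0) ∈ D := hdown' q.1 q.2 0 (Nat.zero_le _) hq
      have e1 := slot_lt (N := N) (p := (q.1, 0)) (q := q) hqN (by simp; omega)
      refine hbet _ hr (Or.inr rfl) ?_ ?_
      · unfold hz
        rw [if_pos hpar.1, if_neg (by simp; omega)]
        omega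
      · unfold hz
        rw [if_neg (by simp; omega), if_neg (by omega)]
        exact_mod_cast e1
    refine ⟨hp2, hq2, by omega⟩

/-- a channel exists between neighbouring slots -/
lemma nb_channel (hD : ∀ p ∈ D, p.1 < N) {p q : ℕ × ℕ} (hp : p ∈ D) (hq : q ∈ D)
    (hlt : hz N p < hz N q) (h : Nb p q) : Channel (pos N '' D) (pos N p) (pos N q) := by
  have hpN := hD p hp
  have hqN := hD q hq
  rcases h with ⟨h1, h2⟩ | ⟨h1, h2, h3⟩
  · refine ⟨(p.1 : ℝ) / 2 + 1 / 4, (p.1 : ℝ) / 2 + 3 / 4, by linarith, ?_, ?_, ?_⟩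
    · show (hz N p : ℝ) < (hz N q : ℝ)
      exact_mod_cast hlt
    · intro x hx hx'
      refine ⟨⟨?_, ?_, rfl⟩, ⟨?_, ?_, rfl⟩⟩
      · show (p.1 : ℝ) / 2 ≤ x
        linarith
      · show x ≤ (p.1 : ℝ) / 2 + 1
        linarith
      · show (q.1 : ℝ) / 2 ≤ x
        rw [← h1]; linarith
      · show x ≤ (q.1 : ℝ) / 2 + 1
        rw [← h1]; linarith
    · rintro a ⟨r, hr, rfl⟩ hap haq x y hx hx' hy hy' hmem
      have hrN := hD r hr
      have hrp : r ≠ p := fun h => hap (by rw [h])
      have hrq : r ≠ q := fun h => haq (by rw [h])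
      have m1 : (r.1 : ℝ) / 2 ≤ x := hmem.1
      have m2 : x ≤ (r.1 : ℝ) / 2 + 1 := hmem.2.1
      have m3 : y = (hz N r : ℝ) := hmem.2.2
      have b1 : (r.1 : ℝ) < p.1 + 2 := by linarith
      have b2 : (p.1 : ℝ) < r.1 + 2 := by linarith
      have c1 : r.1 < p.1 + 2 := by exact_mod_cast b1
      have c2 : p.1 < r.1 + 2 := by exact_mod_cast b2
      rw [m3] at hy hy'
      have d1 : hz N p ≤ hz N r := by
        have : (hz N p : ℝ) ≤ (hz N r : ℝ) := hy
        exact_mod_cast this
      have d2 : hz N r ≤ hz N q := by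
        have : (hz N r : ℝ) ≤ (hz N q : ℝ) := hy'
        exact_mod_cast this
      by_cases hr1 : r.1 = p.1
      · -- same column
        have n1 : r.2 ≠ p.2 := fun h => hrp (Prod.ext hr1 h)
        have n2 : r.2 ≠ q.2 := fun h => hrq (Prod.ext (by rw [hr1, h1]) h)
        have hrpar : r.1 % 2 = p.1 % 2 := by rw [hr1]
        have hqpar : q.1 % 2 = p.1 % 2 := by rw [h1]
        unfold hz at d1 d2 hlt
        rw [hrpar] at d1 d2
        rw [hqpar] at d2 hlt
        by_cases hpar : p.1 % 2 = 0
        · simp only [hpar, if_true] at d1 d2 hlt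
          -- heights reversed
          have h4 : p.2 = q.2 + 1 := by
            rcases h2 with h2 | h2
            · exact h2
            · exfalso
              have := slot_lt (N := N) (p := p) (q := q) hpN (by omega)
              omega
          rcases Nat.lt_or_ge p.2 r.2 with h5 | h5
          · have := slot_lt (N := N) (p := p) (q := r) hpN h5
            omega
          · have := slot_lt (N := N) (p := r) (q := q) hrN (by omega)
            omega
        · simp only [hpar, if_false] at d1 d2 hlt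
          have h4 : q.2 = p.2 + 1 := by
            rcases h2 with h2 | h2
            · exfalso
              have := slot_lt (N := N) (p := q) (q := p) hqN (by omega)
              omega
            · exact h2
          rcases Nat.lt_or_ge q.2 r.2 with h5 | h5
          · have := slot_lt (N := N) (p := q) (q := r) hqN h5
            omega
          · have := slot_lt (N := N) (p := r) (q := p) hrN (by omega)
            omega
      · -- adjacent column: opposite side
        have hqpar : q.1 % 2 = p.1 % 2 := by rw [h1]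
        unfold hz at d1 d2
        rw [hqpar] at d2
        rcases Nat.mod_two_eq_zero_or_one p.1 with h4 | h4
        · have h5 : ¬ r.1 % 2 = 0 := by omega
          simp only [h4, h5, if_true, if_false] at d1 d2
          omega
        · have h5 : r.1 % 2 = 0 := by omega
          have h6 : ¬ p.1 % 2 = 0 := by omega
          simp only [h5, h6, if_true, if_false] at d1 d2
          omega
  · -- heads of adjacent columns: p even, q odd
    have hpar : p.1 % 2 = 0 ∧ q.1 % 2 = 1 := by
      rcases Nat.mod_two_eq_zero_or_one p.1 with h4 | h4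
      · refine ⟨h4, ?_⟩; omega
      · exfalso
        have h5 : q.1 % 2 = 0 := by omega
        unfold hz at hlt
        rw [if_neg (by omega), if_pos h5] at hlt
        omega
    have hp0 : p = (p.1, 0) := Prod.ext rfl h1
    have hq0 : q = (q.1, 0) := Prod.ext rfl h2
    have hmm : ∃ m : ℕ, (m = p.1 ∨ m = q.1) ∧ p.1 ≤ m + 1 ∧ m ≤ p.1 ∧ q.1 ≤ m + 1 ∧ m ≤ q.1 := by
      rcases h3 with h3 | h3
      · exact ⟨q.1, Or.inr rfl, by omega, by omega, by omega, by omega⟩
      · exact ⟨p.1, Or.inl rfl, by omega, by omega, by omega, by omega⟩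
    obtain ⟨m, hm, m1, m2, m3, m4⟩ := hmm
    have m1' : (p.1 : ℝ) ≤ m + 1 := by exact_mod_cast m1
    have m2' : (m : ℝ) ≤ p.1 := by exact_mod_cast m2
    have m3' : (q.1 : ℝ) ≤ m + 1 := by exact_mod_cast m3
    have m4' : (m : ℝ) ≤ q.1 := by exact_mod_cast m4
    refine ⟨(m : ℝ) / 2 + 5 / 8, (m : ℝ) / 2 + 7 / 8, by linarith, ?_, ?_, ?_⟩
    · show (hz N p : ℝ) < (hz N q : ℝ)
      exact_mod_cast hlt
    · intro x hx hx'
      refine ⟨⟨?_, ?_, rfl⟩, ⟨?_, ?_, rfl⟩⟩
      · show (p.1 : ℝ) / 2 ≤ x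
        linarith
      · show x ≤ (p.1 : ℝ) / 2 + 1
        linarith
      · show (q.1 : ℝ) / 2 ≤ x
        linarith
      · show x ≤ (q.1 : ℝ) / 2 + 1
        linarith
    · rintro a ⟨r, hr, rfl⟩ hap haq x y hx hx' hy hy' hmem
      have hrN := hD r hr
      have hrp : r ≠ p := fun h => hap (by rw [h])
      have hrq : r ≠ q := fun h => haq (by rw [h])
      have k1 : (r.1 : ℝ) / 2 ≤ x := hmem.1
      have k2 : x ≤ (r.1 : ℝ) / 2 + 1 := hmem.2.1
      have k3 : y = (hz N r : ℝ) := hmem.2.2
      have b1 : (r.1 : ℝ) < m + 2 := by linarith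
      have b2 : (m : ℝ) < r.1 + 1 := by linarith
      have c1 : r.1 < m + 2 := by exact_mod_cast b1
      have c2 : m < r.1 + 1 := by exact_mod_cast b2
      rw [k3] at hy hy'
      have d1 : hz N p ≤ hz N r := by
        have : (hz N p : ℝ) ≤ (hz N r : ℝ) := hy
        exact_mod_cast this
      have d2 : hz N r ≤ hz N q := by
        have : (hz N r : ℝ) ≤ (hz N q : ℝ) := hy'
        exact_mod_cast this
      have hr1 : r.1 = p.1 ∨ r.1 = q.1 := by omega
      unfold hz at d1 d2
      rw [if_pos hpar.1] at d1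
      rw [if_neg (show ¬ q.1 % 2 = 0 by omega)] at d2
      rcases hr1 with hr1 | hr1
      · have hrpar : r.1 % 2 = 0 := by rw [hr1]; exact hpar.1
        rw [if_pos hrpar] at d1
        have n1 : r.2 ≠ 0 := fun h => hrp (Prod.ext hr1 (by rw [h, h1]))
        have := slot_lt (N := N) (p := p) (q := r) hpN (by omega)
        omega
      · have hrpar : ¬ r.1 % 2 = 0 := by rw [hr1]; omega
        rw [if_neg hrpar] at d2
        have n1 : r.2 ≠ 0 := fun h => hrq (Prod.ext hr1 (by rw [h, h2]))
        have := slot_lt (N := N) (p := q) (q := r) hqN (by omega)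
        omega

theorem sees_iff (hD : ∀ p ∈ D, p.1 < N) (hdown : ∀ i j, (i, j + 1) ∈ D → (i, j) ∈ D)
    {p q : ℕ × ℕ} (hp : p ∈ D) (hq : q ∈ D) (hpq : p ≠ q) :
    Sees (pos N '' D) (pos N p) (pos N q) ↔ Nb p q := by
  constructor
  · rintro (h | h)
    · exact channel_nb N D hD hdown hp hq h
    · exact (channel_nb N D hD hdown hq hp h).symm
  · intro h
    rcases lt_trichotomy (hz N p) (hz N q) with h1 | h1 | h1
    · exact Or.inl (nb_channel N D hD hp hq h1 h)
    · exact absurd (hz_inj (hD p hp) (hD q hq) h1) hpq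
    · exact Or.inr (nb_channel N D hD hq hp h1 h.symm)

end geo

end Pool.Agent.Lib.Helper10.UB
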