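import Pool.Agent.Lib.Helper10.UB.C1

namespace Pool.Agent.Lib.Helper10.UB

section

variable {V : Type*} [DecidableEq V]

/-- owner of a slot -/
def own (cols : List (List V)) (p : ℕ × ℕ) : Option V := (cols[p.1]?).bind (fun l => l[p.2]?)

lemma own_some {cols : List (List V)} {p : ℕ × ℕ} {v : V} (h : own cols p = some v) :
    p.1 < cols.length ∧ p.2 < cols.flatten.length := by
  unfold own at h
  rw [Option.bind_eq_some_iff] at h
  obtain ⟨c, hc, hv⟩ := h
  have h1 : p.1 < cols.length := (List.getElem?_eq_some_iff.1 hc).1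
  have h2 : p.2 < c.length := (List.getElem?_eq_some_iff.1 hv).1
  have hmem : c ∈ cols := List.mem_of_getElem? hc
  refine ⟨h1, lt_of_lt_of_le h2 ?_⟩
  have := List.sublist_flatten_of_mem hmem
  exact this.length_le

lemma count_pos_list (l : List V) (v : V) (S : Finset ℕ) (hS : ∀ j ∈ S, l[j]? = some v) :
    S.card ≤ l.count v := by
  induction l generalizing S with
  | nil =>
    have : S = ∅ := by
      rw [Finset.eq_empty_iff_forall_notMem]
      intro j hj
      have := hS j hj
      simp at this
    simp [this]
  | cons a l ih =>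
    have h1 : S = (S.filter (fun j => j = 0)) ∪ (S.filter (fun j => j ≠ 0)) := by
      rw [Finset.filter_union_filter_not_eq]
    have h2 : ((S.filter (fun j => j ≠ 0)).image (fun j => j - 1)).card = (S.filter (fun j => j ≠ 0)).card := by
      apply Finset.card_image_of_injOn
      intro x hx y hy hxy
      simp only [Finset.coe_filter, Set.mem_ofPred_eq] at hx hy hxy
      omega
    have h3 := ih ((S.filter (fun j => j ≠ 0)).image (fun j => j - 1)) (by
      intro j hj
      obtain ⟨k, hk, rfl⟩ := Finset.mem_image.1 hj
      rw [Finset.mem_filter] at hk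
      have := hS k hk.1
      obtain ⟨m, rfl⟩ := Nat.exists_eq_succ_of_ne_zero hk.2
      simpa using this)
    have h4 : (S.filter (fun j => j = 0)).card ≤ if a = v then 1 else 0 := by
      split_ifs with hav
      · have : S.filter (fun j => j = 0) ⊆ {0} := by
          intro j hj
          rw [Finset.mem_filter] at hj
          simp [hj.2]
        exact Finset.card_le_card this
      · rw [Nat.le_zero, Finset.card_eq_zero, Finset.filter_eq_empty_iff]
        intro j hj hj0
        subst hj0
        have := hS 0 hj
        simp at this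
        exact hav this
    have h5 : S.card ≤ (S.filter (fun j => j = 0)).card + (S.filter (fun j => j ≠ 0)).card := by
      conv_lhs => rw [h1]
      exact Finset.card_union_le _ _
    rw [List.count_cons]
    have h6 : (if (a == v) = true then 1 else 0) = if a = v then 1 else 0 := by
      simp
    rw [h6]
    omega

lemma count_pos_cols (cols : List (List V)) (v : V) (S : Finset (ℕ × ℕ))
    (hS : ∀ p ∈ S, own cols p = some v) : S.card ≤ cols.flatten.count v := by
  induction cols generalizing S with
  | nil =>
    have : S = ∅ := by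
      rw [Finset.eq_empty_iff_forall_notMem]
      intro j hj
      have := hS j hj
      simp [own] at this
    simp [this]
  | cons a cols ih =>
    have h1 : S = (S.filter (fun p => p.1 = 0)) ∪ (S.filter (fun p => p.1 ≠ 0)) := by
      rw [Finset.filter_union_filter_not_eq]
    have h2 : ((S.filter (fun p => p.1 ≠ 0)).image (fun p => (p.1 - 1, p.2))).card =
        (S.filter (fun p => p.1 ≠ 0)).card := by
      apply Finset.card_image_of_injOn
      intro x hx y hy hxy
      simp only [Finset.coe_filter, Set.mem_ofPred_eq, Prod.mk.injEq] at hx hy hxy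
      exact Prod.ext (by omega) hxy.2
    have h3 := ih ((S.filter (fun p => p.1 ≠ 0)).image (fun p => (p.1 - 1, p.2))) (by
      intro j hj
      obtain ⟨k, hk, rfl⟩ := Finset.mem_image.1 hj
      rw [Finset.mem_filter] at hk
      have := hS k hk.1
      obtain ⟨m, hm⟩ := Nat.exists_eq_succ_of_ne_zero hk.2
      unfold own at this ⊢
      rw [hm] at this
      simp only [Nat.succ_eq_add_one, List.getElem?_cons_succ] at this
      simp only [hm, Nat.succ_eq_add_one, Nat.add_sub_cancel]
      exact this)
    have h4 : ((S.filter (fun p => p.1 = 0)).image Prod.snd).card = (S.filter (fun p => p.1 = 0)).card := by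
      apply Finset.card_image_of_injOn
      intro x hx y hy hxy
      simp only [Finset.coe_filter, Set.mem_ofPred_eq] at hx hy hxy
      exact Prod.ext (by omega) hxy
    have h5 := count_pos_list a v ((S.filter (fun p => p.1 = 0)).image Prod.snd) (by
      intro j hj
      obtain ⟨k, hk, rfl⟩ := Finset.mem_image.1 hj
      rw [Finset.mem_filter] at hk
      have := hS k hk.1
      unfold own at this
      rw [hk.2] at this
      simpa using this)
    have h6 : S.card ≤ (S.filter (fun p => p.1 = 0)).card + (S.filter (fun p => p.1 ≠ 0)).card := by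
      conv_lhs => rw [h1]
      exact Finset.card_union_le _ _
    rw [List.flatten_cons, List.count_append]
    omega

/-- A layout given by columns gives a representation. -/
theorem rep_of_cols (G : SimpleGraph V) (t : ℕ) (cols : List (List V))
    (hcount : ∀ v, cols.flatten.count v ≤ t)
    (hgood : ∀ p q u v, own cols p = some u → own cols q = some v → Nb p q → G.Adj u v)
    (hcov : ∀ u v, G.Adj u v → ∃ p q, own cols p = some u ∧ own cols q = some v ∧ Nb p q) :
    ∃ B : V → Finset (ℝ × ℝ), IsUnitBarRep G t B := by
  classical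
  set N := cols.length with hN
  let D : Finset (ℕ × ℕ) :=
    (Finset.range cols.length ×ˢ Finset.range cols.flatten.length).filter (fun p => (own cols p).isSome)
  have hD : ∀ p, p ∈ D ↔ ∃ v, own cols p = some v := by
    intro p
    simp only [D, Finset.mem_filter, Finset.mem_product, Finset.mem_range, Option.isSome_iff_exists]
    constructor
    · rintro ⟨_, h⟩; exact h
    · rintro ⟨v, h⟩; exact ⟨own_some h, v, h⟩
  have hDN : ∀ p ∈ D, p.1 < N := fun p hp => by
    obtain ⟨v, hv⟩ := (hD p).1 hp
    exact (own_some hv).1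
  have hdown : ∀ i j, (i, j + 1) ∈ D → (i, j) ∈ D := by
    intro i j h
    obtain ⟨v, hv⟩ := (hD _).1 h
    rw [hD]
    unfold own at hv ⊢
    rw [Option.bind_eq_some_iff] at hv
    obtain ⟨l, hc, hv⟩ := hv
    have h2 : j + 1 < l.length := (List.getElem?_eq_some_iff.1 hv).1
    refine ⟨l[j]'(by omega), ?_⟩
    simp only at hc ⊢
    rw [hc]
    simp only [Option.bind_some]
    exact List.getElem?_eq_getElem (by omega)
  let B : V → Finset (ℝ × ℝ) := fun v => (D.filter (fun p => own cols p = some v)).image (pos N)
  have hB : ∀ v b, b ∈ B v ↔ ∃ p ∈ D, own cols p = some v ∧ pos N p = b := by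
    intro v b
    simp only [B, Finset.mem_image, Finset.mem_filter]
    constructor
    · rintro ⟨p, ⟨h1, h2⟩, h3⟩; exact ⟨p, h1, h2, h3⟩
    · rintro ⟨p, h1, h2, h3⟩; exact ⟨p, ⟨h1, h2⟩, h3⟩
  have hall : {a | ∃ w, a ∈ B w} = pos N '' (D : Set (ℕ × ℕ)) := by
    ext a
    simp only [Set.mem_ofPred_eq, hB, Set.mem_image, SetLike.mem_coe]
    constructor
    · rintro ⟨w, p, hp, _, h3⟩; exact ⟨p, hp, h3⟩
    · rintro ⟨p, hp, h3⟩
      obtain ⟨v, hv⟩ := (hD p).1 hp
      exact ⟨v, p, hp, hv, h3⟩
  refine ⟨B, ?_, ?_, ?_⟩
  · intro v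
    refine le_trans Finset.card_image_le (le_trans ?_ (hcount v))
    apply count_pos_cols
    intro p hp
    exact (Finset.mem_filter.1 hp).2
  · intro u v b hb c hc h
    obtain ⟨p, hp, hpu, rfl⟩ := (hB u b).1 hb
    obtain ⟨q, hq, hqv, rfl⟩ := (hB v c).1 hc
    apply bar_disj (hDN p hp) (hDN q hq)
    rintro rfl
    rw [hpu, Option.some.injEq] at hqv
    rcases h with h | h
    · exact h hqv
    · exact h rfl
  · intro u v huv
    rw [hall]
    constructor
    · intro hadj
      obtain ⟨p, q, hpu, hqv, hnb⟩ := hcov u v hadj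
      have hp : p ∈ D := (hD p).2 ⟨u, hpu⟩
      have hq : q ∈ D := (hD q).2 ⟨v, hqv⟩
      refine ⟨pos N p, (hB _ _).2 ⟨p, hp, hpu, rfl⟩, pos N q, (hB _ _).2 ⟨q, hq, hqv, rfl⟩, ?_⟩
      rw [sees_iff N D hDN hdown hp hq]
      · exact hnb
      · rintro rfl
        rw [hpu, Option.some.injEq] at hqv
        exact huv hqv
    · rintro ⟨b, hb, c, hc, hsee⟩
      obtain ⟨p, hp, hpu, rfl⟩ := (hB u b).1 hb
      obtain ⟨q, hq, hqv, rfl⟩ := (hB v c).1 hc
      have hpq : p ≠ q := by
        rintro rfl
        rw [hpu, Option.some.injEq] at hqv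
        exact huv hqv
      rw [sees_iff N D hDN hdown hp hq hpq] at hsee
      exact hgood p q u v hpu hqv hsee

end

end Pool.Agent.Lib.Helper10.UB
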