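import Pool.Agent.Lib.Helper10.UB.C2

namespace Pool.Agent.Lib.Helper10.UB

section

variable {V : Type*}

/-- heads of consecutive columns are adjacent -/
def HR (G : SimpleGraph V) (l l' : List V) : Prop := ∀ a ∈ l.head?, ∀ b ∈ l'.head?, G.Adj a b

/-- good column system -/
structure Good (G : SimpleGraph V) (cols : List (List V)) : Prop where
  col : ∀ l ∈ cols, l.IsChain G.Adj
  row : cols.IsChain (HR G)

/-- visible pairs of a column system (one direction) -/
def Seen (cols : List (List V)) (a b : V) : Prop :=
  (∃ l ∈ cols, [a, b] <:+: l) ∨ (∃ l l', [l, l'] <:+: cols ∧ l.head? = some a ∧ l'.head? = some b)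

/-- visible pairs of a column system -/
def SSeen (cols : List (List V)) (a b : V) : Prop := Seen cols a b ∨ Seen cols b a

lemma SSeen.symm {cols : List (List V)} {a b : V} (h : SSeen cols a b) : SSeen cols b a :=
  Or.symm h

lemma Seen.mono {cols cols' : List (List V)} (h : cols <:+: cols') {a b : V} (hs : Seen cols a b) :
    Seen cols' a b := by
  rcases hs with ⟨l, hl, h1⟩ | ⟨l, l', h1, h2, h3⟩
  · exact Or.inl ⟨l, h.subset hl, h1⟩
  · exact Or.inr ⟨l, l', h1.trans h, h2, h3⟩

lemma SSeen.mono {cols cols' : List (List V)} (h : cols <:+: cols') {a b : V}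
    (hs : SSeen cols a b) : SSeen cols' a b :=
  hs.imp (Seen.mono h) (Seen.mono h)

lemma infix_getElem? {α : Type*} {a b : α} {l : List α} (h : [a, b] <:+: l) :
    ∃ j, l[j]? = some a ∧ l[j + 1]? = some b := by
  obtain ⟨s, t, rfl⟩ := h
  refine ⟨s.length, ?_, ?_⟩
  · simp
  · simp [List.getElem?_append]

lemma Good.hgood {G : SimpleGraph V} {cols : List (List V)} (h : Good G cols) :
    ∀ p q u v, own cols p = some u → own cols q = some v → Nb p q → G.Adj u v := by
  have key1 : ∀ i j u v, own cols (i, j) = some u → own cols (i, j + 1) = some v → G.Adj u v := by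
    intro i j u v hu hv
    unfold own at hu hv
    simp only at hu hv
    rw [Option.bind_eq_some_iff] at hu hv
    obtain ⟨l, hl, hu⟩ := hu
    obtain ⟨l', hl', hv⟩ := hv
    rw [hl, Option.some.injEq] at hl'
    subst hl'
    have hc := h.col l (List.mem_of_getElem? hl)
    obtain ⟨h1, h1'⟩ := List.getElem?_eq_some_iff.1 hu
    obtain ⟨h2, h2'⟩ := List.getElem?_eq_some_iff.1 hv
    have := (List.isChain_iff_getElem.1 hc) j h2
    rw [h1', h2'] at this
    exact this
  have key2 : ∀ i u v, own cols (i, 0) = some u → own cols (i + 1, 0) = some v → G.Adj u v := by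
    intro i u v hu hv
    unfold own at hu hv
    simp only at hu hv
    rw [Option.bind_eq_some_iff] at hu hv
    obtain ⟨l, hl, hu⟩ := hu
    obtain ⟨l', hl', hv⟩ := hv
    obtain ⟨h1, h1'⟩ := List.getElem?_eq_some_iff.1 hl
    obtain ⟨h2, h2'⟩ := List.getElem?_eq_some_iff.1 hl'
    have := (List.isChain_iff_getElem.1 h.row) i h2
    rw [h1', h2'] at this
    apply this
    · rw [List.head?_eq_getElem?]; exact hu
    · rw [List.head?_eq_getElem?]; exact hv
  rintro ⟨p1, p2⟩ ⟨q1, q2⟩ u v hu hv (⟨h1, h2 | h2⟩ | ⟨h1, h2, h3 | h3⟩)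
  · simp only at h1 h2
    subst h1 h2
    exact (key1 _ _ _ _ hv hu).symm
  · simp only at h1 h2
    subst h1 h2
    exact key1 _ _ _ _ hu hv
  · simp only at h1 h2 h3
    subst h1 h2 h3
    exact (key2 _ _ _ hv hu).symm
  · simp only at h1 h2 h3
    subst h1 h2 h3
    exact key2 _ _ _ hu hv

lemma Seen.slots {cols : List (List V)} {a b : V} (h : Seen cols a b) :
    ∃ p q, own cols p = some a ∧ own cols q = some b ∧ Nb p q := by
  rcases h with ⟨l, hl, h1⟩ | ⟨l, l', h1, h2, h3⟩
  · obtain ⟨i, hi⟩ := List.mem_iff_getElem?.1 hl
    obtain ⟨j, hj, hj'⟩ := infix_getElem? h1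
    refine ⟨(i, j), (i, j + 1), ?_, ?_, Or.inl ⟨rfl, Or.inr rfl⟩⟩
    · unfold own; simp [hi, hj]
    · unfold own; simp [hi, hj']
  · obtain ⟨i, hi, hi'⟩ := infix_getElem? h1
    refine ⟨(i, 0), (i + 1, 0), ?_, ?_, Or.inr ⟨rfl, rfl, Or.inr rfl⟩⟩
    · unfold own
      rw [List.head?_eq_getElem?] at h2
      simp [hi, h2]
    · unfold own
      rw [List.head?_eq_getElem?] at h3
      simp [hi', h3]

lemma SSeen.slots {cols : List (List V)} {a b : V} (h : SSeen cols a b) :
    ∃ p q, own cols p = some a ∧ own cols q = some b ∧ Nb p q := by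
  rcases h with h | h
  · exact h.slots
  · obtain ⟨p, q, h1, h2, h3⟩ := h.slots
    exact ⟨q, p, h2, h1, h3.symm⟩

/-- concatenation of components with empty separating columns -/
def join (comps : List (List (List V))) : List (List V) := comps.flatMap (fun comp => comp ++ [[]])

lemma Good.join {G : SimpleGraph V} (comps : List (List (List V))) (h : ∀ comp ∈ comps, Good G comp) :
    Good G (join comps) := by
  induction comps with
  | nil =>
    refine ⟨?_, ?_⟩
    · intro l hl; simp [UB.join] at hl
    · simp [UB.join]
  | cons c cs ih =>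
    have ih' := ih (fun comp hc => h comp (List.mem_cons_of_mem _ hc))
    have hc := h c List.mem_cons_self
    have hj : UB.join (c :: cs) = (c ++ [[]]) ++ UB.join cs := by
      simp [UB.join]
    rw [hj]
    refine ⟨?_, ?_⟩
    · intro l hl
      rw [List.mem_append, List.mem_append, List.mem_singleton] at hl
      rcases hl with (hl | hl) | hl
      · exact hc.col l hl
      · subst hl; exact List.isChain_nil
      · exact ih'.col l hl
    · apply List.IsChain.append
      · apply List.IsChain.append hc.row (List.isChain_singleton _)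
        intro x _ y hy
        simp at hy
        subst hy
        intro a _ b hb
        simp at hb
      · exact ih'.row
      · intro x hx y _
        rw [List.getLast?_append] at hx
        simp at hx
        subst hx
        intro a ha
        simp at ha

lemma SSeen.join {comps : List (List (List V))} {comp : List (List V)} (hc : comp ∈ comps) {a b : V}
    (h : SSeen comp a b) : SSeen (join comps) a b := by
  apply h.mono
  obtain ⟨s, t, rfl⟩ := List.append_of_mem hc
  refine ⟨UB.join s, [[]] ++ UB.join t, ?_⟩
  simp [UB.join]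

lemma count_join [DecidableEq V] (comps : List (List (List V))) (v : V) :
    (join comps).flatten.count v = (comps.map (fun comp => comp.flatten.count v)).sum := by
  induction comps with
  | nil => simp [join]
  | cons c cs ih =>
    have hj : join (c :: cs) = (c ++ [[]]) ++ join cs := by
      simp [join]
    rw [hj, List.flatten_append, List.flatten_append, List.count_append, List.count_append, ih]
    simp

/-- Representation from a list of good components. -/
theorem rep_of_comps [DecidableEq V] (G : SimpleGraph V) (t : ℕ) (comps : List (List (List V)))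
    (hgood : ∀ comp ∈ comps, Good G comp)
    (hcount : ∀ v, (comps.map (fun comp => comp.flatten.count v)).sum ≤ t)
    (hcov : ∀ u v, G.Adj u v → ∃ comp ∈ comps, SSeen comp u v) :
    ∃ B : V → Finset (ℝ × ℝ), IsUnitBarRep G t B := by
  apply rep_of_cols G t (join comps)
  · intro v
    rw [count_join]
    exact hcount v
  · exact (Good.join comps hgood).hgood
  · intro u v huv
    obtain ⟨comp, hc, hs⟩ := hcov u v huv
    exact (hs.join hc).slots

end

end Pool.Agent.Lib.Helper10.UB
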