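import Mathlib

namespace Pool.Agent.Lib.Helper10.UB

section

variable {V : Type*} [Fintype V] [DecidableEq V]

/-- `L` is a partition of the type into chains of the partial function `nx`. -/
structure ChainPart (nx : V → Option V) (L : List (List V)) : Prop where
  count : ∀ v, L.flatten.count v = 1
  chain : ∀ l ∈ L, l.IsChain (fun a b => nx a = some b)
  cons : ∀ a b, nx a = some b → ∃ l ∈ L, [a, b] <:+: l
  ne : ∀ l ∈ L, l ≠ []

lemma ChainPart.exists_mem {nx : V → Option V} {L : List (List V)} (h : ChainPart nx L) (v : V) :
    ∃ l ∈ L, v ∈ l := by
  have h1 : 0 < L.flatten.count v := by rw [h.count]; exact Nat.one_pos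
  have h2 := List.count_pos_iff.1 h1
  rwa [List.mem_flatten] at h2

lemma exists_chains_aux (nx : V → Option V) (ρ : V → ℤ) (hρ : ∀ a b, nx a = some b → ρ a < ρ b)
    (hinj : ∀ a a' b, nx a = some b → nx a' = some b → a = a') (S : Finset V) :
    ∃ L, ChainPart (fun a => if a ∈ S then nx a else none) L := by
  classical
  induction S using Finset.induction_on with
  | empty =>
    refine ⟨(Finset.univ : Finset V).toList.map (fun v => [v]), ?_, ?_, ?_, ?_⟩
    · intro v
      have : ((Finset.univ : Finset V).toList.map (fun v => [v])).flatten = (Finset.univ : Finset V).toList := by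
        rw [← List.flatMap_def]
        exact List.flatMap_singleton' _
      rw [this]
      exact List.count_eq_one_of_mem (Finset.nodup_toList _) (by simp)
    · intro l hl
      rw [List.mem_map] at hl
      obtain ⟨v, _, rfl⟩ := hl
      exact List.isChain_singleton _
    · intro a b h
      simp at h
    · intro l hl
      rw [List.mem_map] at hl
      obtain ⟨v, _, rfl⟩ := hl
      simp
  | insert a S ha ih =>
    obtain ⟨L, hL⟩ := ih
    by_cases hnx : nx a = none
    · have : (fun c => if c ∈ insert a S then nx c else none) = (fun c => if c ∈ S then nx c else none) := by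
        funext c
        by_cases hc : c = a
        · subst hc; simp [hnx, ha]
        · simp [hc]
      rw [this]
      exact ⟨L, hL⟩
    · obtain ⟨b, hb⟩ := Option.ne_none_iff_exists'.1 hnx
      obtain ⟨l1, hl1, hal1⟩ := hL.exists_mem a
      obtain ⟨l2, hl2, hbl2⟩ := hL.exists_mem b
      -- a is the last element of l1
      have h1 : ∃ p, l1 = p ++ [a] := by
        obtain ⟨p, q, hpq⟩ := List.append_of_mem hal1
        cases q with
        | nil => exact ⟨p, hpq⟩
        | cons c q =>
          exfalso
          have := hL.chain l1 hl1
          rw [hpq] at this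
          have h3 := (List.isChain_append_cons_cons.1 this).2.1
          simp only [ha, if_false] at h3
          exact absurd h3 (by simp)
      -- b is the first element of l2
      have h2 : ∃ q, l2 = b :: q := by
        obtain ⟨p, q, hpq⟩ := List.append_of_mem hbl2
        rcases List.eq_nil_or_concat p with hp | ⟨p', c, hp⟩
        · subst hp; exact ⟨q, by simpa using hpq⟩
        · exfalso
          have := hL.chain l2 hl2
          rw [hpq, hp, List.concat_eq_append, List.append_assoc, List.singleton_append] at this
          have h3 := (List.isChain_append_cons_cons.1 this).2.1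
          by_cases hcS : c ∈ S
          · simp only [hcS, if_true] at h3
            have := hinj a c b hb h3
            subst this
            exact ha hcS
          · simp [hcS] at h3
      obtain ⟨p, hp⟩ := h1
      obtain ⟨q, hq⟩ := h2
      have hne : l1 ≠ l2 := by
        intro heq
        have hch := hL.chain l1 hl1
        have hpw : l1.Pairwise (fun x y => ρ x < ρ y) := by
          have : Trans (fun x y : V => ρ x < ρ y) (fun x y : V => ρ x < ρ y)
              (fun x y : V => ρ x < ρ y) := ⟨fun h h' => lt_trans h h'⟩
          apply List.IsChain.pairwise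
          refine hch.imp ?_
          intro x y hxy
          by_cases hx : x ∈ S
          · simp only [hx, if_true] at hxy
            exact hρ x y hxy
          · simp [hx] at hxy
        have hab := hρ a b hb
        -- l1 = b :: q and l1 = p ++ [a]
        rw [heq, hq] at hpw
        have hpa : b :: q = p ++ [a] := by rw [← hq, ← heq, hp]
        cases p with
        | nil =>
          simp only [List.nil_append, List.cons.injEq] at hpa
          rw [hpa.1] at hab
          exact lt_irrefl _ hab
        | cons c p' =>
          simp only [List.cons_append, List.cons.injEq] at hpa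
          have : a ∈ q := by rw [hpa.2]; simp
          have := (List.pairwise_cons.1 hpw).1 a this
          omega
      have hperm1 : L.Perm (l1 :: L.erase l1) := List.perm_cons_erase hl1
      have hl2' : l2 ∈ L.erase l1 := by
        rw [List.mem_erase_of_ne hne.symm]; exact hl2
      have hperm2 : (L.erase l1).Perm (l2 :: (L.erase l1).erase l2) := List.perm_cons_erase hl2'
      set R := (L.erase l1).erase l2 with hR
      have hperm : L.Perm (l1 :: l2 :: R) := hperm1.trans (hperm2.cons _)
      have hmem : ∀ l, l ∈ L ↔ l = l1 ∨ l = l2 ∨ l ∈ R := by
        intro l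
        rw [hperm.mem_iff, List.mem_cons, List.mem_cons]
      have himp : ∀ c d, (if c ∈ S then nx c else none) = some d →
          (if c ∈ insert a S then nx c else none) = some d := by
        intro c d h
        by_cases hc : c ∈ S
        · simp only [hc, if_true] at h
          simp [hc, h]
        · simp [hc] at h
      refine ⟨(l1 ++ l2) :: R, ?_, ?_, ?_, ?_⟩
      · intro v
        have h3 := hL.count v
        rw [List.Perm.count_eq (List.Perm.flatten hperm)] at h3
        rw [← h3]
        simp [List.flatten_cons, List.count_append, add_assoc]
      · intro l hl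
        rw [List.mem_cons] at hl
        rcases hl with hl | hl
        · subst hl
          apply List.IsChain.append
          · exact (hL.chain l1 hl1).imp (fun c d h => himp c d h)
          · exact (hL.chain l2 hl2).imp (fun c d h => himp c d h)
          · intro x hx y hy
            rw [hp] at hx
            rw [hq] at hy
            simp at hx hy
            subst hx; subst hy
            simp [hb]
        · exact (hL.chain l ((hmem l).2 (Or.inr (Or.inr hl)))).imp (fun c d h => himp c d h)
      · intro c d hcd
        by_cases hca : c = a
        · subst hca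
          simp only [Finset.mem_insert_self, if_true] at hcd
          rw [hb, Option.some.injEq] at hcd
          subst hcd
          refine ⟨l1 ++ l2, List.mem_cons_self, ?_⟩
          rw [hp, hq]
          exact ⟨p, q, by simp⟩
        · have hcd' : (if c ∈ S then nx c else none) = some d := by
            simpa [Finset.mem_insert, hca] using hcd
          obtain ⟨l, hl, hinf⟩ := hL.cons c d hcd'
          rcases (hmem l).1 hl with h3 | h3 | h3
          · subst h3
            exact ⟨l ++ l2, List.mem_cons_self, hinf.trans ⟨[], l2, by simp⟩⟩
          · subst h3
            exact ⟨l1 ++ l, List.mem_cons_self, hinf.trans ⟨l1, [], by simp⟩⟩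
          · exact ⟨l, List.mem_cons_of_mem _ h3, hinf⟩
      · intro l hl
        rw [List.mem_cons] at hl
        rcases hl with hl | hl
        · subst hl; rw [hp]; simp
        · exact hL.ne l ((hmem l).2 (Or.inr (Or.inr hl)))

theorem exists_chains (nx : V → Option V) (ρ : V → ℤ) (hρ : ∀ a b, nx a = some b → ρ a < ρ b)
    (hinj : ∀ a a' b, nx a = some b → nx a' = some b → a = a') :
    ∃ L, ChainPart nx L := by
  obtain ⟨L, hL⟩ := exists_chains_aux nx ρ hρ hinj Finset.univ
  have : (fun a => if a ∈ (Finset.univ : Finset V) then nx a else none) = nx := by
    funext a; simp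
  rw [this] at hL
  exact ⟨L, hL⟩

/-- an element occurs in a unique list -/
lemma ChainPart.unique {nx : V → Option V} {L : List (List V)} (h : ChainPart nx L) {v : V}
    {l l' : List V} (hl : l ∈ L) (hl' : l' ∈ L) (hv : v ∈ l) (hv' : v ∈ l') : l = l' := by
  classical
  by_contra hne
  have hperm1 : L.Perm (l :: L.erase l) := List.perm_cons_erase hl
  have hl2' : l' ∈ L.erase l := by
    rw [List.mem_erase_of_ne (Ne.symm hne)]; exact hl'
  have hperm2 : (L.erase l).Perm (l' :: (L.erase l).erase l') := List.perm_cons_erase hl2'
  have hperm : L.Perm (l :: l' :: (L.erase l).erase l') := hperm1.trans (hperm2.cons _)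
  have h3 := h.count v
  rw [List.Perm.count_eq (List.Perm.flatten hperm)] at h3
  rw [List.flatten_cons, List.flatten_cons, List.count_append, List.count_append] at h3
  have h4 := List.count_pos_iff.2 hv
  have h5 := List.count_pos_iff.2 hv'
  omega

lemma ChainPart.count_le {nx : V → Option V} {L : List (List V)} (h : ChainPart nx L) {v : V}
    {l : List V} (hl : l ∈ L) : l.count v ≤ 1 := by
  rw [← h.count v]
  exact (List.sublist_flatten_of_mem hl).count_le v

/-- the head of a chain has no predecessor -/
lemma ChainPart.head {nx : V → Option V} {L : List (List V)} (h : ChainPart nx L) {v u : V}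
    {l : List V} (hl : l ∈ L) (hv : l.head? = some v) : nx u ≠ some v := by
  intro hu
  obtain ⟨l', hl', s, t, hst⟩ := h.cons u v hu
  have hvl : v ∈ l := List.mem_of_head? hv
  have hvl' : v ∈ l' := by rw [← hst]; simp
  have heq := h.unique hl hl' hvl hvl'
  subst heq
  have hc := h.count_le (v := v) hl
  obtain ⟨r, hr⟩ : ∃ r, l = v :: r := by
    cases l with
    | nil => simp at hv
    | cons a r => simp at hv; exact ⟨r, by rw [hv]⟩
  have : v ∈ r := by
    have h2 : l = s ++ [u, v] ++ t := hst.symm
    rw [hr] at h2
    cases s with
    | nil =>
      simp only [List.nil_append, List.cons_append, List.cons.injEq] at h2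
      rw [h2.2]; simp
    | cons a s =>
      simp only [List.cons_append, List.cons.injEq] at h2
      rw [h2.2]; simp
  rw [hr, List.count_cons_self] at hc
  have := List.count_pos_iff.2 this
  omega

/-- the last element of a chain has no successor -/
lemma ChainPart.last {nx : V → Option V} {L : List (List V)} (h : ChainPart nx L) {v : V}
    {l : List V} (hl : l ∈ L) (hv : l.getLast? = some v) : nx v = none := by
  by_contra hne
  obtain ⟨u, hu⟩ := Option.ne_none_iff_exists'.1 hne
  obtain ⟨l', hl', s, t, hst⟩ := h.cons v u hu
  have hvl : v ∈ l := List.mem_of_getLast? hv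
  have hvl' : v ∈ l' := by rw [← hst]; simp
  have heq := h.unique hl hl' hvl hvl'
  subst heq
  have hc := h.count_le (v := v) hl
  obtain ⟨r, hr⟩ : ∃ r, l = r ++ [v] := by
    rcases List.eq_nil_or_concat l with h1 | ⟨r, a, h1⟩
    · rw [h1] at hv; simp at hv
    · rw [h1] at hv; simp at hv; exact ⟨r, by rw [h1, hv, List.concat_eq_append]⟩
  have : v ∈ r := by
    have h2 : l = s ++ [v, u] ++ t := hst.symm
    rw [hr] at h2
    rcases List.eq_nil_or_concat t with h1 | ⟨t', a, h1⟩
    · subst h1
      rw [List.append_nil, show [v, u] = [v] ++ [u] from rfl, ← List.append_assoc] at h2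
      have := List.append_inj_left' h2 rfl
      rw [this]; simp
    · subst h1
      rw [List.concat_eq_append, ← List.append_assoc] at h2
      have := List.append_inj_left' h2 rfl
      rw [this]; simp
  rw [hr, List.count_append, List.count_singleton_self] at hc
  have := List.count_pos_iff.2 this
  omega

end

end Pool.Agent.Lib.Helper10.UB
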