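import Pool.Agent.Lib.Helper10.UB.B4
import Pool.Agent.Lib.Helper10.UB.C3
import Pool.Agent.Lib.Helper10.UB.C4

namespace Pool.Agent.Lib.Helper10.UB

section lists

variable {V : Type*}

lemma mem_head_or {y : V} {l : List V} (h : y ∈ l) : l.head? = some y ∨ ∃ a, [a, y] <:+: l := by
  obtain ⟨p, q, hpq⟩ := List.append_of_mem h
  rcases List.eq_nil_or_concat p with hp | ⟨p', c, hp⟩
  · left; rw [hpq, hp]; rfl
  · right
    refine ⟨c, p', q, ?_⟩
    rw [hpq, hp, List.concat_eq_append]
    simp

lemma mem_last_or {y : V} {l : List V} (h : y ∈ l) : l.getLast? = some y ∨ ∃ b, [y, b] <:+: l := by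
  obtain ⟨p, q, hpq⟩ := List.append_of_mem h
  cases q with
  | nil => left; rw [hpq]; simp
  | cons b q =>
    right
    refine ⟨b, p, q, ?_⟩
    rw [hpq]
    simp

lemma rel_of_infix {R : V → V → Prop} {l : List V} (h : l.IsChain R) {a b : V}
    (hab : [a, b] <:+: l) : R a b := by
  obtain ⟨s, t, hst⟩ := hab
  rw [← hst, List.append_assoc] at h
  exact (List.isChain_append_cons_cons.1 h).2.1

/-- a component: a spine with columns, and side lists -/
def compL (lft s : List V) (col : V → List V) (rgt : List V) : List (List V) :=
  lft.reverse.map (fun x => [x]) ++ s.map (fun u => u :: col u) ++ rgt.map (fun x => [x])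

/-- `l` may be attached at `u` -/
def Att (G : SimpleGraph V) (u : V) (l : List V) : Prop := l.IsChain G.Adj ∧ ∀ c ∈ l.head?, G.Adj u c

lemma att_nil (G : SimpleGraph V) (u : V) : Att G u [] := ⟨List.isChain_nil, by simp⟩

lemma sing_row {G : SimpleGraph V} {l : List V} (h : l.IsChain G.Adj) :
    (l.map (fun x => [x])).IsChain (HR G) := by
  rw [List.isChain_map]
  refine h.imp ?_
  intro a b hab x hx y hy
  simp at hx hy
  subst hx; subst hy
  exact hab

lemma good_comp {G : SimpleGraph V} {lft s : List V} {col : V → List V} {rgt : List V}
    (hs : s ≠ []) (hch : s.IsChain G.Adj) (hcol : ∀ u ∈ s, Att G u (col u))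
    (hl : ∀ u ∈ s.head?, Att G u lft) (hr : ∀ u ∈ s.getLast?, Att G u rgt) :
    Good G (compL lft s col rgt) := by
  obtain ⟨a, ha⟩ : ∃ a, s.head? = some a := by
    cases s with
    | nil => exact absurd rfl hs
    | cons a s => exact ⟨a, rfl⟩
  obtain ⟨z, hz⟩ : ∃ z, s.getLast? = some z := by
    rw [← Option.isSome_iff_exists, List.getLast?_isSome]
    exact hs
  have hl' := hl a ha
  have hr' := hr z hz
  refine ⟨?_, ?_⟩
  · intro l hlm
    unfold compL at hlm
    rw [List.mem_append, List.mem_append, List.mem_map, List.mem_map, List.mem_map] at hlm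
    rcases hlm with (⟨x, _, rfl⟩ | ⟨u, hu, rfl⟩) | ⟨x, _, rfl⟩
    · exact List.isChain_singleton _
    · have := hcol u hu
      exact List.isChain_cons.2 ⟨fun y hy => this.2 y hy, this.1⟩
    · exact List.isChain_singleton _
  · unfold compL
    apply List.IsChain.append
    · apply List.IsChain.append
      · apply sing_row
        rw [List.isChain_reverse]
        exact hl'.1.imp (fun _ _ h => h.symm)
      · rw [List.isChain_map]
        refine hch.imp ?_
        intro x y hxy b hb c hc
        simp at hb hc
        subst hb; subst hc
        exact hxy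
      · intro x hx y hy
        rw [List.getLast?_map, List.getLast?_reverse] at hx
        rw [List.head?_map, ha] at hy
        simp at hy
        subst hy
        intro b hb c hc
        simp at hc
        subst hc
        simp only [Option.mem_def, Option.map_eq_some_iff] at hx
        obtain ⟨d, hd, rfl⟩ := hx
        simp at hb
        subst hb
        exact (hl'.2 _ hd).symm
    · exact sing_row hr'.1
    · intro x hx y hy
      have hx2 : x = z :: col z := by
        rw [List.getLast?_append, List.getLast?_map, hz] at hx
        simp at hx
        exact hx.symm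
      subst hx2
      rw [List.head?_map] at hy
      simp only [Option.mem_def, Option.map_eq_some_iff] at hy
      obtain ⟨d, hd, rfl⟩ := hy
      intro b hb c hc
      simp at hb hc
      subst hb; subst hc
      exact hr'.2 _ hd

lemma flatten_sing (l : List V) : (l.map (fun x => [x])).flatten = l := by
  induction l with
  | nil => rfl
  | cons a l ih => simp [ih]

lemma count_comp [DecidableEq V] (x : V) (lft s : List V) (col : V → List V) (rgt : List V) :
    (compL lft s col rgt).flatten.count x =
      lft.count x + (s.map (fun u => (if u = x then 1 else 0) + (col u).count x)).sum + rgt.count x := by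
  unfold compL
  rw [List.flatten_append, List.flatten_append, flatten_sing, flatten_sing, List.count_append,
    List.count_append, List.count_reverse]
  congr 2
  induction s with
  | nil => rfl
  | cons a s ih =>
    rw [List.map_cons, List.flatten_cons, List.count_append, ih, List.map_cons, List.sum_cons,
      List.count_cons]
    have : (if (a == x) = true then 1 else 0) = if a = x then 1 else 0 := by simp
    rw [this]
    ring

lemma seen_spine {lft s : List V} {col : V → List V} {rgt : List V} {a b : V} (h : [a, b] <:+: s) :
    SSeen (compL lft s col rgt) a b := by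
  left; right
  refine ⟨a :: col a, b :: col b, ?_, rfl, rfl⟩
  have h1 : [a :: col a, b :: col b] <:+: s.map (fun u => u :: col u) := by
    have := h.map (fun u => u :: col u)
    simpa using this
  refine h1.trans ⟨lft.reverse.map (fun x => [x]), rgt.map (fun x => [x]), ?_⟩
  unfold compL
  rfl

lemma seen_col {lft s : List V} {col : V → List V} {rgt : List V} {u a b : V} (hu : u ∈ s)
    (h : [a, b] <:+: u :: col u) : SSeen (compL lft s col rgt) a b := by
  left; left
  refine ⟨u :: col u, ?_, h⟩
  unfold compL
  rw [List.mem_append, List.mem_append]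
  left; right
  exact List.mem_map.2 ⟨u, hu, rfl⟩

lemma seen_lft {lft s : List V} {col : V → List V} {rgt : List V} {a b : V} (h : [a, b] <:+: lft) :
    SSeen (compL lft s col rgt) a b := by
  right; right
  refine ⟨[b], [a], ?_, rfl, rfl⟩
  have h1 : [b, a] <:+: lft.reverse := by
    have := List.reverse_infix.2 h
    simpa using this
  have h2 := h1.map (fun x => [x])
  simp only [List.map_cons, List.map_nil] at h2
  refine h2.trans ⟨[], s.map (fun u => u :: col u) ++ rgt.map (fun x => [x]), ?_⟩
  unfold compL
  simp

lemma seen_rgt {lft s : List V} {col : V → List V} {rgt : List V} {a b : V} (h : [a, b] <:+: rgt) :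
    SSeen (compL lft s col rgt) a b := by
  left; right
  refine ⟨[a], [b], ?_, rfl, rfl⟩
  have h2 := h.map (fun x => [x])
  simp only [List.map_cons, List.map_nil] at h2
  refine h2.trans ⟨lft.reverse.map (fun x => [x]) ++ s.map (fun u => u :: col u), [], ?_⟩
  unfold compL
  simp

lemma seen_lft0 {lft s : List V} {col : V → List V} {rgt : List V} {u c : V}
    (hu : s.head? = some u) (hc : lft.head? = some c) : SSeen (compL lft s col rgt) u c := by
  right; right
  obtain ⟨l', rfl⟩ : ∃ l', lft = c :: l' := by
    cases lft with
    | nil => simp at hc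
    | cons a l => simp at hc; exact ⟨l, by rw [hc]⟩
  obtain ⟨s', rfl⟩ : ∃ s', s = u :: s' := by
    cases s with
    | nil => simp at hu
    | cons a l => simp at hu; exact ⟨l, by rw [hu]⟩
  refine ⟨[c], u :: col u, ?_, rfl, rfl⟩
  refine ⟨l'.reverse.map (fun x => [x]), s'.map (fun u => u :: col u) ++ rgt.map (fun x => [x]), ?_⟩
  unfold compL
  simp

lemma seen_rgt0 {lft s : List V} {col : V → List V} {rgt : List V} {u c : V}
    (hu : s.getLast? = some u) (hc : rgt.head? = some c) : SSeen (compL lft s col rgt) u c := by
  left; right
  obtain ⟨l', rfl⟩ : ∃ l', rgt = c :: l' := by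
    cases rgt with
    | nil => simp at hc
    | cons a l => simp at hc; exact ⟨l, by rw [hc]⟩
  obtain ⟨s', rfl⟩ : ∃ s', s = s' ++ [u] := by
    rcases List.eq_nil_or_concat s with h1 | ⟨r, a, h1⟩
    · rw [h1] at hu; simp at hu
    · rw [h1] at hu; simp at hu; exact ⟨r, by rw [h1, hu, List.concat_eq_append]⟩
  refine ⟨u :: col u, [c], ?_, rfl, rfl⟩
  refine ⟨lft.reverse.map (fun x => [x]) ++ s'.map (fun u => u :: col u), l'.map (fun x => [x]), ?_⟩
  unfold compL
  simp

/-- components for the extra bars of `u` -/
def centers (leg : V → List V) (u : V) : List V → List (List (List V))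
  | a :: b :: c :: r => compL (leg a) [u] (fun _ => leg b) (leg c) :: centers leg u r
  | [a, b] => [compL (leg a) [u] (fun _ => leg b) []]
  | [a] => [compL (leg a) [u] (fun _ => []) []]
  | [] => []

lemma centers_good {G : SimpleGraph V} {leg : V → List V} {u : V} :
    ∀ r : List V, (∀ c ∈ r, Att G u (leg c)) → ∀ comp ∈ centers leg u r, Good G comp
  | a :: b :: c :: r, h, comp, hcomp => by
    rw [centers, List.mem_cons] at hcomp
    rcases hcomp with hcomp | hcomp
    · subst hcomp
      apply good_comp (by simp) (List.isChain_singleton _)
      · intro v hv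
        rw [List.mem_singleton] at hv
        subst hv
        exact h b (by simp)
      · intro v hv
        simp at hv
        subst hv
        exact h a (by simp)
      · intro v hv
        simp at hv
        subst hv
        exact h c (by simp)
    · exact centers_good r (fun d hd => h d (by simp [hd])) comp hcomp
  | [a, b], h, comp, hcomp => by
    rw [centers, List.mem_singleton] at hcomp
    subst hcomp
    apply good_comp (by simp) (List.isChain_singleton _)
    · intro v hv
      rw [List.mem_singleton] at hv
      subst hv
      exact h b (by simp)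
    · intro v hv
      simp at hv
      subst hv
      exact h a (by simp)
    · intro v _
      exact att_nil G v
  | [a], h, comp, hcomp => by
    rw [centers, List.mem_singleton] at hcomp
    subst hcomp
    apply good_comp (by simp) (List.isChain_singleton _)
    · intro v _
      exact att_nil G v
    · intro v hv
      simp at hv
      subst hv
      exact h a (by simp)
    · intro v _
      exact att_nil G v
  | [], _, comp, hcomp => by
    simp [centers] at hcomp

lemma centers_count [DecidableEq V] {leg : V → List V} {u : V} (x : V) :
    ∀ r : List V, ((centers leg u r).map (fun comp => comp.flatten.count x)).sum =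
      ((r.length + 2) / 3) * (if u = x then 1 else 0) + (r.map (fun c => (leg c).count x)).sum
  | a :: b :: c :: r => by
    have ih := centers_count (leg := leg) (u := u) x r
    rw [centers, List.map_cons, List.sum_cons, ih, count_comp]
    simp only [List.map_cons, List.map_nil, List.sum_cons, List.sum_nil, List.length_cons]
    have : (r.length + 1 + 1 + 1 + 2) / 3 = (r.length + 2) / 3 + 1 := by omega
    rw [this]
    ring
  | [a, b] => by
    rw [centers, List.map_cons, List.map_nil, List.sum_cons, count_comp]
    simp
    ring
  | [a] => by
    rw [centers, List.map_cons, List.map_nil, List.sum_cons, count_comp]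
    simp
    ring
  | [] => by simp [centers]

lemma centers_cov {leg : V → List V} {u : V} :
    ∀ (r : List V) (d : V), d ∈ r → (leg d).head? = some d →
      ∃ comp ∈ centers leg u r, SSeen comp u d ∧ ∀ a b, [a, b] <:+: leg d → SSeen comp a b
  | a :: b :: c :: r, d, hd, hleg => by
    rw [centers]
    rw [List.mem_cons, List.mem_cons, List.mem_cons] at hd
    rcases hd with hd | hd | hd | hd
    · subst hd
      exact ⟨_, List.mem_cons_self, seen_lft0 rfl hleg, fun x y h => seen_lft h⟩
    · subst hd
      refine ⟨_, List.mem_cons_self, ?_, fun x y h => seen_col (u := u) (by simp) (h.trans ?_)⟩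
      · apply seen_col (u := u) (by simp)
        cases hl : leg d with
        | nil => rw [hl] at hleg; simp at hleg
        | cons e l =>
          rw [hl] at hleg
          simp at hleg
          subst hleg
          exact ⟨[], l, by simp⟩
      · exact ⟨[u], [], by simp⟩
    · subst hd
      exact ⟨_, List.mem_cons_self, seen_rgt0 rfl hleg, fun x y h => seen_rgt h⟩
    · obtain ⟨comp, h1, h2, h3⟩ := centers_cov r d hd hleg
      exact ⟨comp, List.mem_cons_of_mem _ h1, h2, h3⟩
  | [a, b], d, hd, hleg => by
    rw [centers]
    rw [List.mem_cons, List.mem_singleton] at hd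
    rcases hd with hd | hd
    · subst hd
      exact ⟨_, List.mem_cons_self, seen_lft0 rfl hleg, fun x y h => seen_lft h⟩
    · subst hd
      refine ⟨_, List.mem_cons_self, ?_, fun x y h => seen_col (u := u) (by simp) (h.trans ?_)⟩
      · apply seen_col (u := u) (by simp)
        cases hl : leg d with
        | nil => rw [hl] at hleg; simp at hleg
        | cons e l =>
          rw [hl] at hleg
          simp at hleg
          subst hleg
          exact ⟨[], l, by simp⟩
      · exact ⟨[u], [], by simp⟩
  | [a], d, hd, hleg => by
    rw [centers]
    rw [List.mem_singleton] at hd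
    subst hd
    exact ⟨_, List.mem_cons_self, seen_lft0 rfl hleg, fun x y h => seen_lft h⟩
  | [], d, hd, _ => by simp at hd

/-- distribution of the attachments over the slots -/
lemma slots_sum (g : V → ℕ) (L : List V) (HP HS : Prop) [Decidable HP] [Decidable HS] :
    (L[0]?).elim 0 g + (if HP then none else L[1]?).elim 0 g +
      (if HS then none else L[if HP then 1 else 2]?).elim 0 g +
      ((L.drop (1 + (if HP then 0 else 1) + (if HS then 0 else 1))).map g).sum = (L.map g).sum := by
  by_cases h1 : HP <;> by_cases h2 : HS <;> simp only [h1, h2, if_true, if_false] <;>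
    rcases L with _ | ⟨a, _ | ⟨b, _ | ⟨c, L⟩⟩⟩ <;> simp <;> ring

lemma slots_mem (L : List V) (HP HS : Prop) [Decidable HP] [Decidable HS] {c : V} (hc : c ∈ L) :
    L[0]? = some c ∨ (if HP then none else L[1]?) = some c ∨
      (if HS then none else L[if HP then 1 else 2]?) = some c ∨
      c ∈ L.drop (1 + (if HP then 0 else 1) + (if HS then 0 else 1)) := by
  by_cases h1 : HP <;> by_cases h2 : HS <;> simp only [h1, h2, if_true, if_false] <;>
    rcases L with _ | ⟨a, _ | ⟨b, _ | ⟨d, L⟩⟩⟩ <;> simp at hc ⊢ <;> tauto

end lists

end Pool.Agent.Lib.Helper10.UB
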