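import Pool.Agent.Lib.Helper10.UB.C5

namespace Pool.Agent.Lib.Helper10.UB

section

variable {V : Type*} [Fintype V] [DecidableEq V]

/-- total parent function -/
def pf (par : V → Option V) (v : V) : V := (par v).getD v

open Classical in
/-- the leg successor -/
noncomputable def nleg (par : V → Option V) (v : V) : Option V :=
  if par v = none then none else
  if h : ∃ c, par c = some v ∧ c ∉ Function.periodicPts (pf par) then some h.choose else none

lemma nleg_spec {par : V → Option V} {v c : V} (h : nleg par v = some c) :
    par v ≠ none ∧ par c = some v ∧ c ∉ Function.periodicPts (pf par) := by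
  unfold nleg at h
  split_ifs at h with h1 h2
  rw [Option.some.injEq] at h
  have := h2.choose_spec
  rw [h] at this
  exact ⟨h1, this.1, this.2⟩

lemma nleg_few {par : V → Option V} {v : V} (hp : par v ≠ none) (h : nleg par v = none) {c c' : V}
    (hc : par c = some v) (hc' : par c' = some v) : c = c' := by
  unfold nleg at h
  rw [if_neg hp] at h
  have hno : ¬ ∃ c, par c = some v ∧ c ∉ Function.periodicPts (pf par) := by
    intro hex
    rw [dif_pos hex] at h
    simp at h
  push Not at hno
  obtain ⟨n, hn, hpn⟩ := hno c hc
  obtain ⟨m, hm, hpm⟩ := hno c' hc'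
  refine hpn.eq_of_apply_eq hpm hn hm ?_
  unfold pf
  rw [hc, hc']
  rfl

lemma nleg_inj {par : V → Option V} {v v' c : V} (h : nleg par v = some c)
    (h' : nleg par v' = some c) : v = v' := by
  have h1 := (nleg_spec h).2.1
  have h2 := (nleg_spec h').2.1
  rw [h1, Option.some.injEq] at h2
  exact h2

open Classical in
lemma nleg_rank (par : V → Option V) : ∀ a b, nleg par a = some b →
    (-((Finset.univ.filter (fun x => ∃ n, (pf par)^[n] x = a)).card : ℤ)) <
      -((Finset.univ.filter (fun x => ∃ n, (pf par)^[n] x = b)).card : ℤ) := by
  intro a b h
  obtain ⟨_, hpar, hper⟩ := nleg_spec h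
  have hfb : pf par b = a := by unfold pf; rw [hpar]; rfl
  have : (Finset.univ.filter (fun x => ∃ n, (pf par)^[n] x = b)) ⊂
      (Finset.univ.filter (fun x => ∃ n, (pf par)^[n] x = a)) := by
    rw [Finset.ssubset_iff_of_subset]
    · refine ⟨a, ?_, ?_⟩
      · rw [Finset.mem_filter]
        exact ⟨Finset.mem_univ _, 0, rfl⟩
      · rw [Finset.mem_filter]
        rintro ⟨_, n, hn⟩
        apply hper
        refine ⟨n + 1, Nat.succ_pos _, ?_⟩
        show (pf par)^[n + 1] b = b
        rw [Function.iterate_succ_apply, hfb, hn]
    · intro x hx
      rw [Finset.mem_filter] at hx ⊢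
      obtain ⟨_, n, hn⟩ := hx
      refine ⟨Finset.mem_univ _, n + 1, ?_⟩
      rw [Function.iterate_succ_apply', hn, hfb]
  have := Finset.card_lt_card this
  omega

open Classical in
/-- the chain starting at `c` -/
noncomputable def legOf (L : List (List V)) (c : V) : List V :=
  if h : ∃ l ∈ L, l.head? = some c then h.choose else []

open Classical in
/-- children to be attached at `u` -/
noncomputable def clF (par : V → Option V) (u : V) : Finset V :=
  Finset.univ.filter (fun c => par c = some u ∧ nleg par u ≠ some c)

open Classical in
theorem rep_of_dec (G : SimpleGraph V) {par nxt : V → Option V} {ρ : V → ℤ}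
    (hdec : Dec G Finset.univ par nxt ρ) (t : ℕ) (ht : 2 ≤ t)
    (hdeg : ∀ v, dg G Finset.univ v ≤ 3 * t - 1) :
    ∃ B : V → Finset (ℝ × ℝ), IsUnitBarRep G t B := by
  obtain ⟨L1, hL1⟩ := exists_chains nxt ρ (fun a b h => (hdec.nxt_mem a b h).2.2.2)
    (fun a a' b h h' => hdec.nxt_inj a a' b h h')
  obtain ⟨L2, hL2⟩ := exists_chains (nleg par) _ (nleg_rank par) (fun a a' b h h' => nleg_inj h h')
  let leg : V → List V := legOf L2
  -- facts on legs
  have hchead : ∀ u c, par c = some u → nleg par u ≠ some c → leg c ∈ L2 ∧ (leg c).head? = some c := by
    intro u c hpc hnl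
    have hex : ∃ l ∈ L2, l.head? = some c := by
      obtain ⟨l, hl, hcl⟩ := hL2.exists_mem c
      refine ⟨l, hl, ?_⟩
      rcases mem_head_or hcl with h | ⟨a, ha⟩
      · exact h
      · exfalso
        have h1 : nleg par a = some c := rel_of_infix (hL2.chain l hl) ha
        have h2 := (nleg_spec h1).2.1
        rw [hpc, Option.some.injEq] at h2
        subst h2
        exact hnl h1
    have hleg : leg c = hex.choose := by
      show legOf L2 c = _
      unfold legOf
      rw [dif_pos hex]
    rw [hleg]
    exact hex.choose_spec
  have hlegchain : ∀ l ∈ L2, l.IsChain G.Adj := by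
    intro l hl
    refine (hL2.chain l hl).imp ?_
    intro a b h
    exact (hdec.par_mem b a (nleg_spec h).2.1).2.2.symm
  have hatt : ∀ u, ∀ c ∈ clF par u, Att G u (leg c) := by
    intro u c hc
    unfold clF at hc
    rw [Finset.mem_filter] at hc
    have h1 := hchead u c hc.2.1 hc.2.2
    refine ⟨hlegchain _ h1.1, ?_⟩
    intro d hd
    rw [h1.2] at hd
    simp at hd
    subst hd
    exact (hdec.par_mem c u hc.2.1).2.2.symm
  let cl : V → List V := fun u => (clF par u).toList
  have hcl : ∀ u c, c ∈ cl u ↔ (par c = some u ∧ nleg par u ≠ some c) := by
    intro u c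
    simp [cl, clF]
  have hatt' : ∀ u, ∀ c ∈ cl u, Att G u (leg c) := fun u c hc => hatt u c (by simpa [cl] using hc)
  let HP : V → Prop := fun u => ∃ w, nxt w = some u
  let HS : V → Prop := fun u => nxt u ≠ none
  let c1 : V → Option V := fun u => (cl u)[0]?
  let c2 : V → Option V := fun u => if HP u then none else (cl u)[1]?
  let c3 : V → Option V := fun u => if HS u then none else (cl u)[if HP u then 1 else 2]?
  let rest : V → List V := fun u => (cl u).drop (1 + (if HP u then 0 else 1) + (if HS u then 0 else 1))
  have hc1 : ∀ u c, c1 u = some c → c ∈ cl u := fun u c h => List.mem_of_getElem? h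
  have hc2 : ∀ u c, c2 u = some c → c ∈ cl u ∧ ¬ HP u := by
    intro u c h
    simp only [c2] at h
    split_ifs at h with h1
    exact ⟨List.mem_of_getElem? h, h1⟩
  have hc3 : ∀ u c, c3 u = some c → c ∈ cl u ∧ ¬ HS u := by
    intro u c h
    simp only [c3] at h
    by_cases h1 : HS u
    · rw [if_pos h1] at h; simp at h
    · rw [if_neg h1] at h
      exact ⟨List.mem_of_getElem? h, h1⟩
  have hrest : ∀ u c, c ∈ rest u → c ∈ cl u := fun u c h => List.mem_of_mem_drop h
  let oleg : Option V → List V := fun o => o.elim [] leg
  have hatto : ∀ u o, (∀ c, o = some c → c ∈ cl u) → Att G u (oleg o) := by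
    intro u o ho
    cases o with
    | none => exact att_nil G u
    | some c => exact hatt' u c (ho c rfl)
  let spine : List V → List (List V) := fun s =>
    compL (oleg (s.head?.bind c2)) s (fun u => oleg (c1 u)) (oleg (s.getLast?.bind c3))
  let comps : List (List (List V)) :=
    L1.map spine ++ (Finset.univ : Finset V).toList.flatMap (fun u => centers leg u (rest u))
  refine rep_of_comps G t comps ?_ ?_ ?_
  · -- good
    intro comp hcomp
    rw [List.mem_append, List.mem_map, List.mem_flatMap] at hcomp
    rcases hcomp with ⟨s, hs, rfl⟩ | ⟨u, _, hcomp⟩
    · apply good_comp (hL1.ne s hs)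
      · exact (hL1.chain s hs).imp (fun a b h => (hdec.nxt_mem a b h).2.2.1)
      · intro u _
        exact hatto u (c1 u) (fun c h => hc1 u c h)
      · intro u hu
        simp only [Option.mem_def] at hu
        rw [hu]
        exact hatto u (c2 u) (fun c h => (hc2 u c h).1)
      · intro u hu
        simp only [Option.mem_def] at hu
        rw [hu]
        exact hatto u (c3 u) (fun c h => (hc3 u c h).1)
    · exact centers_good (rest u) (fun c hc => hatt' u c (hrest u c hc)) comp hcomp
  · -- count
    intro x
    let g : V → ℕ := fun c => (leg c).count x
    have hogl : ∀ o, (oleg o).count x = o.elim 0 g := by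
      intro o
      cases o with
      | none => simp [oleg]
      | some c => rfl
    let H : V → ℕ := fun u => (if u = x then 1 else 0) + (c1 u).elim 0 g + (c2 u).elim 0 g + (c3 u).elim 0 g
    have hspine : ∀ s ∈ L1, (spine s).flatten.count x ≤ (s.map H).sum := by
      intro s hs
      simp only [spine]
      rw [count_comp]
      obtain ⟨a, ha⟩ : ∃ a, s.head? = some a := by
        cases hs' : s with
        | nil => exact absurd hs' (hL1.ne s hs)
        | cons a s => exact ⟨a, rfl⟩
      obtain ⟨z, hz⟩ : ∃ z, s.getLast? = some z := by
        rw [← Option.isSome_iff_exists, List.getLast?_isSome]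
        exact hL1.ne s hs
      rw [ha, hz, Option.bind_some, Option.bind_some, hogl, hogl]
      have e1 : (s.map H).sum = (s.map (fun u => (if u = x then 1 else 0) + (oleg (c1 u)).count x)).sum +
          (s.map (fun u => (c2 u).elim 0 g)).sum + (s.map (fun u => (c3 u).elim 0 g)).sum := by
        rw [← List.sum_map_add, ← List.sum_map_add]
        apply congrArg
        apply List.map_congr_left
        intro u _
        simp only [H, hogl]
      rw [e1]
      have e2 : (c2 a).elim 0 g ≤ (s.map (fun u => (c2 u).elim 0 g)).sum :=
        List.le_sum_of_mem (List.mem_map.2 ⟨a, List.mem_of_head? ha, rfl⟩)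
      have e3 : (c3 z).elim 0 g ≤ (s.map (fun u => (c3 u).elim 0 g)).sum :=
        List.le_sum_of_mem (List.mem_map.2 ⟨z, List.mem_of_getLast? hz, rfl⟩)
      omega
    have hsum1 : ((L1.map spine).map (fun comp => comp.flatten.count x)).sum ≤ ∑ u, H u := by
      have e1 : ((L1.map spine).map (fun comp => comp.flatten.count x)).sum ≤
          (L1.map (fun s => (s.map H).sum)).sum := by
        rw [List.map_map]
        apply List.sum_le_sum
        intro s hs
        exact hspine s hs
      have e2 : (L1.map (fun s => (s.map H).sum)).sum = (L1.flatten.map H).sum := by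
        rw [List.map_flatten, List.sum_flatten, List.map_map]
        rfl
      have e3 : (L1.flatten).Perm (Finset.univ : Finset V).toList := by
        rw [List.perm_iff_count]
        intro v
        rw [hL1.count v]
        exact (List.count_eq_one_of_mem (Finset.nodup_toList _) (by simp)).symm
      rw [e2, (e3.map H).sum_eq, Finset.sum_map_toList] at e1
      exact e1
    have hsum2 : (((Finset.univ : Finset V).toList.flatMap (fun u => centers leg u (rest u))).map
        (fun comp => comp.flatten.count x)).sum =
        ∑ u, ((((rest u).length + 2) / 3) * (if u = x then 1 else 0) + ((rest u).map g).sum) := by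
      rw [List.map_flatMap, List.flatMap_def, List.sum_flatten, List.map_map, ← Finset.sum_map_toList]
      apply congrArg
      apply List.map_congr_left
      intro u _
      simp only [Function.comp]
      rw [centers_count]
    have hsum3 : ∑ u, H u + ∑ u, ((((rest u).length + 2) / 3) * (if u = x then 1 else 0) + ((rest u).map g).sum)
        = 1 + ((rest x).length + 2) / 3 + ∑ u, ((cl u).map g).sum := by
      rw [← Finset.sum_add_distrib]
      have e1 : ∀ u, H u + ((((rest u).length + 2) / 3) * (if u = x then 1 else 0) + ((rest u).map g).sum) =
          (if u = x then (1 + ((rest u).length + 2) / 3) else 0) + ((cl u).map g).sum := by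
        intro u
        have := slots_sum g (cl u) (HP u) (HS u)
        simp only [H, c1, c2, c3, rest]
        rw [← this]
        split_ifs <;> ring
      rw [Finset.sum_congr rfl (fun u _ => e1 u), Finset.sum_add_distrib, Finset.sum_ite_eq']
      simp
    -- bound on the leg sum
    have hlegsum : ∑ u, ((cl u).map g).sum ≤ (if par x = none then 0 else 1) := by
      have e1 : ∑ u, ((cl u).map g).sum = ∑ u, ∑ c ∈ clF par u, g c := by
        apply Finset.sum_congr rfl
        intro u _
        exact Finset.sum_map_toList _ _
      rw [e1, ← Finset.sum_biUnion]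
      swap
      · intro u _ v _ huv
        rw [Function.onFun, Finset.disjoint_left]
        intro c hc hc'
        simp only [clF, Finset.mem_filter] at hc hc'
        rw [hc.2.1, Option.some.injEq] at hc'
        exact huv hc'.2.1
      have hCmem : ∀ c ∈ Finset.univ.biUnion (fun u => clF par u), ∃ u, par c = some u ∧ nleg par u ≠ some c := by
        intro c hc
        rw [Finset.mem_biUnion] at hc
        obtain ⟨u, _, hu⟩ := hc
        simp only [clF, Finset.mem_filter] at hu
        exact ⟨u, hu.2⟩
      by_cases hex : ∃ c0 ∈ Finset.univ.biUnion (fun u => clF par u), x ∈ leg c0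
      · obtain ⟨c0, hc0, hx0⟩ := hex
        obtain ⟨u0, hu0, hn0⟩ := hCmem c0 hc0
        have hl0 := hchead u0 c0 hu0 hn0
        rw [Finset.sum_eq_single_of_mem c0 hc0]
        · have hpx : par x ≠ none := by
            rcases mem_head_or hx0 with h | ⟨a, ha⟩
            · rw [hl0.2, Option.some.injEq] at h
              rw [← h, hu0]; simp
            · have h1 : nleg par a = some x := rel_of_infix (hL2.chain _ hl0.1) ha
              rw [(nleg_spec h1).2.1]; simp
          rw [if_neg hpx]
          exact hL2.count_le hl0.1
        · intro c hc hne
          obtain ⟨u, hu, hn⟩ := hCmem c hc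
          have hl := hchead u c hu hn
          show (leg c).count x = 0
          rw [List.count_eq_zero]
          intro hxc
          have := hL2.unique hl.1 hl0.1 hxc hx0
          have h3 : (leg c).head? = (leg c0).head? := by rw [this]
          rw [hl.2, hl0.2, Option.some.injEq] at h3
          exact hne h3
      · push Not at hex
        rw [Finset.sum_eq_zero]
        · exact Nat.zero_le _
        · intro c hc
          exact List.count_eq_zero.2 (hex c hc)
    rw [List.map_append, List.sum_append, hsum2]
    have htot := Nat.add_le_add_right hsum1
      (∑ u, ((((rest u).length + 2) / 3) * (if u = x then 1 else 0) + ((rest u).map g).sum))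
    rw [hsum3] at htot
    refine le_trans htot ?_
    -- degree bound
    have hrl : (rest x).length = (cl x).length - (1 + (if HP x then 0 else 1) + (if HS x then 0 else 1)) := by
      simp only [rest, List.length_drop]
    have hclen : (cl x).length = (clF par x).card := by simp [cl]
    -- number of children
    let ch : Finset V := Finset.univ.filter (fun c => par c = some x)
    have hdx : ch.card + (if par x = none then 0 else 1) + (if HP x then 1 else 0) + (if HS x then 1 else 0)
        ≤ dg G Finset.univ x := by
      let S2 : Finset V := Finset.univ.filter (fun v => par x = some v)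
      let S3 : Finset V := Finset.univ.filter (fun v => nxt x = some v)
      let S4 : Finset V := Finset.univ.filter (fun v => nxt v = some x)
      have m1 : ∀ v, v ∈ ch ↔ par v = some x := by intro v; simp [ch]
      have m2 : ∀ v, v ∈ S2 ↔ par x = some v := by intro v; simp [S2]
      have m3 : ∀ v, v ∈ S3 ↔ nxt x = some v := by intro v; simp [S3]
      have m4 : ∀ v, v ∈ S4 ↔ nxt v = some x := by intro v; simp [S4]
      have k2 : (if par x = none then 0 else 1) ≤ S2.card := by
        split_ifs with h
        · exact Nat.zero_le _
        · obtain ⟨v, hv⟩ := Option.ne_none_iff_exists'.1 h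
          exact Finset.card_pos.2 ⟨v, (m2 v).2 hv⟩
      have k3 : (if HS x then 1 else 0) ≤ S3.card := by
        split_ifs with h
        · obtain ⟨v, hv⟩ := Option.ne_none_iff_exists'.1 h
          exact Finset.card_pos.2 ⟨v, (m3 v).2 hv⟩
        · exact Nat.zero_le _
      have k4 : (if HP x then 1 else 0) ≤ S4.card := by
        split_ifs with h
        · obtain ⟨v, hv⟩ := h
          exact Finset.card_pos.2 ⟨v, (m4 v).2 hv⟩
        · exact Nat.zero_le _
      have d12 : Disjoint ch S2 := by
        rw [Finset.disjoint_left]
        intro v h h'
        exact hdec.excl2 v x ((m1 v).1 h) ((m2 v).1 h')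
      have d3 : Disjoint (ch ∪ S2) S3 := by
        rw [Finset.disjoint_left]
        intro v h h'
        have h3 := (m3 v).1 h'
        rcases Finset.mem_union.1 h with h | h
        · exact (hdec.excl1 x v h3).2 ((m1 v).1 h)
        · exact (hdec.excl1 x v h3).1 ((m2 v).1 h)
      have d4 : Disjoint (ch ∪ S2 ∪ S3) S4 := by
        rw [Finset.disjoint_left]
        intro v h h'
        have h3 := (m4 v).1 h'
        rcases Finset.mem_union.1 h with h | h
        · rcases Finset.mem_union.1 h with h | h
          · exact (hdec.excl1 v x h3).1 ((m1 v).1 h)
          · exact (hdec.excl1 v x h3).2 ((m2 v).1 h)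
        · have h4 := (m3 v).1 h
          have a1 := (hdec.nxt_mem _ _ h3).2.2.2
          have a2 := (hdec.nxt_mem _ _ h4).2.2.2
          omega
      have hsub : ch ∪ S2 ∪ S3 ∪ S4 ⊆ Finset.univ.filter (G.Adj x) := by
        intro v hv
        rw [Finset.mem_filter]
        refine ⟨Finset.mem_univ _, ?_⟩
        rcases Finset.mem_union.1 hv with h | h
        · rcases Finset.mem_union.1 h with h | h
          · rcases Finset.mem_union.1 h with h | h
            · exact (hdec.par_mem _ _ ((m1 v).1 h)).2.2.symm
            · exact (hdec.par_mem _ _ ((m2 v).1 h)).2.2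
          · exact (hdec.nxt_mem _ _ ((m3 v).1 h)).2.2.1
        · exact (hdec.nxt_mem _ _ ((m4 v).1 h)).2.2.1.symm
      have hc := Finset.card_le_card hsub
      rw [Finset.card_union_of_disjoint d4, Finset.card_union_of_disjoint d3,
        Finset.card_union_of_disjoint d12] at hc
      unfold dg
      omega
    have hcl1 : (clF par x).card ≤ ch.card := by
      apply Finset.card_le_card
      intro c hc
      simp only [clF, Finset.mem_filter] at hc
      simp only [ch, Finset.mem_filter]
      exact ⟨hc.1, hc.2.1⟩
    have hdx2 := hdeg x
    by_cases hpx : par x = none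
    · rw [if_pos hpx] at hdx hlegsum
      rw [hrl, hclen]
      split_ifs at hdx ⊢ <;> omega
    · rw [if_neg hpx] at hdx hlegsum
      by_cases hnl : nleg par x = none
      · have : ch.card ≤ 1 := by
          rw [Finset.card_le_one]
          intro a ha b hb
          simp only [ch, Finset.mem_filter] at ha hb
          exact nleg_few hpx hnl ha.2 hb.2
        rw [hrl, hclen]
        split_ifs <;> omega
      · obtain ⟨c, hc⟩ := Option.ne_none_iff_exists'.1 hnl
        have hcl2 : (clF par x).card + 1 ≤ ch.card := by
          have hcch : c ∈ ch := by
            simp only [ch, Finset.mem_filter]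
            exact ⟨Finset.mem_univ _, (nleg_spec hc).2.1⟩
          have : clF par x ⊆ ch.erase c := by
            intro d hd
            simp only [clF, Finset.mem_filter] at hd
            rw [Finset.mem_erase]
            refine ⟨?_, ?_⟩
            · rintro rfl
              exact hd.2.2 hc
            · simp only [ch, Finset.mem_filter]
              exact ⟨hd.1, hd.2.1⟩
          have h5 := Finset.card_le_card this
          rw [Finset.card_erase_of_mem hcch] at h5
          have h6 := Finset.card_pos.2 ⟨c, hcch⟩
          omega
        rw [hrl, hclen]
        split_ifs at hdx ⊢ <;> omega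
  · -- coverage
    have hatcov : ∀ u c, c ∈ cl u → ∃ comp ∈ comps, SSeen comp u c ∧
        ∀ a b, [a, b] <:+: leg c → SSeen comp a b := by
      intro u c hc
      have hc' := (hcl u c).1 hc
      have hleg := hchead u c hc'.1 hc'.2
      obtain ⟨s, hs, hus⟩ := hL1.exists_mem u
      have hsp : spine s ∈ comps := List.mem_append.2 (Or.inl (List.mem_map.2 ⟨s, hs, rfl⟩))
      rcases slots_mem (cl u) (HP u) (HS u) hc with h | h | h | h
      · -- column
        have h' : c1 u = some c := h
        refine ⟨spine s, hsp, ?_, ?_⟩
        · apply seen_col hus
          simp only [h']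
          show [u, c] <:+: u :: leg c
          cases hl : leg c with
          | nil => rw [hl] at hleg; simp at hleg
          | cons e l =>
            rw [hl] at hleg
            have := hleg.2
            simp at this
            subst this
            exact ⟨[], l, by simp⟩
        · intro a b hab
          apply seen_col hus
          simp only [h']
          exact hab.trans ⟨[u], [], by simp [oleg]⟩
      · -- left
        have h' : c2 u = some c := h
        have hnp := (hc2 u c h').2
        have hhead : s.head? = some u := by
          rcases mem_head_or hus with h3 | ⟨a, ha⟩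
          · exact h3
          · exact absurd ⟨a, rel_of_infix (hL1.chain s hs) ha⟩ hnp
        have hol : oleg (s.head?.bind c2) = leg c := by
          rw [hhead, Option.bind_some, h']; rfl
        refine ⟨spine s, hsp, ?_, ?_⟩
        · apply seen_lft0 hhead
          rw [hol]; exact hleg.2
        · intro a b hab
          apply seen_lft
          rw [hol]; exact hab
      · -- right
        have h' : c3 u = some c := h
        have hns := (hc3 u c h').2
        have hlast : s.getLast? = some u := by
          rcases mem_last_or hus with h3 | ⟨b, hb⟩
          · exact h3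
          · exfalso
            apply hns
            have : nxt u = some b := rel_of_infix (hL1.chain s hs) hb
            show nxt u ≠ none
            rw [this]; simp
        have hol : oleg (s.getLast?.bind c3) = leg c := by
          rw [hlast, Option.bind_some, h']; rfl
        refine ⟨spine s, hsp, ?_, ?_⟩
        · apply seen_rgt0 hlast
          rw [hol]; exact hleg.2
        · intro a b hab
          apply seen_rgt
          rw [hol]; exact hab
      · -- centers
        obtain ⟨comp, h1, h2, h3⟩ := centers_cov (leg := leg) (u := u) (rest u) c h hleg.2
        exact ⟨comp, List.mem_append.2 (Or.inr (List.mem_flatMap.2 ⟨u, by simp, h1⟩)), h2, h3⟩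
    have hparcov : ∀ u v, par u = some v → ∃ comp ∈ comps, SSeen comp v u := by
      intro u v huv
      by_cases hnl : nleg par v = some u
      · obtain ⟨l, hl, hinf⟩ := hL2.cons v u hnl
        have hvl : v ∈ l := hinf.subset (by simp)
        obtain ⟨c, hc⟩ : ∃ c, l.head? = some c := by
          cases hs' : l with
          | nil => exact absurd hs' (hL2.ne l hl)
          | cons a s => exact ⟨a, rfl⟩
        have hcpar : par c ≠ none := by
          have hcl' : c ∈ l := List.mem_of_head? hc
          rcases mem_last_or hcl' with h3 | ⟨b, hb⟩
          · -- c is head and last: l = [c], impossible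
            obtain ⟨r, hr⟩ : ∃ r, l = c :: r := by
              cases l with
              | nil => simp at hc
              | cons a r => simp at hc; exact ⟨r, by rw [hc]⟩
            rcases mem_head_or hvl with h4 | ⟨a, ha⟩
            · rw [hc, Option.some.injEq] at h4
              subst h4
              exact (nleg_spec hnl).1
            · -- v has a predecessor in l, while c is last and head
              have hcnt := hL2.count_le (v := c) hl
              by_cases hrn : r = []
              · subst hrn
                rw [hr] at hinf
                have := hinf.length_le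
                simp at this
              · have : c ∈ r := by
                  rw [hr, List.getLast?_cons, Option.some.injEq] at h3
                  have hgl := List.getLast?_eq_getLast_of_ne_nil hrn
                  rw [hgl] at h3
                  simp at h3
                  rw [← h3]
                  exact List.getLast_mem hrn
                rw [hr, List.count_cons_self] at hcnt
                have := List.count_pos_iff.2 this
                omega
          · have h4 : nleg par c = some b := rel_of_infix (hL2.chain l hl) hb
            exact (nleg_spec h4).1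
        obtain ⟨w, hw⟩ := Option.ne_none_iff_exists'.1 hcpar
        have hnw : nleg par w ≠ some c := hL2.head hl hc
        have hlegc := hchead w c hw hnw
        have hceq : leg c = l := hL2.unique hlegc.1 hl (List.mem_of_head? hlegc.2) (List.mem_of_head? hc)
        obtain ⟨comp, h1, h2, h3⟩ := hatcov w c ((hcl w c).2 ⟨hw, hnw⟩)
        exact ⟨comp, h1, h3 v u (by rw [hceq]; exact hinf)⟩
      · obtain ⟨comp, h1, h2, _⟩ := hatcov v u ((hcl v u).2 ⟨huv, hnl⟩)
        exact ⟨comp, h1, h2⟩
    have hnxtcov : ∀ u v, nxt u = some v → ∃ comp ∈ comps, SSeen comp u v := by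
      intro u v huv
      obtain ⟨s, hs, hinf⟩ := hL1.cons u v huv
      exact ⟨spine s, List.mem_append.2 (Or.inl (List.mem_map.2 ⟨s, hs, rfl⟩)), seen_spine hinf⟩
    intro u v huv
    rcases hdec.cover u v (Finset.mem_univ _) (Finset.mem_univ _) huv with h | h | h | h
    · exact hnxtcov u v h
    · obtain ⟨comp, h1, h2⟩ := hnxtcov v u h
      exact ⟨comp, h1, h2.symm⟩
    · obtain ⟨comp, h1, h2⟩ := hparcov u v h
      exact ⟨comp, h1, h2.symm⟩
    · obtain ⟨comp, h1, h2⟩ := hparcov v u h
      exact ⟨comp, h1, h2⟩

end

end Pool.Agent.Lib.Helper10.UB
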