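import Pool.Agent.Lib.Helper10.UB.C6

namespace Pool.Agent.Lib.Helper10.UB

section

variable {V : Type*} [Fintype V] [DecidableEq V]

/-- path cover -/
structure Cover (G : SimpleGraph V) (L : List (List V)) : Prop where
  count : ∀ v, L.flatten.count v = 1
  chain : ∀ l ∈ L, l.IsChain G.Adj
  ne : ∀ l ∈ L, l ≠ []

lemma Cover.exists_mem {G : SimpleGraph V} {L : List (List V)} (h : Cover G L) (v : V) :
    ∃ l ∈ L, v ∈ l := by
  have h1 : 0 < L.flatten.count v := by rw [h.count]; exact Nat.one_pos
  have h2 := List.count_pos_iff.1 h1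
  rwa [List.mem_flatten] at h2

lemma Cover.count_le {G : SimpleGraph V} {L : List (List V)} (h : Cover G L) {v : V}
    {l : List V} (hl : l ∈ L) : l.count v ≤ 1 := by
  rw [← h.count v]
  exact (List.sublist_flatten_of_mem hl).count_le v

lemma exists_cover (G : SimpleGraph V) : ∃ L, Cover G L := by
  refine ⟨(Finset.univ : Finset V).toList.map (fun v => [v]), ?_, ?_, ?_⟩
  · intro v
    rw [flatten_sing]
    exact List.count_eq_one_of_mem (Finset.nodup_toList _) (by simp)
  · intro l hl
    rw [List.mem_map] at hl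
    obtain ⟨v, _, rfl⟩ := hl
    exact List.isChain_singleton _
  · intro l hl
    rw [List.mem_map] at hl
    obtain ⟨v, _, rfl⟩ := hl
    simp

lemma exists_min_cover (G : SimpleGraph V) : ∃ L, Cover G L ∧ ∀ L', Cover G L' → L.length ≤ L'.length := by
  classical
  have hex : ∃ n, ∃ L, Cover G L ∧ L.length = n := by
    obtain ⟨L, hL⟩ := exists_cover G
    exact ⟨_, L, hL, rfl⟩
  obtain ⟨L, hL, hn⟩ := Nat.find_spec hex
  refine ⟨L, hL, fun L' hL' => ?_⟩
  rw [hn]
  exact Nat.find_min' hex ⟨L', hL', rfl⟩

/-- consecutive or closing pair -/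
def CC (l : List V) (u v : V) : Prop :=
  [u, v] <:+: l ∨ [v, u] <:+: l ∨ (3 ≤ l.length ∧ l.head? = some u ∧ l.getLast? = some v) ∨
    (3 ≤ l.length ∧ l.head? = some v ∧ l.getLast? = some u)

lemma nodup_of_count_le {l : List V} (h : ∀ v, l.count v ≤ 1) : l.Nodup :=
  List.nodup_iff_count_le_one.2 h

open Classical in
/-- an interior vertex of a chain has both neighbours in the chain -/
lemma interior_nbr {G : SimpleGraph V} (hdeg : ∀ v, dg G Finset.univ v ≤ 2) {l : List V}
    (hch : l.IsChain G.Adj) (hnd : l.Nodup) {u v a b : V} (ha : [a, u] <:+: l) (hb : [u, b] <:+: l)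
    (huv : G.Adj u v) : v = a ∨ v = b := by
  by_contra hcon
  push Not at hcon
  have hau : G.Adj a u := rel_of_infix hch ha
  have hub : G.Adj u b := rel_of_infix hch hb
  have hab : a ≠ b := by
    rintro rfl
    obtain ⟨s, t, hst⟩ := ha
    obtain ⟨s', t', hst'⟩ := hb
    -- positions
    obtain ⟨i, hi, hi'⟩ := infix_getElem? (⟨s, t, hst⟩ : [a, u] <:+: l)
    obtain ⟨j, hj, hj'⟩ := infix_getElem? (⟨s', t', hst'⟩ : [u, a] <:+: l)
    obtain ⟨e1, e1'⟩ := List.getElem?_eq_some_iff.1 hi
    obtain ⟨e2, e2'⟩ := List.getElem?_eq_some_iff.1 hi'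
    obtain ⟨e3, e3'⟩ := List.getElem?_eq_some_iff.1 hj
    obtain ⟨e4, e4'⟩ := List.getElem?_eq_some_iff.1 hj'
    have h1 : i = j + 1 := (List.Nodup.getElem_inj_iff hnd).1 (by rw [e1', e4'])
    have h2 : i + 1 = j := (List.Nodup.getElem_inj_iff hnd).1 (by rw [e2', e3'])
    omega
  have hsub : ({v, a, b} : Finset V) ⊆ Finset.univ.filter (G.Adj u) := by
    intro y hy
    simp only [Finset.mem_insert, Finset.mem_singleton] at hy
    rw [Finset.mem_filter]
    rcases hy with rfl | rfl | rfl
    · exact ⟨Finset.mem_univ _, huv⟩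
    · exact ⟨Finset.mem_univ _, hau.symm⟩
    · exact ⟨Finset.mem_univ _, hub⟩
  have := Finset.card_le_card hsub
  rw [Finset.card_eq_three.2 ⟨v, a, b, hcon.1, hcon.2, hab, rfl⟩] at this
  have h2 := hdeg u
  unfold dg at h2
  omega

lemma closing {G : SimpleGraph V} (hdeg : ∀ v, dg G Finset.univ v ≤ 2) {L : List (List V)}
    (hL : Cover G L) (hmin : ∀ L', Cover G L' → L.length ≤ L'.length) {u v : V} (huv : G.Adj u v) :
    ∃ l ∈ L, CC l u v := by
  classical
  obtain ⟨l, hl, hul⟩ := hL.exists_mem u
  obtain ⟨l', hl', hvl'⟩ := hL.exists_mem v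
  have hnd : l.Nodup := nodup_of_count_le (fun v => hL.count_le hl)
  have hnd' : l'.Nodup := nodup_of_count_le (fun v => hL.count_le hl')
  -- interior cases
  by_cases hu : ∃ a b, [a, u] <:+: l ∧ [u, b] <:+: l
  · obtain ⟨a, b, ha, hb⟩ := hu
    rcases interior_nbr hdeg (hL.chain l hl) hnd ha hb huv with h | h
    · subst h; exact ⟨l, hl, Or.inr (Or.inl ha)⟩
    · subst h; exact ⟨l, hl, Or.inl hb⟩
  by_cases hv : ∃ a b, [a, v] <:+: l' ∧ [v, b] <:+: l'
  · obtain ⟨a, b, ha, hb⟩ := hv
    rcases interior_nbr hdeg (hL.chain l' hl') hnd' ha hb huv.symm with h | h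
    · subst h; exact ⟨l', hl', Or.inl ha⟩
    · subst h; exact ⟨l', hl', Or.inr (Or.inl hb)⟩
  have hu' : l.head? = some u ∨ l.getLast? = some u := by
    rcases mem_head_or hul with h | ⟨a, ha⟩
    · exact Or.inl h
    · rcases mem_last_or hul with h | ⟨b, hb⟩
      · exact Or.inr h
      · exact absurd ⟨a, b, ha, hb⟩ hu
  have hv' : l'.head? = some v ∨ l'.getLast? = some v := by
    rcases mem_head_or hvl' with h | ⟨a, ha⟩
    · exact Or.inl h
    · rcases mem_last_or hvl' with h | ⟨b, hb⟩
      · exact Or.inr h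
      · exact absurd ⟨a, b, ha, hb⟩ hv
  by_cases hll : l = l'
  · subst hll
    refine ⟨l, hl, ?_⟩
    have hne : u ≠ v := huv.ne
    have key : ∀ x y : V, x ≠ y → l.head? = some x → l.getLast? = some y →
        [x, y] <:+: l ∨ 3 ≤ l.length := by
      intro x y hxy hx hy
      rcases l with _ | ⟨a, _ | ⟨b, _ | ⟨c, m⟩⟩⟩
      · simp at hx
      · simp at hx hy
        exact absurd (hx.symm.trans hy) hxy
      · simp at hx hy
        subst hx; subst hy
        left; exact List.infix_refl _
      · right; simp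
    rcases hu' with hu' | hu' <;> rcases hv' with hv' | hv'
    · rw [hu', Option.some.injEq] at hv'
      exact absurd hv' hne
    · rcases key u v hne hu' hv' with h | h
      · exact Or.inl h
      · exact Or.inr (Or.inr (Or.inl ⟨h, hu', hv'⟩))
    · rcases key v u hne.symm hv' hu' with h | h
      · exact Or.inr (Or.inl h)
      · exact Or.inr (Or.inr (Or.inr ⟨h, hv', hu'⟩))
    · rw [hu', Option.some.injEq] at hv'
      exact absurd hv' hne
  · exfalso
    -- merge
    obtain ⟨m, hm1, hm2, hm3, hm4⟩ : ∃ m : List V, m.Perm l ∧ m.IsChain G.Adj ∧ m.getLast? = some u ∧ m ≠ [] := by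
      rcases hu' with h | h
      · refine ⟨l.reverse, List.reverse_perm l, ?_, ?_, ?_⟩
        · rw [List.isChain_reverse]
          exact (hL.chain l hl).imp (fun _ _ h => h.symm)
        · rw [List.getLast?_reverse]; exact h
        · intro hnil
          exact hL.ne l hl (List.reverse_eq_nil_iff.1 hnil)
      · exact ⟨l, List.Perm.refl _, hL.chain l hl, h, hL.ne l hl⟩
    obtain ⟨m', hm1', hm2', hm3', hm4'⟩ : ∃ m : List V, m.Perm l' ∧ m.IsChain G.Adj ∧ m.head? = some v ∧ m ≠ [] := by
      rcases hv' with h | h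
      · exact ⟨l', List.Perm.refl _, hL.chain l' hl', h, hL.ne l' hl'⟩
      · refine ⟨l'.reverse, List.reverse_perm l', ?_, ?_, ?_⟩
        · rw [List.isChain_reverse]
          exact (hL.chain l' hl').imp (fun _ _ h => h.symm)
        · rw [List.head?_reverse]; exact h
        · intro hnil
          exact hL.ne l' hl' (List.reverse_eq_nil_iff.1 hnil)
    have hperm1 : L.Perm (l :: L.erase l) := List.perm_cons_erase hl
    have hl2' : l' ∈ L.erase l := by
      rw [List.mem_erase_of_ne (Ne.symm hll)]; exact hl'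
    have hperm2 : (L.erase l).Perm (l' :: (L.erase l).erase l') := List.perm_cons_erase hl2'
    set R := (L.erase l).erase l' with hR
    have hperm : L.Perm (l :: l' :: R) := hperm1.trans (hperm2.cons _)
    have hcov : Cover G ((m ++ m') :: R) := by
      refine ⟨?_, ?_, ?_⟩
      · intro w
        have h3 := hL.count w
        rw [List.Perm.count_eq (List.Perm.flatten hperm)] at h3
        rw [← h3]
        simp only [List.flatten_cons, List.count_append]
        rw [hm1.count_eq, hm1'.count_eq, add_assoc]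
      · intro k hk
        rw [List.mem_cons] at hk
        rcases hk with hk | hk
        · subst hk
          apply List.IsChain.append hm2 hm2'
          intro x hx y hy
          rw [hm3] at hx
          rw [hm3'] at hy
          simp at hx hy
          subst hx; subst hy
          exact huv
        · exact hL.chain k (hperm.mem_iff.2 (by simp [hk]))
      · intro k hk
        rw [List.mem_cons] at hk
        rcases hk with hk | hk
        · subst hk
          intro hnil
          rw [List.append_eq_nil_iff] at hnil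
          exact hm4 hnil.1
        · exact hL.ne k (hperm.mem_iff.2 (by simp [hk]))
    have := hmin _ hcov
    rw [hperm.length_eq] at this
    simp at this

end

end Pool.Agent.Lib.Helper10.UB
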