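import Pool.Agent.Lib.Helper10.UB.D1

namespace Pool.Agent.Lib.Helper10.UB

section

variable {V : Type*} [Fintype V] [DecidableEq V]

open Classical in
theorem rep_one (G : SimpleGraph V) (hdeg : ∀ v, dg G Finset.univ v ≤ 2) :
    ∃ B : V → Finset (ℝ × ℝ), IsUnitBarRep G 1 B := by
  obtain ⟨L, hL, hmin⟩ := exists_min_cover G
  have hnd : L.flatten.Nodup := List.nodup_iff_count_le_one.2 (fun v => (hL.count v).le)
  obtain ⟨hndl, hpw⟩ := List.nodup_flatten.1 hnd
  -- positions
  have hpos : ∀ v : V, ∃ (c j : ℕ) (l : List V), L[c]? = some l ∧ l[j]? = some v := by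
    intro v
    obtain ⟨l, hl, hv⟩ := hL.exists_mem v
    obtain ⟨i, hi⟩ := List.mem_iff_getElem?.1 hl
    obtain ⟨j, hj⟩ := List.mem_iff_getElem?.1 hv
    exact ⟨i, j, l, hi, hj⟩
  choose cc jj ll hcl hjl using hpos
  have huniq : ∀ (v : V) (c j : ℕ) (l : List V), L[c]? = some l → l[j]? = some v →
      c = cc v ∧ l = ll v ∧ j = jj v := by
    intro v c j l h1 h2
    have hc : c = cc v := by
      by_contra hne
      obtain ⟨a1, a1'⟩ := List.getElem?_eq_some_iff.1 h1
      obtain ⟨a2, a2'⟩ := List.getElem?_eq_some_iff.1 (hcl v)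
      have hv1 : v ∈ l := List.mem_of_getElem? h2
      have hv2 : v ∈ ll v := List.mem_of_getElem? (hjl v)
      rw [List.pairwise_iff_getElem] at hpw
      rcases Nat.lt_or_gt_of_ne hne with h | h
      · have := hpw c (cc v) a1 a2 h
        rw [a1', a2'] at this
        exact this hv1 hv2
      · have := hpw (cc v) c a2 a1 h
        rw [a1', a2'] at this
        exact this hv2 hv1
    subst hc
    have hl : l = ll v := by
      rw [hcl v, Option.some.injEq] at h1
      exact h1.symm
    subst hl
    refine ⟨rfl, rfl, ?_⟩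
    obtain ⟨a1, a1'⟩ := List.getElem?_eq_some_iff.1 h2
    obtain ⟨a2, a2'⟩ := List.getElem?_eq_some_iff.1 (hjl v)
    have hmem : ll v ∈ L := List.mem_of_getElem? (hcl v)
    exact (List.Nodup.getElem_inj_iff (hndl _ hmem)).1 (by rw [a1', a2'])
  let clo : List V → Prop := fun l => 3 ≤ l.length ∧ ∃ a b, l.head? = some a ∧ l.getLast? = some b ∧ G.Adj a b
  let inn : V → Prop := fun v => clo (ll v) ∧ 0 < jj v ∧ jj v + 1 < (ll v).length
  let sh : V → ℝ := fun v => if inn v then 1 / 2 else 0
  have sh0 : ∀ v, 0 ≤ sh v := by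
    intro v; simp only [sh]; split_ifs <;> norm_num
  have sh1 : ∀ v, sh v ≤ 1 / 2 := by
    intro v; simp only [sh]; split_ifs <;> norm_num
  let b : V → ℝ × ℝ := fun v => (3 * (cc v : ℝ) + sh v, (jj v : ℝ))
  have hsame : ∀ u v, (b u).1 ≤ (b v).1 + 1 → (b v).1 ≤ (b u).1 + 1 → cc u = cc v := by
    intro u v h1 h2
    simp only [b] at h1 h2
    have a1 := sh0 u
    have a2 := sh1 u
    have a3 := sh0 v
    have a4 := sh1 v
    have b1 : (cc u : ℝ) < cc v + 1 := by linarith
    have b2 : (cc v : ℝ) < cc u + 1 := by linarith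
    have c1 : cc u < cc v + 1 := by exact_mod_cast b1
    have c2 : cc v < cc u + 1 := by exact_mod_cast b2
    omega
  have hllsame : ∀ u v, cc u = cc v → ll u = ll v := by
    intro u v h
    have h1 := hcl u
    rw [h, hcl v, Option.some.injEq] at h1
    exact h1.symm
  have hinj : ∀ u v, cc u = cc v → jj u = jj v → u = v := by
    intro u v h1 h2
    have h3 := hllsame u v h1
    have h4 := hjl u
    rw [h3, h2, hjl v, Option.some.injEq] at h4
    exact h4.symm
  have hbarmem : ∀ v x y, (x, y) ∈ barSet (b v) ↔ (b v).1 ≤ x ∧ x ≤ (b v).1 + 1 ∧ y = (jj v : ℝ) := by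
    intro v x y; rfl
  have hjlt : ∀ v, jj v < (ll v).length := fun v => (List.getElem?_eq_some_iff.1 (hjl v)).1
  have hlmem : ∀ v, ll v ∈ L := fun v => List.mem_of_getElem? (hcl v)
  let A : Set (ℝ × ℝ) := {a | ∃ w, a ∈ ({b w} : Finset (ℝ × ℝ))}
  have hA : ∀ a, a ∈ A ↔ ∃ w, a = b w := by
    intro a
    simp [A]
  -- channel implies adjacency
  have hch1 : ∀ u v, Channel A (b u) (b v) → G.Adj u v := by
    rintro u v ⟨s, s', hss, hlt, hx, hno⟩
    have h1 := hx s le_rfl hss.le
    have h2 := hx s' hss.le le_rfl
    have a1 : (b u).1 ≤ s := h1.1.1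
    have a2 : (b v).1 ≤ s := h1.2.1
    have a3 : s' ≤ (b u).1 + 1 := h2.1.2.1
    have a4 : s' ≤ (b v).1 + 1 := h2.2.2.1
    have hc := hsame u v (by linarith) (by linarith)
    have hl := hllsame u v hc
    have hj : jj u < jj v := by
      have : (jj u : ℝ) < (jj v : ℝ) := hlt
      exact_mod_cast this
    have hjv := hjlt v
    have hchl := hL.chain (ll v) (hlmem v)
    by_cases h3 : jj v = jj u + 1
    · obtain ⟨e1, e1'⟩ := List.getElem?_eq_some_iff.1 (hjl u)
      obtain ⟨e2, e2'⟩ := List.getElem?_eq_some_iff.1 (hjl v)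
      have := (List.isChain_iff_getElem.1 hchl) (jj u) (by omega)
      have f1 : (ll v)[jj u]'(by omega) = u := by
        have : (ll v)[jj u]? = some u := by rw [← hl]; exact hjl u
        exact (List.getElem?_eq_some_iff.1 this).2
      have f2 : (ll v)[jj u + 1]'(by omega) = v := by
        have : (ll v)[jj u + 1]? = some v := by rw [← h3]; exact hjl v
        exact (List.getElem?_eq_some_iff.1 this).2
      rw [f1, f2] at this
      exact this
    · -- a blocking vertex
      have h4 : jj u + 1 < jj v := by omega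
      have h5 : jj u + 1 < (ll v).length := by omega
      set w := (ll v)[jj u + 1]'h5 with hw
      have hwpos := huniq w (cc v) (jj u + 1) (ll v) (hcl v) (List.getElem?_eq_getElem h5)
      have hwc : cc w = cc v := hwpos.1.symm
      have hwj : jj w = jj u + 1 := hwpos.2.2.symm
      have hwl : ll w = ll v := hwpos.2.1.symm
      have hwu : b w ≠ b u := by
        intro h
        have := congrArg Prod.snd h
        simp only [b, Nat.cast_inj] at this
        omega
      have hwv : b w ≠ b v := by
        intro h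
        have := congrArg Prod.snd h
        simp only [b, Nat.cast_inj] at this
        omega
      have hblock := hno (b w) ((hA _).2 ⟨w, rfl⟩) hwu hwv
      have hblock' : ∀ x, s ≤ x → x ≤ s' → ¬ ((b w).1 ≤ x ∧ x ≤ (b w).1 + 1) := by
        intro x hx1 hx2 hx3
        apply hblock x (jj w : ℝ) hx1 hx2
        · show (jj u : ℝ) ≤ (jj w : ℝ)
          rw [hwj]; push_cast; linarith
        · show (jj w : ℝ) ≤ (jj v : ℝ)
          exact_mod_cast (by omega : jj w ≤ jj v)
        · exact ⟨hx3.1, hx3.2, rfl⟩
      -- positions of x-coordinates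
      have hcu : (cc u : ℝ) = cc v := by rw [hc]
      have hcw : (cc w : ℝ) = cc v := by rw [hwc]
      have hbu : (b u).1 = 3 * (cc v : ℝ) + sh u := by simp only [b]; rw [hcu]
      have hbv : (b v).1 = 3 * (cc v : ℝ) + sh v := rfl
      have hbw : (b w).1 = 3 * (cc v : ℝ) + sh w := by simp only [b]; rw [hcw]
      have g1 := sh0 u
      have g2 := sh1 u
      have g3 := sh0 v
      have g4 := sh1 v
      have g5 := sh0 w
      have g6 := sh1 w
      by_cases hclo : clo (ll v)
      swap
      · exfalso
        have k1 : sh u = 0 := by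
          simp only [sh]
          rw [if_neg (fun h => hclo (by rw [← hl]; exact h.1))]
        have k2 : sh w = 0 := by
          simp only [sh]
          rw [if_neg (fun h => hclo (by rw [← hwl]; exact h.1))]
        apply hblock' s le_rfl hss.le
        rw [hbu, k1] at a1 a3
        rw [hbw, k2]
        constructor <;> linarith
      have hwin : inn w := ⟨by rw [hwl]; exact hclo, by omega, by rw [hwl]; omega⟩
      have hshw : sh w = 1 / 2 := by simp only [sh]; rw [if_pos hwin]
      have hs'w : s' < (b w).1 := by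
        by_contra hcon
        push Not at hcon
        have := hblock' (max s (b w).1) (le_max_left _ _) (max_le hss.le hcon)
        apply this
        refine ⟨le_max_right _ _, ?_⟩
        apply max_le
        · rw [hbw, hshw]; rw [hbu] at a3
          linarith
        · linarith
      have hnu : ¬ inn u := by
        intro h
        have : sh u = 1 / 2 := by simp only [sh]; rw [if_pos h]
        rw [hbw, hshw] at hs'w
        rw [hbu, this] at a1
        linarith
      have hnv : ¬ inn v := by
        intro h
        have : sh v = 1 / 2 := by simp only [sh]; rw [if_pos h]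
        rw [hbw, hshw] at hs'w
        rw [hbv, this] at a2
        linarith
      have hju0 : jj u = 0 := by
        by_contra hne
        apply hnu
        refine ⟨by rw [hl]; exact hclo, by omega, by rw [hl]; omega⟩
      have hjv0 : jj v + 1 = (ll v).length := by
        by_contra hne
        apply hnv
        exact ⟨hclo, by omega, by omega⟩
      obtain ⟨_, a, z, ha, hz, haz⟩ := hclo
      have e1 : a = u := by
        rw [List.head?_eq_getElem?, ← hl, ← hju0, hjl u, Option.some.injEq] at ha
        exact ha.symm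
      have e2 : z = v := by
        rw [List.getLast?_eq_getElem?] at hz
        have : (ll v).length - 1 = jj v := by omega
        rw [this, hjl v, Option.some.injEq] at hz
        exact hz.symm
      rw [← e1, ← e2]
      exact haz
  -- adjacency implies a channel
  have hcons : ∀ u v l, l ∈ L → [u, v] <:+: l → Channel A (b u) (b v) := by
    intro u v l hl hinf
    obtain ⟨j, hj1, hj2⟩ := infix_getElem? hinf
    obtain ⟨c, hc⟩ := List.mem_iff_getElem?.1 hl
    obtain ⟨p1, p2, p3⟩ := huniq u c j l hc hj1
    obtain ⟨q1, q2, q3⟩ := huniq v c (j + 1) l hc hj2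
    have hcc : cc u = cc v := by rw [← p1, ← q1]
    have hjj : jj v = jj u + 1 := by rw [← p3, ← q3]
    refine ⟨3 * (cc u : ℝ) + 5 / 8, 3 * (cc u : ℝ) + 7 / 8, by linarith, ?_, ?_, ?_⟩
    · show (jj u : ℝ) < (jj v : ℝ)
      rw [hjj]; push_cast; linarith
    · intro x hx hx'
      have g1 := sh0 u
      have g2 := sh1 u
      have g3 := sh0 v
      have g4 := sh1 v
      refine ⟨⟨?_, ?_, rfl⟩, ⟨?_, ?_, rfl⟩⟩
      · show 3 * (cc u : ℝ) + sh u ≤ x
        linarith
      · show x ≤ 3 * (cc u : ℝ) + sh u + 1
        linarith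
      · show 3 * (cc v : ℝ) + sh v ≤ x
        rw [← hcc]; linarith
      · show x ≤ 3 * (cc v : ℝ) + sh v + 1
        rw [← hcc]; linarith
    · intro a ha hau hav x y hx hx' hy hy' hmem
      obtain ⟨w, rfl⟩ := (hA a).1 ha
      rw [hbarmem] at hmem
      obtain ⟨m1, m2, m3⟩ := hmem
      have g1 := sh0 w
      have g2 := sh1 w
      have n1 : 3 * (cc w : ℝ) + sh w ≤ x := m1
      have n2 : x ≤ 3 * (cc w : ℝ) + sh w + 1 := m2
      have b1 : (cc w : ℝ) < cc u + 1 := by linarith
      have b2 : (cc u : ℝ) < cc w + 1 := by linarith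
      have c1 : cc w < cc u + 1 := by exact_mod_cast b1
      have c2 : cc u < cc w + 1 := by exact_mod_cast b2
      have hcw : cc w = cc u := by omega
      rw [m3] at hy hy'
      have d1 : jj u ≤ jj w := by
        have : (jj u : ℝ) ≤ (jj w : ℝ) := hy
        exact_mod_cast this
      have d2 : jj w ≤ jj v := by
        have : (jj w : ℝ) ≤ (jj v : ℝ) := hy'
        exact_mod_cast this
      rcases (by omega : jj w = jj u ∨ jj w = jj v) with h | h
      · exact hau (by rw [hinj w u hcw h])
      · exact hav (by rw [hinj w v (hcw.trans hcc) h])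
  have hclose : ∀ u v l, l ∈ L → G.Adj u v → 3 ≤ l.length → l.head? = some u → l.getLast? = some v →
      Channel A (b u) (b v) := by
    intro u v l hl hadj hlen hhead hlast
    obtain ⟨c, hc⟩ := List.mem_iff_getElem?.1 hl
    have hh : l[0]? = some u := by rw [← List.head?_eq_getElem?]; exact hhead
    have hla : l[l.length - 1]? = some v := by rw [← List.getLast?_eq_getElem?]; exact hlast
    obtain ⟨p1, p2, p3⟩ := huniq u c 0 l hc hh
    obtain ⟨q1, q2, q3⟩ := huniq v c (l.length - 1) l hc hla
    have hcc : cc u = cc v := by rw [← p1, ← q1]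
    have hnu : ¬ inn u := by
      intro h
      have := h.2.1
      omega
    have hnv : ¬ inn v := by
      intro h
      have h2 := h.2.2
      rw [← q2] at h2
      omega
    have hsu : sh u = 0 := by simp only [sh]; rw [if_neg hnu]
    have hsv : sh v = 0 := by simp only [sh]; rw [if_neg hnv]
    refine ⟨3 * (cc u : ℝ) + 1 / 8, 3 * (cc u : ℝ) + 3 / 8, by linarith, ?_, ?_, ?_⟩
    · show (jj u : ℝ) < (jj v : ℝ)
      rw [← p3, ← q3]
      exact_mod_cast (by omega : 0 < l.length - 1)
    · intro x hx hx'
      refine ⟨⟨?_, ?_, rfl⟩, ⟨?_, ?_, rfl⟩⟩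
      · show 3 * (cc u : ℝ) + sh u ≤ x
        rw [hsu]; linarith
      · show x ≤ 3 * (cc u : ℝ) + sh u + 1
        rw [hsu]; linarith
      · show 3 * (cc v : ℝ) + sh v ≤ x
        rw [← hcc, hsv]; linarith
      · show x ≤ 3 * (cc v : ℝ) + sh v + 1
        rw [← hcc, hsv]; linarith
    · intro a ha hau hav x y hx hx' hy hy' hmem
      obtain ⟨w, rfl⟩ := (hA a).1 ha
      rw [hbarmem] at hmem
      obtain ⟨m1, m2, m3⟩ := hmem
      have g1 := sh0 w
      have g2 := sh1 w
      have n1 : 3 * (cc w : ℝ) + sh w ≤ x := m1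
      have n2 : x ≤ 3 * (cc w : ℝ) + sh w + 1 := m2
      have b1 : (cc w : ℝ) < cc u + 1 := by linarith
      have b2 : (cc u : ℝ) < cc w + 1 := by linarith
      have c1 : cc w < cc u + 1 := by exact_mod_cast b1
      have c2 : cc u < cc w + 1 := by exact_mod_cast b2
      have hcw : cc w = cc u := by omega
      have hlw : ll w = l := by rw [hllsame w u hcw, ← p2]
      have hjw : jj w < l.length := by rw [← hlw]; exact hjlt w
      have hw0 : jj w ≠ 0 := fun h => hau (by rw [hinj w u hcw (by rw [h, ← p3])])
      have hw1 : jj w ≠ l.length - 1 := fun h => hav (by rw [hinj w v (hcw.trans hcc) (by rw [h, ← q3])])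
      have hin : inn w := by
        refine ⟨?_, by omega, by rw [hlw]; omega⟩
        rw [hlw]
        exact ⟨hlen, u, v, hhead, hlast, hadj⟩
      have hsw : sh w = 1 / 2 := by simp only [sh]; rw [if_pos hin]
      rw [hsw, hcw] at n1
      linarith
  refine ⟨fun v => {b v}, ?_, ?_, ?_⟩
  · intro v; simp
  · intro u v p hp q hq h
    rw [Finset.mem_singleton] at hp hq
    subst hp; subst hq
    have hne : u ≠ v := by
      rcases h with h | h
      · exact h
      · rintro rfl; exact h rfl
    rw [Set.disjoint_left]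
    rintro ⟨x, y⟩ h1 h2
    rw [hbarmem] at h1 h2
    have hcc := hsame u v (by linarith [h1.1, h2.2.1]) (by linarith [h2.1, h1.2.1])
    have hjj : jj u = jj v := by
      have := h1.2.2.symm.trans h2.2.2
      exact_mod_cast this
    exact hne (hinj u v hcc hjj)
  · intro u v huv
    constructor
    · intro hadj
      refine ⟨b u, Finset.mem_singleton_self _, b v, Finset.mem_singleton_self _, ?_⟩
      obtain ⟨l, hl, hcc⟩ := closing hdeg hL hmin hadj
      rcases hcc with h | h | h | h
      · exact Or.inl (hcons u v l hl h)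
      · exact Or.inr (hcons v u l hl h)
      · exact Or.inl (hclose u v l hl hadj h.1 h.2.1 h.2.2)
      · exact Or.inr (hclose v u l hl hadj.symm h.1 h.2.1 h.2.2)
    · rintro ⟨p, hp, q, hq, h⟩
      rw [Finset.mem_singleton] at hp hq
      subst hp; subst hq
      rcases h with h | h
      · exact hch1 u v h
      · exact (hch1 v u h).symm

end

end Pool.Agent.Lib.Helper10.UB
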