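import Pool.Agent.Lib.Helper10.UB.D2

namespace Pool.Agent.Lib.Helper10.UB

lemma dg_le_degree {V : Type*} [Fintype V] (G : SimpleGraph V) [DecidableRel G.Adj] (v : V) :
    dg G Finset.univ v ≤ G.degree v := by
  unfold dg
  refine le_trans (Finset.card_le_card ?_) (G.card_neighborFinset_eq_degree v).le
  intro u hu
  simp only [Finset.mem_filter] at hu
  exact (SimpleGraph.mem_neighborFinset G v u).2 hu.2

/-- the representation theorem -/
theorem exists_rep (V : Type) [Fintype V] (G : SimpleGraph V) [DecidableRel G.Adj] (hp : IsPlanar G)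
    (hg : 7 ≤ G.egirth) : ∃ B : V → Finset (ℝ × ℝ), IsUnitBarRep G (G.maxDegree / 3 + 1) B := by
  classical
  have hdg : ∀ v, dg G Finset.univ v ≤ G.maxDegree := fun v =>
    le_trans (dg_le_degree G v) (G.degree_le_maxDegree v)
  rcases Nat.lt_or_ge G.maxDegree 3 with h | h
  · have h1 : G.maxDegree / 3 + 1 = 1 := by omega
    rw [h1]
    exact rep_one G (fun v => le_trans (hdg v) (by omega))
  · have hs : Sparse G (Finset.univ : Finset V) := fun Y _ hY => sparse_of_planar G hp hg _ Y rfl hY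
    obtain ⟨par, nxt, ρ, hdec⟩ := exists_dec G Finset.univ hs
    refine rep_of_dec G hdec (G.maxDegree / 3 + 1) (by omega) ?_
    intro v
    have := hdg v
    omega

lemma ceil_eq (n : ℕ) : ⌈((n : ℝ) + 1) / 3⌉₊ = n / 3 + 1 := by
  rw [Nat.ceil_eq_iff (by omega)]
  have h1 : 3 * (n / 3) ≤ n := Nat.mul_div_le n 3
  have h2 : n + 1 ≤ 3 * (n / 3) + 3 := by omega
  have h1' : (3 : ℝ) * ((n / 3 : ℕ) : ℝ) ≤ n := by exact_mod_cast h1
  have h2' : (n : ℝ) + 1 ≤ 3 * ((n / 3 : ℕ) : ℝ) + 3 := by exact_mod_cast h2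
  constructor
  · rw [Nat.add_sub_cancel]
    linarith
  · push_cast
    linarith

end Pool.Agent.Lib.Helper10.UB
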